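import Mathlib

/-!
# Li coefficients of a symmetric multiset of zeros: the sign pattern

`M z` is the multiplicity of the zero `c + z`, where `c` is the centre of the critical strip
`|Re (s - c)| ≤ d`, and `b = a - c > d` for the base point `a`.
-/

set_option autoImplicit false

open Complex Filter Topology Finset

namespace Pool.Agent.N793.LI

/-- abstract zero data: multiplicities, symmetric under the reflection in the critical line, in the
strip of half-width `d`, with the summability of the zeros of an entire function of order one -/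
structure Zd (M : ℂ → ℝ) (d : ℝ) : Prop where
  nn : ∀ z, 0 ≤ M z
  one : ∀ z, M z ≠ 0 → 1 ≤ M z
  strip : ∀ z, M z ≠ 0 → |z.re| ≤ d
  refl : ∀ z, M (-(starRingEnd ℂ z)) = M z
  cnt : ∃ C : ℝ, 0 ≤ C ∧ ∀ S : Finset ℂ, ∑ z ∈ S, M z / (1 + |z.im|) ^ 2 ≤ C

/-- the Möbius transformation -/
noncomputable def W (b : ℝ) (z : ℂ) : ℂ := (z - b) / (z + b)

/-- the Li coefficient -/
noncomputable def li (M : ℂ → ℝ) (b : ℝ) (n : ℕ) : ℝ := ∑' z : ℂ, M z * (1 - (W b z ^ n).re)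

lemma normSq_add (b : ℝ) (z : ℂ) : Complex.normSq (z + b) = (z.re + b) ^ 2 + z.im ^ 2 := by
  rw [Complex.normSq_apply]; simp; ring

lemma normSq_sub (b : ℝ) (z : ℂ) : Complex.normSq (z - b) = (z.re - b) ^ 2 + z.im ^ 2 := by
  rw [Complex.normSq_apply]; simp; ring

lemma W_one_sub {b : ℝ} {z : ℂ} (h : z + b ≠ 0) : W b z = 1 - 2 * b / (z + b) := by
  unfold W
  field_simp
  ring

lemma norm_W_sq (b : ℝ) (z : ℂ) :
    ‖W b z‖ ^ 2 = ((z.re - b) ^ 2 + z.im ^ 2) / ((z.re + b) ^ 2 + z.im ^ 2) := by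
  rw [W, norm_div, div_pow, ← Complex.normSq_eq_norm_sq, ← Complex.normSq_eq_norm_sq,
    normSq_add, normSq_sub]

lemma den_pos {b : ℝ} {z : ℂ} (h : z + b ≠ 0) : (0 : ℝ) < (z.re + b) ^ 2 + z.im ^ 2 := by
  rw [← normSq_add]
  exact Complex.normSq_pos.2 h

lemma norm_W_sq' {b : ℝ} {z : ℂ} (h : z + b ≠ 0) :
    ‖W b z‖ ^ 2 = 1 - 4 * b * z.re / ((z.re + b) ^ 2 + z.im ^ 2) := by
  have h1 := den_pos h
  rw [norm_W_sq]
  field_simp
  ring

/-- on the line the modulus is one -/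
lemma norm_W_line {b : ℝ} {z : ℂ} (hz : z + b ≠ 0) (h : z.re = 0) : ‖W b z‖ = 1 := by
  have h1 := norm_W_sq' hz
  rw [h, mul_zero, zero_div, sub_zero] at h1
  have h2 := norm_nonneg (W b z)
  nlinarith

/-- left of the line the modulus is larger than one -/
lemma one_lt_norm_W {b : ℝ} (hb : 0 < b) {z : ℂ} (hz : z + b ≠ 0) (h : z.re < 0) :
    1 < ‖W b z‖ := by
  have h1 := norm_W_sq' hz
  have h2 := norm_nonneg (W b z)
  have h3 := den_pos hz
  have h4 : 4 * b * z.re / ((z.re + b) ^ 2 + z.im ^ 2) < 0 := by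
    apply div_neg_of_neg_of_pos _ h3
    nlinarith
  nlinarith

/-- the powers of `1 - u` -/
lemma pow_exp (u : ℂ) {R : ℝ} (hR : 1 ≤ R) (hu : ‖1 - u‖ ≤ R) (n : ℕ) :
    ‖(1 - u) ^ n - 1 + n * u‖ ≤ (n : ℝ) ^ 2 * ‖u‖ ^ 2 * R ^ n := by
  induction n with
  | zero => simp
  | succ n ih =>
    have e : (1 - u) ^ (n + 1) - 1 + ((n + 1 : ℕ) : ℂ) * u =
        (1 - u) * ((1 - u) ^ n - 1 + n * u) + n * u ^ 2 := by
      push_cast; ring
    rw [e]
    have h0 := norm_nonneg u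
    have h2 : (1 : ℝ) ≤ R ^ (n + 1) := one_le_pow₀ hR
    have hR0 : 0 ≤ R := by linarith
    calc ‖(1 - u) * ((1 - u) ^ n - 1 + n * u) + n * u ^ 2‖
        ≤ ‖(1 - u) * ((1 - u) ^ n - 1 + n * u)‖ + ‖(n : ℂ) * u ^ 2‖ := norm_add_le _ _
      _ ≤ R * ((n : ℝ) ^ 2 * ‖u‖ ^ 2 * R ^ n) + n * ‖u‖ ^ 2 * R ^ (n + 1) := by
          rw [norm_mul, norm_mul, norm_pow, Complex.norm_natCast]
          have h3 : (n : ℝ) * ‖u‖ ^ 2 ≤ n * ‖u‖ ^ 2 * R ^ (n + 1) :=
            le_mul_of_one_le_right (by positivity) h2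
          exact add_le_add (mul_le_mul hu ih (norm_nonneg _) hR0) h3
      _ = ((n : ℝ) ^ 2 + n) * ‖u‖ ^ 2 * R ^ (n + 1) := by ring
      _ ≤ _ := by
          have : (n : ℝ) ^ 2 + n ≤ ((n + 1 : ℕ) : ℝ) ^ 2 := by
            push_cast
            nlinarith [Nat.cast_nonneg (α := ℝ) n]
          gcongr

variable {M : ℂ → ℝ} {d : ℝ}

lemma Zd.d_nonneg (h : Zd M d) {z : ℂ} (hz : M z ≠ 0) : 0 ≤ d :=
  (abs_nonneg _).trans (h.strip z hz)

/-- The zeros below a height are finitely many. -/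
lemma Zd.fin (h : Zd M d) (T : ℝ) : {z : ℂ | M z ≠ 0 ∧ |z.im| ≤ T}.Finite := by
  obtain ⟨C, hC, hS⟩ := h.cnt
  by_contra hinf
  have hinf' : {z : ℂ | M z ≠ 0 ∧ |z.im| ≤ T}.Infinite := hinf
  obtain ⟨k, hk⟩ := exists_nat_gt (C * (1 + |T|) ^ 2)
  obtain ⟨S, hS1, hS2⟩ := hinf'.exists_subset_card_eq k
  have h1 := hS S
  have h2 : ∑ z ∈ S, 1 / (1 + |T|) ^ 2 ≤ ∑ z ∈ S, M z / (1 + |z.im|) ^ 2 := by
    refine Finset.sum_le_sum fun z hz => ?_
    obtain ⟨h3, h4⟩ := hS1 hz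
    have h5 := h.one z h3
    have h6 : |z.im| ≤ |T| := h4.trans (le_abs_self T)
    have h7 := abs_nonneg z.im
    gcongr
  rw [Finset.sum_const, hS2, nsmul_eq_mul, mul_one_div] at h2
  have h8 : (k : ℝ) ≤ C * (1 + |T|) ^ 2 := by
    rw [← div_le_iff₀ (by positivity)]
    linarith
  linarith

/-- summability with the weight -/
lemma Zd.summable_cnt (h : Zd M d) : Summable fun z : ℂ => M z / (1 + |z.im|) ^ 2 := by
  obtain ⟨C, -, hS⟩ := h.cnt
  exact summable_of_sum_le (fun z => div_nonneg (h.nn z) (by positivity)) hS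

/-- a zero is not `-b` -/
lemma ne_base {b : ℝ} (hb0 : M (-(b : ℂ)) = 0) {z : ℂ} (hz : M z ≠ 0) : z + b ≠ 0 := by
  intro h0
  apply hz
  rw [eq_neg_of_add_eq_zero_left h0]
  exact hb0

/-- constant of comparison -/
lemma Zd.den_ge (h : Zd M d) {b : ℝ} (hb0 : M (-(b : ℂ)) = 0) :
    ∃ κ : ℝ, 0 < κ ∧ ∀ z : ℂ, M z ≠ 0 → κ * (1 + |z.im|) ^ 2 ≤ (z.re + b) ^ 2 + z.im ^ 2 := by
  classical
  have hfin := h.fin 1
  obtain ⟨κ, hκ, hlow⟩ : ∃ κ : ℝ, 0 < κ ∧ ∀ z ∈ hfin.toFinset, κ ≤ (z.re + b) ^ 2 + z.im ^ 2 := by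
    by_cases hne : hfin.toFinset.Nonempty
    · obtain ⟨z₀, hz₀, hmin⟩ := hfin.toFinset.exists_min_image
        (fun z : ℂ => (z.re + b) ^ 2 + z.im ^ 2) hne
      have : M z₀ ≠ 0 ∧ |z₀.im| ≤ 1 := by simpa using hz₀
      exact ⟨_, den_pos (ne_base hb0 this.1), hmin⟩
    · refine ⟨1, one_pos, fun z hz => absurd ⟨z, hz⟩ hne⟩
  refine ⟨min (κ / 4) (1 / 4), by positivity, fun z hz => ?_⟩
  have hy := abs_nonneg z.im
  by_cases h1 : |z.im| ≤ 1
  · have h2 := hlow z (by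
      rw [Set.Finite.mem_toFinset]
      exact ⟨hz, h1⟩)
    calc min (κ / 4) (1 / 4) * (1 + |z.im|) ^ 2 ≤ κ / 4 * 4 := by
          refine mul_le_mul (min_le_left _ _) (by nlinarith) (by positivity) (by positivity)
      _ ≤ _ := by linarith
  · push Not at h1
    have h3 := sq_abs z.im
    calc min (κ / 4) (1 / 4) * (1 + |z.im|) ^ 2 ≤ 1 / 4 * (1 + |z.im|) ^ 2 := by
          gcongr
          exact min_le_right _ _
      _ ≤ z.im ^ 2 := by nlinarith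
      _ ≤ _ := by nlinarith [sq_nonneg (z.re + b)]

/-- the bound of one term -/
lemma Zd.term_le (h : Zd M d) {b : ℝ} (hb : 0 < b) (hb0 : M (-(b : ℂ)) = 0) :
    ∃ K : ℝ, 0 ≤ K ∧ ∀ (z : ℂ) (R : ℝ) (n : ℕ), M z ≠ 0 → 1 ≤ R → ‖W b z‖ ≤ R → 1 ≤ n →
      |1 - (W b z ^ n).re| ≤ K * (n : ℝ) ^ 2 * R ^ n / (1 + |z.im|) ^ 2 := by
  obtain ⟨κ, hκ, hden⟩ := h.den_ge hb0
  refine ⟨4 * b ^ 2 / κ + 2 * b * (|d| + b) / κ, by positivity, fun z R n hz hR hW hn => ?_⟩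
  have hne := ne_base hb0 hz
  set D : ℝ := (z.re + b) ^ 2 + z.im ^ 2 with hD
  have hDpos : 0 < D := den_pos hne
  have hDge : κ * (1 + |z.im|) ^ 2 ≤ D := hden z hz
  have hy : 0 < (1 + |z.im|) ^ 2 := by positivity
  have hn1 : (1 : ℝ) ≤ n := by exact_mod_cast hn
  set u : ℂ := 2 * b / (z + b) with hu
  have hWu : W b z = 1 - u := W_one_sub hne
  have h1 := pow_exp u hR (by rw [← hWu]; exact hW) n
  -- the square of the norm of u
  have h2 : ‖u‖ ^ 2 = 4 * b ^ 2 / D := by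
    rw [hu, norm_div, div_pow, ← Complex.normSq_eq_norm_sq (z + b), normSq_add, ← hD]
    have : ‖(2 : ℂ) * b‖ = 2 * b := by
      rw [norm_mul, Complex.norm_real, Real.norm_eq_abs, abs_of_pos hb]
      norm_num
    rw [this]; ring
  have h3 : ‖u‖ ^ 2 ≤ 4 * b ^ 2 / κ / (1 + |z.im|) ^ 2 := by
    rw [h2, div_div]
    exact div_le_div_of_nonneg_left (by positivity) (by positivity) hDge
  -- the real part of u
  have h4 : |((n : ℂ) * u).re| ≤ n * (2 * b * (|d| + b) / κ / (1 + |z.im|) ^ 2) := by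
    have e : ((n : ℂ) * u).re = n * (2 * b * (z.re + b) / D) := by
      rw [hu]
      have : ((n : ℂ) * (2 * b / (z + b))) = ((n * (2 * b) : ℝ) : ℂ) * (z + b)⁻¹ := by
        push_cast; ring
      rw [this, Complex.re_ofReal_mul, Complex.inv_re, normSq_add, ← hD]
      simp only [add_re, ofReal_re]
      ring
    rw [e, abs_mul, abs_of_nonneg (by linarith : (0 : ℝ) ≤ n), abs_div, abs_of_pos hDpos, abs_mul,
      abs_of_pos (by positivity : (0 : ℝ) < 2 * b)]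
    have h5 : |z.re + b| ≤ |d| + b := by
      have h6 := h.strip z hz
      have h7 := le_abs_self d
      refine (abs_add_le _ _).trans ?_
      rw [abs_of_pos hb]
      linarith
    have h6 : 2 * b * |z.re + b| / D ≤ 2 * b * (|d| + b) / κ / (1 + |z.im|) ^ 2 := by
      rw [div_div]
      calc 2 * b * |z.re + b| / D ≤ 2 * b * (|d| + b) / D := by gcongr
        _ ≤ _ := div_le_div_of_nonneg_left (by positivity) (by positivity) hDge
    gcongr
  have h6 : |1 - (W b z ^ n).re| ≤ ‖(1 - u) ^ n - 1 + n * u‖ + |((n : ℂ) * u).re| := by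
    have e : 1 - (W b z ^ n).re = -((1 - u) ^ n - 1 + n * u).re + ((n : ℂ) * u).re := by
      rw [hWu]
      simp only [add_re, sub_re, one_re]
      ring
    rw [e]
    refine (abs_add_le _ _).trans ?_
    rw [abs_neg]
    gcongr
    exact Complex.abs_re_le_norm _
  have hR1 : (1 : ℝ) ≤ R ^ n := one_le_pow₀ hR
  have hnn : (n : ℝ) ≤ (n : ℝ) ^ 2 := by nlinarith
  calc |1 - (W b z ^ n).re| ≤ (n : ℝ) ^ 2 * ‖u‖ ^ 2 * R ^ n +
        n * (2 * b * (|d| + b) / κ / (1 + |z.im|) ^ 2) := h6.trans (add_le_add h1 h4)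
    _ ≤ (n : ℝ) ^ 2 * (4 * b ^ 2 / κ / (1 + |z.im|) ^ 2) * R ^ n +
        (n : ℝ) ^ 2 * (2 * b * (|d| + b) / κ / (1 + |z.im|) ^ 2) * R ^ n := by
          refine add_le_add (by gcongr) ?_
          have h7 : 0 ≤ 2 * b * (|d| + b) / κ / (1 + |z.im|) ^ 2 := by positivity
          calc n * (2 * b * (|d| + b) / κ / (1 + |z.im|) ^ 2) ≤
                (n : ℝ) ^ 2 * (2 * b * (|d| + b) / κ / (1 + |z.im|) ^ 2) := by gcongr
            _ ≤ _ := le_mul_of_one_le_right (by positivity) hR1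
    _ = _ := by ring

/-- the modulus is bounded -/
lemma Zd.norm_W_le (h : Zd M d) {b : ℝ} (hb : 0 < b) (hb0 : M (-(b : ℂ)) = 0) :
    ∃ K : ℝ, 0 ≤ K ∧ ∀ z : ℂ, M z ≠ 0 → ‖W b z‖ ^ 2 ≤ 1 + K / (1 + |z.im|) ^ 2 := by
  obtain ⟨κ, hκ, hden⟩ := h.den_ge hb0
  refine ⟨4 * b * |d| / κ, by positivity, fun z hz => ?_⟩
  have hDpos := den_pos (ne_base hb0 hz)
  have hy : 0 < (1 + |z.im|) ^ 2 := by positivity
  rw [norm_W_sq' (ne_base hb0 hz)]
  have h1 : -(4 * b * z.re / ((z.re + b) ^ 2 + z.im ^ 2)) ≤ 4 * b * |d| / κ / (1 + |z.im|) ^ 2 := by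
    rw [div_div]
    calc -(4 * b * z.re / ((z.re + b) ^ 2 + z.im ^ 2)) =
          4 * b * (-z.re) / ((z.re + b) ^ 2 + z.im ^ 2) := by ring
      _ ≤ 4 * b * |d| / ((z.re + b) ^ 2 + z.im ^ 2) := by
          apply div_le_div_of_nonneg_right _ hDpos.le
          have h2 := h.strip z hz
          have h3 := neg_abs_le z.re
          have h4 := le_abs_self d
          have : -z.re ≤ |d| := by linarith
          gcongr
      _ ≤ _ := div_le_div_of_nonneg_left (by positivity) (by positivity) (hden z hz)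
  linarith

/-- the exact maximum of the moduli, when there is a zero off the line -/
lemma Zd.exmax (h : Zd M d) {b : ℝ} (hb : 0 < b) (hb0 : M (-(b : ℂ)) = 0) (hoff : ∃ z, M z ≠ 0 ∧ z.re ≠ 0) :
    ∃ z₀, M z₀ ≠ 0 ∧ 1 < ‖W b z₀‖ ∧ (∀ z, M z ≠ 0 → ‖W b z‖ ≤ ‖W b z₀‖) := by
  obtain ⟨z₁, hz₁, hre⟩ : ∃ z, M z ≠ 0 ∧ z.re < 0 := by
    obtain ⟨z, hz, hre⟩ := hoff
    rcases lt_or_gt_of_ne hre with h1 | h1
    · exact ⟨z, hz, h1⟩
    · refine ⟨-(starRingEnd ℂ z), by rw [h.refl]; exact hz, ?_⟩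
      simp [h1]
  have h1 := one_lt_norm_W hb (ne_base hb0 hz₁) hre
  obtain ⟨K, hK, hW⟩ := h.norm_W_le hb hb0
  -- above this height the modulus is smaller than the one of z₁
  obtain ⟨T, hT⟩ : ∃ T : ℝ, ∀ z : ℂ, M z ≠ 0 → T < |z.im| → ‖W b z‖ ≤ ‖W b z₁‖ := by
    refine ⟨K / (‖W b z₁‖ ^ 2 - 1), fun z hz hy => ?_⟩
    have h2 : 0 < ‖W b z₁‖ ^ 2 - 1 := by nlinarith
    have h3 := hW z hz
    have h4 : K / (1 + |z.im|) ^ 2 ≤ ‖W b z₁‖ ^ 2 - 1 := by
      rw [div_le_iff₀ (by positivity)]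
      rw [div_lt_iff₀ h2] at hy
      have h5 : |z.im| ≤ (1 + |z.im|) ^ 2 := by nlinarith [abs_nonneg z.im]
      nlinarith
    have h6 : ‖W b z‖ ^ 2 ≤ ‖W b z₁‖ ^ 2 := by linarith
    exact (pow_le_pow_iff_left₀ (norm_nonneg _) (norm_nonneg _) two_ne_zero).1 h6
  have hfin := h.fin (max T |z₁.im|)
  obtain ⟨z₀, hz₀, hmax⟩ := hfin.toFinset.exists_max_image (fun z => ‖W b z‖)
    ⟨z₁, by simp [hz₁]⟩
  have hz₀' : M z₀ ≠ 0 ∧ |z₀.im| ≤ max T |z₁.im| := by simpa using hz₀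
  have h7 : ‖W b z₁‖ ≤ ‖W b z₀‖ := hmax z₁ (by simp [hz₁])
  refine ⟨z₀, hz₀'.1, lt_of_lt_of_le h1 h7, fun z hz => ?_⟩
  by_cases hy : |z.im| ≤ max T |z₁.im|
  · exact hmax z (by
      rw [Set.Finite.mem_toFinset]
      exact ⟨hz, hy⟩)
  · refine (hT z hz ?_).trans h7
    exact lt_of_le_of_lt (le_max_left _ _) (not_le.1 hy)

/-- the zeros at which the modulus exceeds a number larger than one are finitely many -/
lemma Zd.fin_large (h : Zd M d) {b : ℝ} (hb : 0 < b) (hb0 : M (-(b : ℂ)) = 0) {R : ℝ}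
    (hR : 1 < R) : {z : ℂ | M z ≠ 0 ∧ R ≤ ‖W b z‖}.Finite := by
  obtain ⟨K, hK, hW⟩ := h.norm_W_le hb hb0
  refine (h.fin (K / (R ^ 2 - 1))).subset fun z ⟨hz, hz2⟩ => ⟨hz, ?_⟩
  have h2 : 0 < R ^ 2 - 1 := by nlinarith
  have h3 := hW z hz
  have h4 : R ^ 2 ≤ ‖W b z‖ ^ 2 := by gcongr
  have h5 : R ^ 2 - 1 ≤ K / (1 + |z.im|) ^ 2 := by linarith
  rw [le_div_iff₀ (by positivity)] at h5
  rw [le_div_iff₀ h2]
  have h6 : |z.im| ≤ (1 + |z.im|) ^ 2 := by nlinarith [abs_nonneg z.im]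
  nlinarith

/-- absolute convergence of the Li coefficients -/
lemma Zd.summable_li (h : Zd M d) {b : ℝ} (hb : 0 < b) (hb0 : M (-(b : ℂ)) = 0) (n : ℕ) :
    Summable fun z : ℂ => M z * (1 - (W b z ^ n).re) := by
  rcases Nat.eq_zero_or_pos n with rfl | hn
  · simp only [pow_zero, one_re, sub_self, mul_zero]
    exact summable_zero
  obtain ⟨K, hK, hW⟩ := h.norm_W_le hb hb0
  obtain ⟨K', hK', hT⟩ := h.term_le hb hb0
  have hb1 : ∀ z, M z ≠ 0 → ‖W b z‖ ≤ 1 + K := by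
    intro z hz
    have h3 := hW z hz
    have h4 : K / (1 + |z.im|) ^ 2 ≤ K := by
      apply div_le_self hK
      nlinarith [abs_nonneg z.im]
    have h5 := norm_nonneg (W b z)
    nlinarith
  refine Summable.of_norm_bounded (g := fun z => (K' * (n : ℝ) ^ 2 * (1 + K) ^ n) *
    (M z / (1 + |z.im|) ^ 2)) (h.summable_cnt.mul_left _) fun z => ?_
  by_cases hz : M z = 0
  · simp [hz]
  · have h6 := hT z (1 + K) n hz (by linarith) (hb1 z hz) hn
    rw [norm_mul, Real.norm_eq_abs, Real.norm_eq_abs, abs_of_nonneg (h.nn z)]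
    calc M z * |1 - (W b z ^ n).re| ≤ M z * (K' * (n : ℝ) ^ 2 * (1 + K) ^ n / (1 + |z.im|) ^ 2) := by
          gcongr
          exact h.nn z
      _ = _ := by ring

/-- On the critical line all terms are nonnegative. -/
lemma Zd.li_nonneg (h : Zd M d) {b : ℝ} (hb0 : M (-(b : ℂ)) = 0) (hline : ∀ z, M z ≠ 0 → z.re = 0) (n : ℕ) :
    0 ≤ li M b n := by
  refine tsum_nonneg fun z => ?_
  by_cases hz : M z = 0
  · simp [hz]
  · refine mul_nonneg (h.nn z) ?_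
    have h1 := norm_W_line (ne_base hb0 hz) (hline z hz)
    have h2 := Complex.re_le_norm (W b z ^ n)
    rw [norm_pow, h1, one_pow] at h2
    linarith

/-- **The asymptotic formula.**  If one zero lies off the critical line then, with `R` the maximum of
the moduli, attained on the finite set `E`, the Li coefficient is `- R ^ n ∑ M Re (W / R) ^ n` up to
`o (R ^ n)`. -/
theorem Zd.asym (h : Zd M d) {b : ℝ} (hb : 0 < b) (hb0 : M (-(b : ℂ)) = 0)
    (hoff : ∃ z, M z ≠ 0 ∧ z.re ≠ 0) :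
    ∃ (R : ℝ) (E : Finset ℂ), 1 < R ∧ E.Nonempty ∧ (∀ z ∈ E, M z ≠ 0 ∧ ‖W b z‖ = R) ∧
      ∀ η : ℝ, 0 < η → ∃ N : ℕ, ∀ n, N ≤ n →
        |li M b n + R ^ n * ∑ z ∈ E, M z * ((W b z / R) ^ n).re| ≤ η * R ^ n := by
  classical
  obtain ⟨z₀, hz₀, hR1, hmax⟩ := h.exmax hb hb0 hoff
  set R : ℝ := ‖W b z₀‖ with hR
  -- the extremal zeros
  have hfin := h.fin_large hb hb0 hR1
  set E : Finset ℂ := hfin.toFinset with hE
  have hEmem : ∀ z, z ∈ E ↔ M z ≠ 0 ∧ R ≤ ‖W b z‖ := by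
    intro z; simp [hE]
  have hz₀E : z₀ ∈ E := by rw [hEmem]; exact ⟨hz₀, le_refl _⟩
  have hEeq : ∀ z ∈ E, ‖W b z‖ = R := by
    intro z hz
    rw [hEmem] at hz
    exact le_antisymm (hmax z hz.1) hz.2
  -- the next modulus
  obtain ⟨R', hR'1, hR'R, hR'⟩ : ∃ R' : ℝ, 1 ≤ R' ∧ R' < R ∧ ∀ z, M z ≠ 0 → z ∉ E → ‖W b z‖ ≤ R' := by
    have hfin2 := h.fin_large hb hb0 (R := (1 + R) / 2) (by linarith)
    set F : Finset ℂ := hfin2.toFinset \ E with hF
    by_cases hFne : F.Nonempty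
    · obtain ⟨z₂, hz₂, hm⟩ := F.exists_max_image (fun z => ‖W b z‖) hFne
      refine ⟨max (‖W b z₂‖) ((1 + R) / 2), le_max_of_le_right (by linarith),
        max_lt ?_ (by linarith), ?_⟩
      · rw [hF, Finset.mem_sdiff, Set.Finite.mem_toFinset] at hz₂
        obtain ⟨⟨h1, -⟩, h2⟩ := hz₂
        rw [hEmem] at h2
        by_contra hc
        exact h2 ⟨h1, not_lt.1 hc⟩
      · intro z hz hzE
        by_cases h3 : (1 + R) / 2 ≤ ‖W b z‖
        · refine le_max_of_le_left (hm z ?_)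
          rw [hF, Finset.mem_sdiff, Set.Finite.mem_toFinset]
          exact ⟨⟨hz, h3⟩, hzE⟩
        · exact le_max_of_le_right (not_le.1 h3).le
    · refine ⟨(1 + R) / 2, by linarith, by linarith, fun z hz hzE => ?_⟩
      by_contra h3
      apply hFne
      refine ⟨z, ?_⟩
      rw [hF, Finset.mem_sdiff, Set.Finite.mem_toFinset]
      exact ⟨⟨hz, (not_le.1 h3).le⟩, hzE⟩
  have hR0 : 0 < R := by linarith
  obtain ⟨K, hK, hT⟩ := h.term_le hb hb0
  obtain ⟨C, hC, hCS⟩ := h.cnt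
  set m : ℝ := ∑ z ∈ E, M z with hm
  have hm0 : 0 ≤ m := Finset.sum_nonneg fun z _ => h.nn z
  refine ⟨R, E, hR1, ⟨z₀, hz₀E⟩, fun z hz => ⟨((hEmem z).1 hz).1, hEeq z hz⟩, fun η hη => ?_⟩
  -- the error terms
  have hlim : ∀ᶠ n : ℕ in atTop, m + K * C * (n : ℝ) ^ 2 * R' ^ n ≤ η * R ^ n := by
    have h1 : Tendsto (fun n : ℕ => (n : ℝ) ^ 2 * (R' / R) ^ n) atTop (𝓝 0) := by
      have h2 : |R' / R| < 1 := by
        rw [abs_of_nonneg (by positivity), div_lt_one hR0]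
        exact hR'R
      exact tendsto_pow_const_mul_const_pow_of_abs_lt_one 2 h2
    have h3 : Tendsto (fun n : ℕ => m * (1 / R) ^ n + K * C * ((n : ℝ) ^ 2 * (R' / R) ^ n)) atTop
        (𝓝 (m * 0 + K * C * 0)) := by
      refine Tendsto.add (Tendsto.const_mul _ ?_) (h1.const_mul _)
      apply tendsto_pow_atTop_nhds_zero_of_lt_one (by positivity)
      rw [div_lt_one hR0]
      exact hR1
    rw [mul_zero, mul_zero, add_zero] at h3
    have h4 : ∀ᶠ n : ℕ in atTop, m * (1 / R) ^ n + K * C * ((n : ℝ) ^ 2 * (R' / R) ^ n) < η :=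
      h3.eventually_lt_const hη
    filter_upwards [h4] with n hn
    have h5 : 0 < R ^ n := by positivity
    have h6 : m + K * C * (n : ℝ) ^ 2 * R' ^ n =
        R ^ n * (m * (1 / R) ^ n + K * C * ((n : ℝ) ^ 2 * (R' / R) ^ n)) := by
      rw [div_pow, div_pow, one_pow]
      field_simp
    rw [h6, mul_comm]
    gcongr
  obtain ⟨N, hN⟩ := eventually_atTop.1 hlim
  refine ⟨max N 1, fun n hn => ?_⟩
  have hn1 : 1 ≤ n := le_trans (le_max_right _ _) hn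
  have hlast := hN n (le_trans (le_max_left _ _) hn)
  have hsum := h.summable_li hb hb0 n
  have hsplit : li M b n = ∑ z ∈ E, M z * (1 - (W b z ^ n).re) +
      ∑' z : {z // z ∉ E}, M z * (1 - (W b z ^ n).re) := by
    rw [li, ← hsum.sum_add_tsum_subtype_compl E]
  have hE1 : ∑ z ∈ E, M z * (1 - (W b z ^ n).re) =
      m - R ^ n * ∑ z ∈ E, M z * ((W b z / R) ^ n).re := by
    rw [Finset.mul_sum, hm, ← Finset.sum_sub_distrib]
    refine Finset.sum_congr rfl fun z _ => ?_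
    have h3 : (W b z ^ n) = (R : ℂ) ^ n * (W b z / R) ^ n := by
      rw [div_pow]
      have : (R : ℂ) ^ n ≠ 0 := pow_ne_zero _ (by exact_mod_cast hR0.ne')
      field_simp
    have h4 : (W b z ^ n).re = R ^ n * ((W b z / R) ^ n).re := by
      rw [h3, ← Complex.ofReal_pow, Complex.re_ofReal_mul]
    rw [h4]; ring
  have hE2 : |∑' z : {z // z ∉ E}, M z * (1 - (W b z ^ n).re)| ≤ K * C * (n : ℝ) ^ 2 * R' ^ n := by
    have hs := h.summable_cnt.mul_left (K * (n : ℝ) ^ 2 * R' ^ n)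
    have h0 : ∀ z : {z // z ∉ E}, ‖M (z : ℂ) * (1 - (W b z ^ n).re)‖ ≤
        (K * (n : ℝ) ^ 2 * R' ^ n) * (M z / (1 + |(z : ℂ).im|) ^ 2) := by
      intro z
      by_cases hz : M (z : ℂ) = 0
      · simp [hz]
      · have h6 := hT z R' n hz hR'1 (hR' z hz z.2) hn1
        rw [norm_mul, Real.norm_eq_abs, Real.norm_eq_abs, abs_of_nonneg (h.nn z)]
        calc M z * |1 - (W b z ^ n).re| ≤
              M z * (K * (n : ℝ) ^ 2 * R' ^ n / (1 + |(z : ℂ).im|) ^ 2) :=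
              mul_le_mul_of_nonneg_left h6 (h.nn z)
          _ = _ := by ring
    have hs1 : Summable fun z : {z // z ∉ E} => M (z : ℂ) * (1 - (W b z ^ n).re) :=
      hsum.subtype _
    have hs2 : Summable fun z : {z // z ∉ E} =>
        (K * (n : ℝ) ^ 2 * R' ^ n) * (M (z : ℂ) / (1 + |(z : ℂ).im|) ^ 2) := hs.subtype _
    have hR'0 : 0 ≤ R' := by linarith
    have h7 : |∑' z : {z // z ∉ E}, M (z : ℂ) * (1 - (W b z ^ n).re)|
        ≤ ∑' z : {z // z ∉ E}, (K * (n : ℝ) ^ 2 * R' ^ n) * (M (z : ℂ) / (1 + |(z : ℂ).im|) ^ 2) := by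
      rw [← Real.norm_eq_abs]
      exact tsum_of_norm_bounded hs2.hasSum h0
    refine h7.trans ?_
    calc ∑' z : {z // z ∉ E}, (K * (n : ℝ) ^ 2 * R' ^ n) * (M (z : ℂ) / (1 + |(z : ℂ).im|) ^ 2)
        ≤ ∑' z : ℂ, (K * (n : ℝ) ^ 2 * R' ^ n) * (M z / (1 + |z.im|) ^ 2) := by
          refine hs.tsum_subtype_le _ _ fun z => ?_
          have := h.nn z
          positivity
      _ = (K * (n : ℝ) ^ 2 * R' ^ n) * ∑' z : ℂ, (M z / (1 + |z.im|) ^ 2) := tsum_mul_left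
      _ ≤ (K * (n : ℝ) ^ 2 * R' ^ n) * C := by
          refine mul_le_mul_of_nonneg_left ?_ (by positivity)
          exact h.summable_cnt.tsum_le_of_sum_le hCS
      _ = _ := by ring
  have e : li M b n + R ^ n * ∑ z ∈ E, M z * ((W b z / R) ^ n).re =
      m + ∑' z : {z // z ∉ E}, M z * (1 - (W b z ^ n).re) := by
    rw [hsplit, hE1]; ring
  rw [e]
  refine (abs_add_le _ _).trans ?_
  rw [abs_of_nonneg hm0]
  linarith

/-- **The sign on a Bohr set.**  If one zero lies off the critical line then, with `R` the maximum of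
the moduli, the Li coefficients are at most `- R ^ n / 4` for all large `n` of a Bohr set. -/
theorem Zd.bohr (h : Zd M d) {b : ℝ} (hb : 0 < b) (hb0 : M (-(b : ℂ)) = 0)
    (hoff : ∃ z, M z ≠ 0 ∧ z.re ≠ 0) :
    ∃ R : ℝ, 1 < R ∧ ∃ U : Finset ℂ, (∀ u ∈ U, ‖u‖ = 1) ∧ ∃ N : ℕ, ∀ n, N ≤ n →
      (∀ u ∈ U, ‖u ^ n - 1‖ < 1 / 2) → li M b n ≤ -(R ^ n / 4) := by
  classical
  obtain ⟨R, E, hR1, hEne, hE, hasym⟩ := h.asym hb hb0 hoff
  have hR0 : 0 < R := by linarith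
  obtain ⟨N, hN⟩ := hasym (1 / 4) (by norm_num)
  refine ⟨R, hR1, E.image (fun z => W b z / R), ?_, N, fun n hn hu => ?_⟩
  · intro u hu
    rw [Finset.mem_image] at hu
    obtain ⟨z, hz, rfl⟩ := hu
    rw [norm_div, (hE z hz).2, Complex.norm_real, Real.norm_eq_abs, abs_of_pos hR0, div_self hR0.ne']
  · have h1 := (abs_le.1 (hN n hn)).2
    have h2 : 1 / 2 ≤ ∑ z ∈ E, M z * ((W b z / R) ^ n).re := by
      have h3 : ∀ z ∈ E, M z * (1 / 2) ≤ M z * ((W b z / R) ^ n).re := by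
        intro z hz
        refine mul_le_mul_of_nonneg_left ?_ (h.nn z)
        have h4 := hu (W b z / R) (Finset.mem_image_of_mem _ hz)
        have h6 := Complex.abs_re_le_norm ((W b z / R) ^ n - 1)
        rw [sub_re, one_re, abs_le] at h6
        linarith [h6.1]
      obtain ⟨z₀, hz₀⟩ := hEne
      calc 1 / 2 ≤ M z₀ * (1 / 2) := by
            have := h.one z₀ (hE z₀ hz₀).1
            linarith
        _ ≤ ∑ z ∈ E, M z * (1 / 2) := Finset.single_le_sum (f := fun z => M z * (1 / 2))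
            (fun z _ => by have := h.nn z; positivity) hz₀
        _ ≤ _ := Finset.sum_le_sum h3
    have h5 : 0 < R ^ n := by positivity
    nlinarith

end Pool.Agent.N793.LI
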