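import Mathlib

/-!
# Bohr recurrence: returns of finitely many rotations

`Recurrent A`: for finitely many unit complex numbers `u`, the powers `u ^ n`, `n ∈ A`, are all near `1` at
the same time for arbitrarily large `n ∈ A`.
-/

set_option autoImplicit false

open Finset

namespace Pool.Agent.N793.LI

/-- `A` is a set of Bohr recurrence -/
def Recurrent (A : Set ℕ) : Prop := ∀ (U : Finset ℂ) (ε : ℝ) (N : ℕ), (∀ u ∈ U, ‖u‖ = 1) → 0 < ε →
  ∃ n ∈ A, N ≤ n ∧ ∀ u ∈ U, ‖u ^ n - 1‖ < ε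

/-- a finite colouring of the integers by the cells of the torus -/
lemma colour (U : Finset ℂ) (hU : ∀ u ∈ U, ‖u‖ = 1) {ε : ℝ} (hε : 0 < ε) :
    ∃ (k : ℕ) (c : ℕ → Fin k), ∀ m n, c m = c n → ∀ u ∈ U, ‖u ^ m - u ^ n‖ < ε := by
  classical
  let B : Set (U → ℂ) := Metric.closedBall 0 1
  have hB : TotallyBounded B := (isCompact_closedBall (0 : U → ℂ) 1).totallyBounded
  obtain ⟨t, ht, hcov⟩ := Metric.totallyBounded_iff.1 hB (ε / 2) (by linarith)
  let f : ℕ → (U → ℂ) := fun n u => (u : ℂ) ^ n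
  have hf : ∀ n, f n ∈ B := by
    intro n
    rw [mem_closedBall_zero_iff, pi_norm_le_iff_of_nonneg (by norm_num)]
    intro u
    simp [f, hU u u.2]
  have h1 : ∀ n, ∃ y ∈ t, dist (f n) y < ε / 2 := by
    intro n
    have := hcov (hf n)
    simpa using this
  choose g hg1 hg2 using h1
  have hfin : t.Finite := ht
  haveI : Fintype t := hfin.fintype
  let e := Fintype.equivFin t
  refine ⟨Fintype.card t, fun n => e ⟨g n, hg1 n⟩, fun m n hmn u hu => ?_⟩
  have h2 : g m = g n := by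
    have := e.injective hmn
    simpa using congrArg Subtype.val this
  have h3 : dist (f m) (f n) < ε := by
    calc dist (f m) (f n) ≤ dist (f m) (g m) + dist (f n) (g m) := dist_triangle_right _ _ _
      _ < ε / 2 + ε / 2 := by
          have a1 := hg2 m
          have a2 := hg2 n
          rw [← h2] at a2
          linarith
      _ = ε := by ring
  have h4 : dist (f m ⟨u, hu⟩) (f n ⟨u, hu⟩) ≤ dist (f m) (f n) := dist_le_pi_dist _ _ _
  rw [← dist_eq_norm]
  exact lt_of_le_of_lt h4 h3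

lemma sub_pow {u : ℂ} (hu : ‖u‖ = 1) {m n : ℕ} (h : m ≤ n) : ‖u ^ (n - m) - 1‖ = ‖u ^ n - u ^ m‖ := by
  have h1 : u ^ n - u ^ m = u ^ m * (u ^ (n - m) - 1) := by
    rw [mul_sub, ← pow_add, Nat.add_sub_cancel' h, mul_one]
  rw [h1, norm_mul, norm_pow, hu, one_pow, one_mul]

/-- Bohr sets have bounded gaps. -/
lemma syndetic (U : Finset ℂ) (hU : ∀ u ∈ U, ‖u‖ = 1) {ε : ℝ} (hε : 0 < ε) :
    ∃ L : ℕ, ∀ N : ℕ, ∃ n, N < n ∧ n ≤ N + L ∧ ∀ u ∈ U, ‖u ^ n - 1‖ < ε := by
  classical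
  obtain ⟨k, c, hc⟩ := colour U hU hε
  -- for each visited colour a representative
  have h1 : ∀ i : Fin k, ∃ m : ℕ, (∃ n, c n = i) → c m = i := by
    intro i
    by_cases h : ∃ n, c n = i
    · exact ⟨h.choose, fun _ => h.choose_spec⟩
    · exact ⟨0, fun h' => absurd h' h⟩
  choose r hr using h1
  obtain ⟨L, hL⟩ : ∃ L : ℕ, ∀ i, r i < L := by
    refine ⟨(∑ i, r i) + 1, fun i => ?_⟩
    have := Finset.single_le_sum (f := r) (fun _ _ => Nat.zero_le _) (Finset.mem_univ i)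
    omega
  refine ⟨L, fun N => ?_⟩
  have h2 := hr (c (N + L)) ⟨_, rfl⟩
  have h3 := hL (c (N + L))
  refine ⟨N + L - r (c (N + L)), by omega, by omega, fun u hu => ?_⟩
  rw [sub_pow (hU u hu) (by omega)]
  exact hc _ _ h2.symm u hu

/-- `K` integers have a difference in the Bohr set. -/
lemma differences (U : Finset ℂ) (hU : ∀ u ∈ U, ‖u‖ = 1) {ε : ℝ} (hε : 0 < ε) :
    ∃ K : ℕ, ∀ s : ℕ → ℕ, StrictMono s → ∃ i j, i < j ∧ j ≤ K ∧
      ∀ u ∈ U, ‖u ^ (s j - s i) - 1‖ < ε := by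
  classical
  obtain ⟨k, c, hc⟩ := colour U hU hε
  refine ⟨k, fun s hs => ?_⟩
  obtain ⟨x, y, hxy, hcc⟩ := Fintype.exists_ne_map_eq_of_card_lt
    (fun i : Fin (k + 1) => c (s i)) (by simp)
  wlog hlt : x < y generalizing x y
  · exact this y x hxy.symm hcc.symm (lt_of_le_of_ne (not_lt.1 hlt) hxy.symm)
  refine ⟨x, y, hlt, Nat.lt_succ_iff.1 y.2, fun u hu => ?_⟩
  rw [sub_pow (hU u hu) (hs.monotone (le_of_lt hlt))]
  exact hc _ _ hcc.symm u hu

/-- The set of the differences of any infinite set is a set of Bohr recurrence. -/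
lemma recurrent_diff {S : Set ℕ} (hS : S.Infinite) :
    Recurrent {n | ∃ s ∈ S, ∃ t ∈ S, t < s ∧ n = s - t} := by
  classical
  intro U ε N hU hε
  obtain ⟨K, hK⟩ := differences U hU hε
  -- a subsequence with large gaps
  have h1 : ∀ m : ℕ, ∃ s ∈ S, m < s := fun m => hS.exists_gt m
  choose g hg1 hg2 using h1
  let s : ℕ → ℕ := fun i => Nat.rec (g 0) (fun _ y => g (y + N)) i
  have hs1 : ∀ i, s i ∈ S := by
    intro i
    cases i with
    | zero => exact hg1 _
    | succ i => exact hg1 _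
  have hs2 : ∀ i, s i + N < s (i + 1) := fun i => hg2 _
  have hs3 : StrictMono s := strictMono_nat_of_lt_succ fun i => by have := hs2 i; omega
  obtain ⟨i, j, hij, hjK, h⟩ := hK s hs3
  refine ⟨s j - s i, ⟨s j, hs1 j, s i, hs1 i, hs3 hij, rfl⟩, ?_, h⟩
  have h4 : s (i + 1) ≤ s j := hs3.monotone hij
  have := hs2 i
  omega

/-- The multiples of `d` are a set of Bohr recurrence. -/
lemma recurrent_multiples {d : ℕ} (hd : 0 < d) : Recurrent {n | d ∣ n} := by
  have h := recurrent_diff (S := {n | d ∣ n}) (by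
    apply Set.infinite_of_injective_forall_mem (f := fun k : ℕ => d * k)
    · intro a b hab
      exact Nat.eq_of_mul_eq_mul_left hd hab
    · intro k
      exact Dvd.intro _ rfl)
  intro U ε N hU hε
  obtain ⟨n, ⟨s, hs, t, ht, -, rfl⟩, h2, h3⟩ := h U ε N hU hε
  exact ⟨s - t, Nat.dvd_sub hs ht, h2, h3⟩

end Pool.Agent.N793.LI
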