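import Mathlib
import Pool.Agent.N793.LI.Rec
import Pool.Agent.N793.LI.Core

/-!
# Both signs occur with bounded gaps
-/

set_option autoImplicit false

open Finset Filter Complex

namespace Pool.Agent.N793.LI

/-- an almost periodic sum with nonnegative coefficients and no constant term takes both signs with
bounded gaps -/
lemma both_signs {ι : Type*} (E : Finset ι) (hE : E.Nonempty) (m : ι → ℝ) (hm : ∀ i ∈ E, 1 ≤ m i)
    (u : ι → ℂ) (hu : ∀ i ∈ E, ‖u i‖ = 1) (hu1 : ∀ i ∈ E, u i ≠ 1) :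
    ∃ c : ℝ, 0 < c ∧ ∃ L : ℕ, ∀ N : ℕ,
      (∃ n, N < n ∧ n ≤ N + L ∧ ∑ i ∈ E, m i * (u i ^ n).re ≤ -c) ∧
      (∃ n, N < n ∧ n ≤ N + L ∧ c ≤ ∑ i ∈ E, m i * (u i ^ n).re) := by
  classical
  set f : ℕ → ℝ := fun n => ∑ i ∈ E, m i * (u i ^ n).re with hf
  set U : Finset ℂ := E.image u with hUdef
  have hU : ∀ v ∈ U, ‖v‖ = 1 := by
    intro v hv
    rw [hUdef, Finset.mem_image] at hv
    obtain ⟨i, hi, rfl⟩ := hv
    exact hu i hi
  set A : ℝ := ∑ i ∈ E, m i with hA
  have hA1 : 1 ≤ A := by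
    obtain ⟨i₀, hi₀⟩ := hE
    calc (1 : ℝ) ≤ m i₀ := hm i₀ hi₀
      _ ≤ A := Finset.single_le_sum (f := m) (fun i hi => by linarith [hm i hi]) hi₀
  -- shifts by elements of a Bohr set
  have hshift : ∀ (n₀ n : ℕ) (δ : ℝ), 0 ≤ δ → (∀ v ∈ U, ‖v ^ n - 1‖ ≤ δ) → |f (n₀ + n) - f n₀| ≤ A * δ := by
    intro n₀ n δ hδ hn
    simp only [hf]
    rw [← Finset.sum_sub_distrib, hA, Finset.sum_mul]
    refine (Finset.abs_sum_le_sum_abs _ _).trans (Finset.sum_le_sum fun i hi => ?_)
    have h1 : m i * (u i ^ (n₀ + n)).re - m i * (u i ^ n₀).re =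
        m i * (u i ^ n₀ * (u i ^ n - 1)).re := by
      rw [mul_sub, ← pow_add, mul_one, sub_re]; ring
    rw [h1, abs_mul, abs_of_nonneg (by linarith [hm i hi] : (0 : ℝ) ≤ m i)]
    refine mul_le_mul_of_nonneg_left ?_ (by linarith [hm i hi])
    refine (Complex.abs_re_le_norm _).trans ?_
    rw [norm_mul, norm_pow, hu i hi, one_pow, one_mul]
    exact hn _ (Finset.mem_image_of_mem _ hi)
  have hf0 : f 0 = A := by simp [hf, hA]
  -- the first Bohr set
  obtain ⟨L, hL⟩ := syndetic U hU (ε := 1 / 2) (by norm_num)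
  have hpos : ∀ n, (∀ v ∈ U, ‖v ^ n - 1‖ < 1 / 2) → 1 / 2 ≤ f n := by
    intro n hn
    have h1 := hshift 0 n (1 / 2) (by norm_num) (fun v hv => (hn v hv).le)
    rw [zero_add, hf0, abs_le] at h1
    linarith [h1.1]
  -- a negative value
  obtain ⟨n₀, hn₀⟩ : ∃ n₀, f n₀ < 0 := by
    by_contra hcon
    push Not at hcon
    -- partial sums are large
    have hlow : ∀ k : ℕ, (k : ℝ) / 2 ≤ ∑ n ∈ range (k * L + 1), f n := by
      intro k
      induction k with
      | zero =>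
        have := hcon 0
        simpa using this
      | succ k ih =>
        obtain ⟨n, hn1, hn2, hn3⟩ := hL (k * L)
        have h1 : ∑ j ∈ range (k * L + 1), f j + f n ≤ ∑ j ∈ range ((k + 1) * L + 1), f j := by
          have hsub : insert n (range (k * L + 1)) ⊆ range ((k + 1) * L + 1) := by
            intro j hj
            rw [Finset.mem_insert, Finset.mem_range] at hj
            rw [Finset.mem_range]
            have e : (k + 1) * L = k * L + L := by ring
            rw [e]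
            rcases hj with rfl | hj
            · omega
            · omega
          have h2 := Finset.sum_le_sum_of_subset_of_nonneg hsub (f := f) (fun j _ _ => hcon j)
          rw [Finset.sum_insert (by rw [Finset.mem_range]; omega)] at h2
          linarith
        have h2 := hpos n hn3
        push_cast
        linarith
    -- partial sums are bounded
    have hup : ∀ X : ℕ, ∑ n ∈ range X, f n ≤ ∑ i ∈ E, m i * (2 / ‖u i - 1‖) := by
      intro X
      simp only [hf]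
      rw [Finset.sum_comm]
      refine Finset.sum_le_sum fun i hi => ?_
      rw [← Finset.mul_sum]
      refine mul_le_mul_of_nonneg_left ?_ (by linarith [hm i hi])
      rw [← Complex.re_sum]
      refine (Complex.re_le_norm _).trans ?_
      rw [geom_sum_eq (hu1 i hi), norm_div]
      have h3 : 0 < ‖u i - 1‖ := norm_pos_iff.2 (sub_ne_zero.2 (hu1 i hi))
      gcongr
      refine (norm_sub_le _ _).trans ?_
      rw [norm_pow, hu i hi]
      norm_num
    obtain ⟨k, hk⟩ := exists_nat_gt (2 * ∑ i ∈ E, m i * (2 / ‖u i - 1‖))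
    have h1 := hlow k
    have h2 := hup (k * L + 1)
    linarith
  -- its translates
  set c : ℝ := min (-f n₀ / 2) (1 / 2) with hc
  have hc0 : 0 < c := lt_min (by linarith) (by norm_num)
  obtain ⟨L', hL'⟩ := syndetic U hU (ε := -f n₀ / 2 / A) (by apply div_pos (by linarith) (by linarith))
  refine ⟨c, hc0, n₀ + L' + L, fun N => ⟨?_, ?_⟩⟩
  · obtain ⟨n, hn1, hn2, hn3⟩ := hL' N
    refine ⟨n₀ + n, by omega, by omega, ?_⟩
    have h1 := hshift n₀ n (-f n₀ / 2 / A) (div_nonneg (by linarith) (by linarith))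
      (fun v hv => (hn3 v hv).le)
    rw [mul_div_cancel₀ _ (by linarith : A ≠ 0), abs_le] at h1
    have h2 : c ≤ -f n₀ / 2 := min_le_left _ _
    have h3 : f (n₀ + n) ≤ -c := by linarith [h1.2]
    exact h3
  · obtain ⟨n, hn1, hn2, hn3⟩ := hL N
    refine ⟨n, hn1, by omega, ?_⟩
    exact (min_le_right _ _).trans (hpos n hn3)

variable {M : ℂ → ℝ} {d : ℝ}

/-- **Both signs with bounded gaps**, if one zero is off the line. -/
theorem Zd.gaps (h : Zd M d) {b : ℝ} (hb : 0 < b) (hreal : ∀ x : ℝ, b ≤ x → M x = 0)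
    (hoff : ∃ z, M z ≠ 0 ∧ z.re ≠ 0) :
    ∃ R : ℝ, 1 < R ∧ ∃ c : ℝ, 0 < c ∧ ∃ L N₀ : ℕ, ∀ N : ℕ, N₀ ≤ N →
      (∃ n, N < n ∧ n ≤ N + L ∧ li M b n ≤ -(c * R ^ n)) ∧
      (∃ n, N < n ∧ n ≤ N + L ∧ c * R ^ n ≤ li M b n) := by
  have hreal' : ∀ x : ℝ, b ≤ x → M (-(x : ℂ)) = 0 := by
    intro x hx
    have h1 := h.refl (x : ℂ)
    rw [Complex.conj_ofReal] at h1
    rw [h1]
    exact hreal x hx
  have hb0 := hreal' b le_rfl
  obtain ⟨R, E, hR1, hEne, hE, hasym⟩ := h.asym hb hb0 hoff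
  have hR0 : 0 < R := by linarith
  obtain ⟨c, hc, L, hL⟩ := both_signs E hEne M (fun z hz => h.one z (hE z hz).1)
    (fun z => W b z / R) (fun z hz => by
      rw [norm_div, (hE z hz).2, Complex.norm_real, Real.norm_eq_abs, abs_of_pos hR0,
        div_self hR0.ne']) (fun z hz => by
      intro h1
      rw [div_eq_one_iff_eq (by exact_mod_cast hR0.ne')] at h1
      -- then z = - b (R + 1) / (R - 1)
      have hne := ne_base hb0 (hE z hz).1
      unfold W at h1
      rw [div_eq_iff hne] at h1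
      have hR10 : (R : ℂ) - 1 ≠ 0 := by
        have : R - 1 ≠ 0 := by linarith
        exact_mod_cast this
      have h2 : z = -((b * (R + 1) / (R - 1) : ℝ) : ℂ) := by
        push_cast
        rw [← neg_div, eq_div_iff hR10]
        linear_combination -h1
      have h3 : b ≤ b * (R + 1) / (R - 1) := by
        rw [le_div_iff₀ (by linarith)]
        nlinarith
      apply (hE z hz).1
      rw [h2]
      exact hreal' _ h3)
  obtain ⟨N₀, hN₀⟩ := hasym (c / 2) (by positivity)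
  refine ⟨R, hR1, c / 2, by positivity, L, N₀, fun N hN => ?_⟩
  obtain ⟨⟨n1, h1, h2, h3⟩, ⟨n2, h4, h5, h6⟩⟩ := hL N
  refine ⟨⟨n2, h4, h5, ?_⟩, ⟨n1, h1, h2, ?_⟩⟩
  · have h7 := (abs_le.1 (hN₀ n2 (by omega))).2
    have h8 : 0 < R ^ n2 := by positivity
    have h9 : R ^ n2 * c ≤ R ^ n2 * ∑ z ∈ E, M z * ((W b z / R) ^ n2).re := by gcongr
    linarith
  · have h7 := (abs_le.1 (hN₀ n1 (by omega))).1
    have h8 : 0 < R ^ n1 := by positivity
    have h9 : R ^ n1 * ∑ z ∈ E, M z * ((W b z / R) ^ n1).re ≤ R ^ n1 * (-c) := by gcongr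
    linarith

/-- **Unconditionally** the nonnegative Li coefficients have bounded gaps. -/
theorem Zd.nonneg_gaps (h : Zd M d) {b : ℝ} (hb : 0 < b) (hreal : ∀ x : ℝ, b ≤ x → M x = 0) :
    ∃ L : ℕ, ∀ N : ℕ, ∃ n, N < n ∧ n ≤ N + L ∧ 0 ≤ li M b n := by
  have hb0 : M (-(b : ℂ)) = 0 := by
    have h1 := h.refl (b : ℂ)
    rw [Complex.conj_ofReal] at h1
    rw [h1]
    exact hreal b le_rfl
  by_cases hoff : ∃ z, M z ≠ 0 ∧ z.re ≠ 0
  · obtain ⟨R, hR, c, hc, L, N₀, hL⟩ := h.gaps hb hreal hoff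
    refine ⟨N₀ + L, fun N => ?_⟩
    obtain ⟨n, h1, h2, h3⟩ := (hL (max N N₀) (le_max_right _ _)).2
    refine ⟨n, lt_of_le_of_lt (le_max_left _ _) h1, ?_, ?_⟩
    · have : max N N₀ ≤ N + N₀ := max_le (by omega) (by omega)
      omega
    · have : 0 < R := by linarith
      have h4 : 0 ≤ c * R ^ n := by positivity
      linarith
  · push Not at hoff
    exact ⟨1, fun N => ⟨N + 1, by omega, le_rfl, h.li_nonneg hb0 hoff _⟩⟩

end Pool.Agent.N793.LI
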