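import Pool.Agent.N793.LI.Rec

/-!
# Proportions of integers: a function which changes its sign under a translation
-/

set_option autoImplicit false

open Finset Filter Topology

namespace Pool.Agent.N793.LI

open Classical in
/-- the number of the elements of `A` below `N` -/
noncomputable def numb (A : Set ℕ) (N : ℕ) : ℕ := ((range N).filter (· ∈ A)).card

lemma numb_le (A : Set ℕ) (N : ℕ) : numb A N ≤ N := by
  classical
  unfold numb
  exact (card_filter_le _ _).trans (by rw [card_range])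

lemma numb_mono {A B : Set ℕ} (h : A ⊆ B) (N : ℕ) : numb A N ≤ numb B N := by
  classical
  unfold numb
  refine card_le_card fun m hm => ?_
  rw [mem_filter] at hm ⊢
  exact ⟨hm.1, h hm.2⟩

lemma numb_union (A B : Set ℕ) (N : ℕ) : numb (A ∪ B) N ≤ numb A N + numb B N := by
  classical
  unfold numb
  refine le_trans (card_le_card ?_) (card_union_le _ _)
  intro m hm
  simp only [mem_filter] at hm
  simp only [mem_union, mem_filter]
  rcases hm.2 with h | h
  · exact Or.inl ⟨hm.1, h⟩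
  · exact Or.inr ⟨hm.1, h⟩

lemma numb_compl (A : Set ℕ) (N : ℕ) : numb A N + numb Aᶜ N = N := by
  classical
  unfold numb
  have h := Finset.card_filter_add_card_filter_not (s := range N) (fun m => m ∈ A)
  rw [card_range] at h
  simpa using h

lemma numb_inter (A B : Set ℕ) (hAB : ∀ m, m ∈ A ∨ m ∈ B) (N : ℕ) :
    numb (A ∩ B) N + N = numb A N + numb B N := by
  classical
  have h := Finset.card_union_add_card_inter ((range N).filter (· ∈ A)) ((range N).filter (· ∈ B))
  have e1 : (range N).filter (· ∈ A) ∪ (range N).filter (· ∈ B) = range N := by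
    ext m
    simp only [mem_union, mem_filter]
    constructor
    · rintro (h | h) <;> exact h.1
    · intro h
      rcases hAB m with h1 | h1
      · exact Or.inl ⟨h, h1⟩
      · exact Or.inr ⟨h, h1⟩
  have e2 : ((range N).filter (· ∈ A) ∩ (range N).filter (· ∈ B)).card = numb (A ∩ B) N := by
    unfold numb
    congr 1
    ext m
    simp only [mem_inter, mem_filter, Set.mem_inter_iff]
    tauto
  have e3 : ((range N).filter (· ∈ A)).card = numb A N := by
    unfold numb
    congr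
  have e4 : ((range N).filter (· ∈ B)).card = numb B N := by
    unfold numb
    congr
  rw [e1, e2, e3, e4, card_range] at h
  omega

lemma numb_add (A : Set ℕ) (N q : ℕ) : numb A N ≤ numb A (N + q) ∧ numb A (N + q) ≤ numb A N + q := by
  classical
  unfold numb
  constructor
  · refine card_le_card fun m hm => ?_
    rw [mem_filter, mem_range] at hm ⊢
    exact ⟨by omega, hm.2⟩
  · have h : (range (N + q)).filter (· ∈ A) ⊆ (range N).filter (· ∈ A) ∪ Ico N (N + q) := by
      intro m hm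
      rw [mem_filter, mem_range] at hm
      rw [mem_union, mem_filter, mem_range, mem_Ico]
      by_cases h1 : m < N
      · exact Or.inl ⟨h1, hm.2⟩
      · exact Or.inr ⟨by omega, hm.1⟩
    refine (card_le_card h).trans ((card_union_le _ _).trans ?_)
    rw [Nat.card_Ico]
    omega

lemma numb_shift {A B : Set ℕ} {q N₀ : ℕ} (h : ∀ m, N₀ ≤ m → m ∈ A → m + q ∈ B) (N : ℕ) :
    numb A N ≤ N₀ + numb B (N + q) := by
  classical
  unfold numb
  have h1 : (range N).filter (· ∈ A) ⊆ range N₀ ∪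
      ((range N).filter (fun m => N₀ ≤ m ∧ m ∈ A)) := by
    intro m hm
    rw [mem_filter, mem_range] at hm
    rw [mem_union, mem_filter, mem_range, mem_range]
    by_cases h2 : m < N₀
    · exact Or.inl h2
    · exact Or.inr ⟨hm.1, by omega, hm.2⟩
  refine (card_le_card h1).trans ((card_union_le _ _).trans ?_)
  rw [card_range]
  refine Nat.add_le_add_left ?_ _
  refine Finset.card_le_card_of_injOn (fun m => m + q) ?_ ?_
  · intro m hm
    rw [mem_coe, mem_filter, mem_range] at hm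
    rw [mem_coe, mem_filter, mem_range]
    exact ⟨by show m + q < N + q; omega, h m hm.2.1 hm.2.2⟩
  · intro a _ b _ hab
    exact Nat.add_right_cancel hab

/-- a set whose elements are far apart -/
lemma sep_count {A : Set ℕ} {K : ℕ} (hK : 0 < K) (hA : ∀ m ∈ A, ∀ k, 1 ≤ k → k < K → m + k ∉ A)
    (N : ℕ) : numb A N ≤ N / K + 1 := by
  classical
  unfold numb
  have h : ((range N).filter (· ∈ A)).card ≤ (range (N / K + 1)).card := by
    refine Finset.card_le_card_of_injOn (fun m => m / K) ?_ ?_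
    · intro m hm
      rw [mem_coe, mem_filter, mem_range] at hm
      rw [mem_coe, mem_range]
      exact Nat.lt_succ_of_le (Nat.div_le_div_right hm.1.le)
    · intro a ha b hb hab
      rw [mem_coe, mem_filter] at ha hb
      by_contra hne
      wlog hlt : a < b generalizing a b
      · exact this hb ha hab.symm (Ne.symm hne) (lt_of_le_of_ne (not_lt.1 hlt) (Ne.symm hne))
      have h1 := Nat.div_add_mod a K
      have h2 := Nat.div_add_mod b K
      have h3 := Nat.mod_lt a hK
      have h4 := Nat.mod_lt b hK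
      have h5 : a / K = b / K := hab
      rw [h5] at h1
      have h6 : b - a < K := by omega
      refine hA a ha.2 (b - a) (by omega) h6 ?_
      rw [Nat.add_sub_cancel' hlt.le]
      exact hb.2
  rwa [card_range] at h

/-- **Sign changes and density.**  `g` changes its sign, approximately, under some translation, it is
rarely small, and `x` is asymptotic to `g`: then `x ≥ 0` holds with density one half. -/
theorem half_of {g x : ℕ → ℝ} (hflip : ∀ ε : ℝ, 0 < ε → ∃ q : ℕ, ∀ m, |g (m + q) + g m| ≤ ε)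
    (hthin : ∀ η : ℝ, 0 < η → ∃ ε : ℝ, 0 < ε ∧ ∃ N₀ : ℕ, ∀ N, N₀ ≤ N →
      (numb {m | |g m| ≤ ε} N : ℝ) ≤ η * N)
    (hx : ∀ ε : ℝ, 0 < ε → ∃ N₀ : ℕ, ∀ m, N₀ ≤ m → |x m - g m| ≤ ε) :
    Tendsto (fun N : ℕ => (numb {m | 0 ≤ x m} N : ℝ) / N) atTop (𝓝 (1 / 2)) := by
  rw [Metric.tendsto_atTop]
  intro δ hδ
  obtain ⟨ε, hε, N₁, hN₁⟩ := hthin (min δ 1) (lt_min hδ one_pos)
  obtain ⟨q, hq⟩ := hflip (ε / 3) (by positivity)
  obtain ⟨N₀, hN₀⟩ := hx (ε / 3) (by positivity)
  set A : Set ℕ := {m | 0 ≤ x m} with hA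
  set T : Set ℕ := {m | |g m| ≤ ε} with hT
  -- the two inequalities
  have h1 : ∀ N, numb A N ≤ N₀ + numb (Aᶜ ∪ T) (N + q) := by
    refine numb_shift fun m hm hmA => ?_
    by_cases hT' : m + q ∈ T
    · exact Or.inr hT'
    · left
      have a1 := abs_le.1 (hN₀ m hm)
      have a2 := abs_le.1 (hq m)
      have a3 := abs_le.1 (hN₀ (m + q) (by omega))
      have a4 : ε < |g (m + q)| := not_le.1 hT'
      have a5 : 0 ≤ x m := hmA
      show ¬ (0 ≤ x (m + q))
      rcases lt_abs.1 a4 with h | h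
      · exfalso; linarith [a1.1, a1.2, a2.1, a2.2]
      · rw [not_le]; linarith [a3.1, a3.2]
  have h2 : ∀ N, numb Aᶜ N ≤ N₀ + numb (A ∪ T) (N + q) := by
    refine numb_shift fun m hm hmA => ?_
    by_cases hT' : m + q ∈ T
    · exact Or.inr hT'
    · left
      have a1 := abs_le.1 (hN₀ m hm)
      have a2 := abs_le.1 (hq m)
      have a3 := abs_le.1 (hN₀ (m + q) (by omega))
      have a4 : ε < |g (m + q)| := not_le.1 hT'
      have a5 : x m < 0 := not_le.1 hmA
      show 0 ≤ x (m + q)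
      rcases lt_abs.1 a4 with h | h
      · linarith [a3.1, a3.2]
      · exfalso; linarith [a1.1, a1.2, a2.1, a2.2]
  obtain ⟨N₂, hN₂⟩ := exists_nat_gt ((N₀ + 3 * q : ℝ) / δ)
  refine ⟨max N₁ (max N₂ 1), fun N hN => ?_⟩
  have hN1 : N₁ ≤ N := (le_max_left _ _).trans hN
  have hN2 : N₂ ≤ N := (le_max_left _ _).trans ((le_max_right _ _).trans hN)
  have hN3 : 1 ≤ N := (le_max_right _ _).trans ((le_max_right _ _).trans hN)
  have b1 := h1 N
  have b2 := h2 N
  have b3 := numb_union Aᶜ T (N + q)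
  have b4 := numb_union A T (N + q)
  have b5 := numb_compl A N
  have b6 := numb_compl A (N + q)
  have b7 := numb_add A N q
  have b8 := hN₁ (N + q) (by omega)
  have b9 := min_le_left δ 1
  have b10 := min_le_right δ 1
  have hNR : (0 : ℝ) < N := by exact_mod_cast hN3
  have c1 : (2 * numb A N : ℝ) ≤ N + N₀ + q + numb T (N + q) := by
    have : 2 * numb A N ≤ N + N₀ + q + numb T (N + q) := by omega
    exact_mod_cast this
  have c2 : (N : ℝ) ≤ 2 * numb A N + N₀ + q + numb T (N + q) := by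
    have : N ≤ 2 * numb A N + N₀ + q + numb T (N + q) := by omega
    exact_mod_cast this
  have c3 : (numb T (N + q) : ℝ) ≤ δ * N + q := by
    refine b8.trans ?_
    push_cast
    have hq0 : (0 : ℝ) ≤ q := Nat.cast_nonneg q
    nlinarith
  have c4 : (N₀ + 3 * q : ℝ) < δ * N := by
    rw [div_lt_iff₀ hδ] at hN₂
    have : (N₂ : ℝ) ≤ N := by exact_mod_cast hN2
    nlinarith
  have hq0 : (0 : ℝ) ≤ q := Nat.cast_nonneg q
  rw [Real.dist_eq, abs_lt]
  constructor
  · have : 1 / 2 - δ < (numb A N : ℝ) / N := by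
      rw [lt_div_iff₀ hNR]
      linarith
    linarith
  · have : (numb A N : ℝ) / N < 1 / 2 + δ := by
      rw [div_lt_iff₀ hNR]
      linarith
    linarith

/-- powers of a number on the circle which is not a root of unity come near to `-1` -/
lemma flip {v : ℂ} (hv : ‖v‖ = 1) (hroot : ∀ k : ℕ, 1 ≤ k → v ^ k ≠ 1) {η : ℝ} (hη : 0 < η) :
    ∃ q : ℕ, ‖v ^ q + 1‖ ≤ η := by
  obtain ⟨L, hL⟩ := syndetic {v} (by simpa using hv) (ε := η / 2) (by positivity)
  obtain ⟨p, hp, -, hpv⟩ := hL 0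
  have h1 := hpv v (by simp)
  set y := v ^ p with hy
  have hy1 : y ≠ 1 := hroot p hp
  have hyn : ‖y‖ = 1 := by rw [hy, norm_pow, hv, one_pow]
  set φ := y.arg with hφ
  have hyφ : y = Complex.exp (Complex.I * φ) := by
    have h := Complex.norm_mul_exp_arg_mul_I y
    rw [hyn, Complex.ofReal_one, one_mul] at h
    rw [mul_comm, hφ, h]
  have hφ0 : φ ≠ 0 := by
    intro h0
    apply hy1
    rw [hyφ, h0]
    simp
  have hφπ : |φ| ≤ Real.pi := Complex.abs_arg_le_pi y
  -- the modulus of `φ`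
  have h2 : |φ| ≤ η := by
    have h3 : ‖y - 1‖ = ‖2 * Real.sin (φ / 2)‖ := by
      rw [hyφ, Complex.norm_exp_I_mul_ofReal_sub_one]
    have h4 : 2 / Real.pi * |φ / 2| ≤ |Real.sin (φ / 2)| := by
      apply Real.mul_abs_le_abs_sin
      rw [abs_div, abs_two]
      linarith
    rw [h3, Real.norm_eq_abs, abs_mul, abs_two] at h1
    rw [abs_div, abs_two] at h4
    have h5 : 2 / Real.pi * (|φ| / 2) = |φ| / Real.pi := by
      field_simp
    rw [h5, div_le_iff₀ Real.pi_pos] at h4
    have h6 := Real.pi_le_four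
    have h7 := abs_nonneg (Real.sin (φ / 2))
    nlinarith
  have hφp : 0 < |φ| := abs_pos.2 hφ0
  set k := ⌊Real.pi / |φ|⌋₊ with hk
  have h3 : (k : ℝ) * |φ| ≤ Real.pi := by
    have := Nat.floor_le (div_nonneg Real.pi_pos.le hφp.le)
    rw [le_div_iff₀ hφp] at this
    exact this
  have h4 : Real.pi < (k + 1) * |φ| := by
    have := Nat.lt_floor_add_one (Real.pi / |φ|)
    rw [div_lt_iff₀ hφp] at this
    exact this
  refine ⟨p * k, ?_⟩
  rw [pow_mul, ← hy]
  -- reduce to positive angle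
  have key : ∀ ψ : ℝ, (k : ℝ) * ψ ≤ Real.pi → Real.pi < (k + 1) * ψ → ψ ≤ η →
      ‖Complex.exp (Complex.I * ψ) ^ k + 1‖ ≤ η := by
    intro ψ h5 h6 h7
    have e : Complex.exp (Complex.I * ψ) ^ k + 1 =
        -(Complex.exp (Complex.I * ((k * ψ - Real.pi : ℝ) : ℂ)) - 1) := by
      rw [← Complex.exp_nat_mul]
      have : Complex.I * ((k * ψ - Real.pi : ℝ) : ℂ) =
          (k : ℂ) * (Complex.I * ψ) - Real.pi * Complex.I := by
        push_cast; ring
      rw [this, Complex.exp_sub, Complex.exp_pi_mul_I]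
      ring
    rw [e, norm_neg]
    refine (Real.norm_exp_I_mul_ofReal_sub_one_le).trans ?_
    rw [Real.norm_eq_abs, abs_le]
    constructor <;> linarith
  rcases lt_or_gt_of_ne hφ0 with hneg | hpos
  · have h5 := key (-φ) (by rw [← abs_of_neg hneg]; exact h3) (by rw [← abs_of_neg hneg]; exact h4)
      (by rw [← abs_of_neg hneg]; exact h2)
    have e : ‖Complex.exp (Complex.I * ((-φ : ℝ) : ℂ)) ^ k + 1‖ = ‖y ^ k + 1‖ := by
      rw [← Complex.norm_conj (y ^ k + 1), map_add, map_pow, map_one, hyφ, ← Complex.exp_conj, map_mul,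
        Complex.conj_I, Complex.conj_ofReal]
      congr 4
      push_cast
      ring
    rwa [e] at h5
  · have h5 := key φ (by rw [← abs_of_pos hpos]; exact h3) (by rw [← abs_of_pos hpos]; exact h4)
      (by rw [← abs_of_pos hpos]; exact h2)
    rwa [← hyφ] at h5

/-- for a number on the circle which is not a root of unity the real parts of the powers are rarely
small -/
lemma thin {v c : ℂ} (hv : ‖v‖ = 1) (hc : ‖c‖ = 1) (hroot : ∀ k : ℕ, 1 ≤ k → v ^ k ≠ 1)
    {η : ℝ} (hη : 0 < η) :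
    ∃ ε : ℝ, 0 < ε ∧ ∃ N₀ : ℕ, ∀ N, N₀ ≤ N → (numb {m | |(v ^ m * c).re| ≤ ε} N : ℝ) ≤ η * N := by
  obtain ⟨K, hK⟩ := exists_nat_gt (2 / η)
  have hK0 : 0 < K := by
    have : (0 : ℝ) < K := lt_trans (by positivity) hK
    exact_mod_cast this
  obtain ⟨κ, hκ, hκ2⟩ : ∃ κ : ℝ, 0 < κ ∧ ∀ k, 1 ≤ k → k < K → κ < ‖v ^ (2 * k) - 1‖ := by
    have h1 : ∀ k : ℕ, ∃ κ : ℝ, 0 < κ ∧ (1 ≤ k → κ < ‖v ^ (2 * k) - 1‖) := by
      intro k
      by_cases hk : 1 ≤ k
      · have : 0 < ‖v ^ (2 * k) - 1‖ := norm_pos_iff.2 (sub_ne_zero.2 (hroot _ (by omega)))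
        exact ⟨‖v ^ (2 * k) - 1‖ / 2, by positivity, fun _ => by linarith⟩
      · exact ⟨1, one_pos, fun h => absurd h hk⟩
    choose f hf1 hf2 using h1
    have hne : (range K).Nonempty := by simpa using hK0.ne'
    refine ⟨(range K).inf' hne f, ?_, fun k hk1 hk2 => ?_⟩
    · rw [Finset.lt_inf'_iff]
      exact fun k _ => hf1 k
    · exact lt_of_le_of_lt (Finset.inf'_le _ (by simpa using hk2)) (hf2 k hk1)
  refine ⟨κ / 4, by positivity, ⌈2 / η⌉₊, fun N hN => ?_⟩
  have h1 := sep_count (A := {m | |(v ^ m * c).re| ≤ κ / 4}) (K := K) hK0 (fun m hm k hk1 hk2 hmk => by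
    have e : ∀ y : ℂ, ‖y‖ = 1 → ‖y ^ 2 + 1‖ = 2 * |y.re| := by
      intro y hy
      have h2 : y ^ 2 + 1 = y * ((2 * y.re : ℝ) : ℂ) := by
        have h3 : y * (starRingEnd ℂ) y = 1 := by
          rw [Complex.mul_conj, Complex.normSq_eq_norm_sq, hy]
          norm_num
        rw [← Complex.add_conj, mul_add, h3]
        ring
      rw [h2, norm_mul, hy, one_mul, Complex.norm_real, Real.norm_eq_abs, abs_mul, abs_two]
    have hy1 : ‖v ^ m * c‖ = 1 := by rw [norm_mul, norm_pow, hv, hc, one_pow, one_mul]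
    have hy2 : ‖v ^ (m + k) * c‖ = 1 := by rw [norm_mul, norm_pow, hv, hc, one_pow, one_mul]
    have h3 := e _ hy1
    have h4 := e _ hy2
    have h5 : |(v ^ m * c).re| ≤ κ / 4 := hm
    have h6 : |(v ^ (m + k) * c).re| ≤ κ / 4 := hmk
    have h7 : (v ^ (m + k) * c) ^ 2 + 1 - ((v ^ m * c) ^ 2 + 1) = (v ^ m * c) ^ 2 * (v ^ (2 * k) - 1) := by
      ring
    have h8 : ‖v ^ (2 * k) - 1‖ ≤ κ := by
      have h9 : ‖(v ^ m * c) ^ 2 * (v ^ (2 * k) - 1)‖ = ‖v ^ (2 * k) - 1‖ := by
        rw [norm_mul, norm_pow, hy1, one_pow, one_mul]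
      rw [← h9, ← h7]
      refine (norm_sub_le _ _).trans ?_
      rw [h3, h4]
      linarith
    exact absurd h8 (not_le.2 (hκ2 k hk1 hk2))) N
  have h2 : (numb {m | |(v ^ m * c).re| ≤ κ / 4} N : ℝ) ≤ N / K + 1 := by
    have h3 : (numb {m | |(v ^ m * c).re| ≤ κ / 4} N : ℝ) ≤ ((N / K + 1 : ℕ) : ℝ) := by exact_mod_cast h1
    refine h3.trans ?_
    push_cast
    have := Nat.cast_div_le (α := ℝ) (m := N) (n := K)
    linarith
  refine h2.trans ?_
  have hKR : (0 : ℝ) < K := by exact_mod_cast hK0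
  have h3 : (N : ℝ) / K ≤ η / 2 * N := by
    rw [div_le_iff₀ hKR]
    rw [div_lt_iff₀ hη] at hK
    have : (0 : ℝ) ≤ N := Nat.cast_nonneg N
    nlinarith
  have h4 : 1 ≤ η / 2 * N := by
    have h5 : 2 / η ≤ N := (Nat.le_ceil _).trans (by exact_mod_cast hN)
    rw [div_le_iff₀ hη] at h5
    linarith
  linarith

end Pool.Agent.N793.LI
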