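import Mathlib
import Pool.Agent.N793.LI.Core

/-!
# The zeros of an entire function of order at most `3/2` with a functional equation
-/

set_option autoImplicit false

open Complex Filter Topology Finset
open scoped ComplexConjugate

namespace Pool.Agent.N793.LI

/-- Jensen's inequality for finite sets of zeros (as `Pool.Agent.W125.SD.jcount0`) -/
theorem jcount0 {f : ℂ → ℂ} (hf : Differentiable ℂ f) {c : ℂ} {r R M : ℝ} (hr : 0 < r) (hrR : r < R)
    (hM1 : 1 ≤ M) (hc : f c ≠ 0) (hM : ∀ z, ‖z - c‖ ≤ R → ‖f z‖ ≤ M) (S : Finset ℂ)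
    (hS : ∀ s ∈ S, ‖s - c‖ ≤ r) :
    ∑ s ∈ S, (analyticOrderNatAt f s : ℝ) ≤ Real.log (M / ‖f c‖) / Real.log (R / r) := by
  classical
  have hR : 0 < R := hr.trans hrR
  have habs : |R| = R := abs_of_pos hR
  have habr : |r| = r := abs_of_pos hr
  have han : ∀ ρ : ℝ, AnalyticOnNhd ℂ f (Metric.closedBall c ρ) := fun ρ z _ => hf.analyticAt z
  have h1 := AnalyticOnNhd.sum_divisor_le (c := c) (r := r) (R := R) (M := M) (f := f)
    (by rw [habr]; exact hr) (by rw [habr, habs]; exact hrR) hM1 (han _) hc (by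
      intro z hz
      rw [habs, mem_sphere_iff_norm] at hz
      exact hM z hz.le)
  rw [habr] at h1
  refine le_trans ?_ h1
  have hdiv : ∀ u ∈ Metric.closedBall c r, MeromorphicOn.divisor f (Metric.closedBall c r) u =
      (analyticOrderNatAt f u : ℤ) := by
    intro u hu
    rw [MeromorphicOn.AnalyticOnNhd.divisor_apply (han r) hu]
    unfold analyticOrderNatAt
    cases h : analyticOrderAt f u with
    | top => simp
    | coe n => simp
  have hfin : (MeromorphicOn.divisor f (Metric.closedBall c r)).support.Finite :=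
    (MeromorphicOn.divisor f (Metric.closedBall c r)).finiteSupport (isCompact_closedBall c r)
  rw [finsum_eq_sum_of_support_subset (s := S ∪ hfin.toFinset)]
  · push_cast
    have h2 : ∑ s ∈ S, (analyticOrderNatAt f s : ℝ) =
        ∑ s ∈ S, ((MeromorphicOn.divisor f (Metric.closedBall c r) s : ℤ) : ℝ) := by
      refine Finset.sum_congr rfl fun s hs => ?_
      rw [hdiv s (by rw [mem_closedBall_iff_norm]; exact hS s hs)]
      push_cast
      rfl
    rw [h2]
    refine Finset.sum_le_sum_of_subset_of_nonneg Finset.subset_union_left ?_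
    intro u _ _
    by_cases hu : u ∈ Metric.closedBall c r
    · rw [hdiv u hu]
      exact_mod_cast Nat.zero_le _
    · rw [Function.locallyFinsuppWithin.apply_eq_zero_of_notMem _ hu]
      simp
  · intro u hu
    rw [Finset.coe_union, Set.Finite.coe_toFinset]
    exact Or.inr hu

/-! ### reflection in the imaginary axis -/

/-- reflection of a function in the imaginary axis -/
noncomputable def refl (f : ℂ → ℂ) (s : ℂ) : ℂ := conj (f (-conj s))

lemma hasDerivAt_refl {f : ℂ → ℂ} {f' s : ℂ} (h : HasDerivAt f f' (-conj s)) :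
    HasDerivAt (refl f) (-conj f') s := by
  have h1 : HasDerivAt (fun z => f (-z)) (-f') (conj s) := by
    have := HasDerivAt.comp (conj s) h (hasDerivAt_neg (conj s))
    simpa [Function.comp_def] using this
  have h2 := h1.conj_conj
  rw [Complex.conj_conj, map_neg] at h2
  exact h2

lemma continuous_nc : Continuous (fun s : ℂ => -conj s) := by fun_prop

lemma analyticAt_refl {f : ℂ → ℂ} {s : ℂ} (h : AnalyticAt ℂ f (-conj s)) :
    AnalyticAt ℂ (refl f) s := by
  rw [analyticAt_iff_eventually_differentiableAt] at h ⊢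
  have h2 := (continuous_nc.tendsto s).eventually h
  filter_upwards [h2] with z hz
  exact (hasDerivAt_refl hz.hasDerivAt).differentiableAt

lemma order_refl {f : ℂ → ℂ} {s : ℂ} (h : AnalyticAt ℂ f (-conj s)) :
    analyticOrderAt (refl f) s = analyticOrderAt f (-conj s) := by
  rcases eq_or_ne (analyticOrderAt f (-conj s)) ⊤ with h0 | h0
  · rw [h0, analyticOrderAt_eq_top]
    rw [analyticOrderAt_eq_top] at h0
    have h2 := (continuous_nc.tendsto s).eventually h0
    filter_upwards [h2] with z hz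
    simp [refl, hz]
  · obtain ⟨n, hn⟩ := ENat.ne_top_iff_exists.mp h0
    rw [← hn]
    obtain ⟨g, hg, hg0, hfg⟩ := (h.analyticOrderAt_eq_natCast).mp hn.symm
    rw [(analyticAt_refl h).analyticOrderAt_eq_natCast]
    refine ⟨fun z => (-1) ^ n * refl g z, analyticAt_const.mul (analyticAt_refl hg), ?_, ?_⟩
    · simp [refl, hg0]
    · have h2 := (continuous_nc.tendsto s).eventually hfg
      filter_upwards [h2] with z hz
      simp only [refl, hz, smul_eq_mul, map_mul, map_pow, map_sub, map_neg, Complex.conj_conj]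
      rw [← mul_assoc, ← mul_pow]
      congr 2
      ring

/-- entire functions of order at most `3/2` with zeros in a strip and a functional equation -/
structure Sf (F : ℂ → ℂ) (d : ℝ) : Prop where
  diff : Differentiable ℂ F
  ne : ∃ z, F z ≠ 0
  slow : ∃ K : ℝ, ∀ z : ℂ, ‖F z‖ ≤ Real.exp (K * (1 + ‖z‖) ^ (3 / 2 : ℝ))
  strip : ∀ z : ℂ, F z = 0 → |z.re| ≤ d
  fe : ∃ ε : ℂ, ε ≠ 0 ∧ ∀ z : ℂ, F z = ε * conj (F (-conj z))

variable {F : ℂ → ℂ} {d : ℝ}

lemma Sf.top (h : Sf F d) (z : ℂ) : analyticOrderAt F z ≠ ⊤ := by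
  intro h0
  rw [analyticOrderAt_eq_top] at h0
  have h3 : AnalyticOnNhd ℂ F Set.univ := fun z _ => h.diff.analyticAt z
  have h4 := h3.eqOn_zero_of_preconnected_of_eventuallyEq_zero isPreconnected_univ
    (Set.mem_univ z) h0
  obtain ⟨z0, hz0⟩ := h.ne
  exact hz0 (h4 (Set.mem_univ z0))

lemma Sf.ord_ne (h : Sf F d) {z : ℂ} : analyticOrderNatAt F z ≠ 0 ↔ F z = 0 := by
  have h1 := (h.diff.analyticAt z).analyticOrderAt_eq_zero
  have h2 := h.top z
  constructor
  · intro h3
    by_contra h4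
    rw [← ne_eq] at h4
    apply h3
    unfold analyticOrderNatAt
    rw [h1.2 h4]
    rfl
  · intro h3 h4
    have h5 : analyticOrderAt F z = 0 := by
      unfold analyticOrderNatAt at h4
      rcases (ENat.toNat_eq_zero.1 h4) with h6 | h6
      · exact h6
      · exact absurd h6 h2
    exact (h1.1 h5) h3

lemma Sf.ord_refl (h : Sf F d) (z : ℂ) :
    analyticOrderNatAt F (-conj z) = analyticOrderNatAt F z := by
  obtain ⟨ε, hε, hfe⟩ := h.fe
  have e1 : F = fun z => ε * refl F z := by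
    funext z
    exact hfe z
  have h1 : analyticOrderAt F z = analyticOrderAt (refl F) z := by
    have h2 : AnalyticAt ℂ (fun _ : ℂ => ε) z := analyticAt_const
    have h3 := analyticOrderAt_mul h2 (analyticAt_refl (h.diff.analyticAt (-conj z)))
    rw [h2.analyticOrderAt_eq_zero.2 hε, zero_add] at h3
    have e2 : (fun _ : ℂ => ε) * refl F = F := by
      funext w
      exact (hfe w).symm
    rw [e2] at h3
    exact h3
  unfold analyticOrderNatAt
  rw [h1, order_refl (h.diff.analyticAt (-conj z))]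

/-- the number of zeros in a disc -/
lemma Sf.count (h : Sf F d) : ∃ C : ℝ, 0 ≤ C ∧ ∀ (R : ℝ) (S : Finset ℂ), 1 ≤ R →
    (∀ z ∈ S, ‖z‖ ≤ R) → ∑ z ∈ S, (analyticOrderNatAt F z : ℝ) ≤ C * R ^ (3 / 2 : ℝ) := by
  obtain ⟨K, hK⟩ := h.slow
  obtain ⟨c, hc⟩ := h.ne
  set K' : ℝ := max K 0 with hK'
  have hK'0 : 0 ≤ K' := le_max_right _ _
  have hcn : 0 < ‖F c‖ := norm_pos_iff.2 hc
  have hl2 : 0 < Real.log 2 := Real.log_pos one_lt_two
  refine ⟨(K' * (3 + 3 * ‖c‖) ^ (3 / 2 : ℝ) + |Real.log ‖F c‖|) / Real.log 2, by positivity,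
    fun R S hR hS => ?_⟩
  have hR0 : 0 < R := by linarith
  set r : ℝ := R + ‖c‖ with hr
  have hr0 : 0 < r := by positivity
  have hM : ∀ z, ‖z - c‖ ≤ 2 * r → ‖F z‖ ≤ Real.exp (K' * ((3 + 3 * ‖c‖) * R) ^ (3 / 2 : ℝ)) := by
    intro z hz
    refine (hK z).trans (Real.exp_le_exp.2 ?_)
    have h1 : ‖z‖ ≤ 2 * r + ‖c‖ := by
      have := norm_add_le (z - c) c
      rw [sub_add_cancel] at this
      linarith
    have h2 : 1 + ‖z‖ ≤ (3 + 3 * ‖c‖) * R := by
      have := norm_nonneg c
      nlinarith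
    calc K * (1 + ‖z‖) ^ (3 / 2 : ℝ) ≤ K' * (1 + ‖z‖) ^ (3 / 2 : ℝ) := by
          gcongr
          exact le_max_left _ _
      _ ≤ K' * ((3 + 3 * ‖c‖) * R) ^ (3 / 2 : ℝ) := by gcongr
  have h1 := jcount0 h.diff (c := c) (r := r) (R := 2 * r)
    (M := Real.exp (K' * ((3 + 3 * ‖c‖) * R) ^ (3 / 2 : ℝ))) hr0 (by linarith)
    (Real.one_le_exp (by positivity)) hc hM S (fun z hz => by
      have h2 := hS z hz
      have h3 := norm_sub_le z c
      rw [hr]; linarith)
  refine h1.trans ?_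
  rw [Real.log_div (Real.exp_pos _).ne' hcn.ne', Real.log_exp, mul_div_cancel_right₀ _ hr0.ne',
    div_mul_eq_mul_div]
  gcongr
  rw [Real.mul_rpow (by positivity) hR0.le]
  have h4 : 1 ≤ R ^ (3 / 2 : ℝ) := Real.one_le_rpow hR (by norm_num)
  have h5 := neg_abs_le (Real.log ‖F c‖)
  have h6 := abs_nonneg (Real.log ‖F c‖)
  nlinarith

/-- the zeros of `F` are zero data -/
theorem Sf.zd (h : Sf F d) : Zd (fun z => (analyticOrderNatAt F z : ℝ)) d where
  nn z := Nat.cast_nonneg _
  one z hz := by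
    have : analyticOrderNatAt F z ≠ 0 := by exact_mod_cast hz
    exact_mod_cast Nat.one_le_iff_ne_zero.2 this
  strip z hz := by
    have : analyticOrderNatAt F z ≠ 0 := by exact_mod_cast hz
    exact h.strip z (h.ord_ne.1 this)
  refl z := by
    rw [h.ord_refl]
  cnt := by
    classical
    obtain ⟨C, hC, hcount⟩ := h.count
    -- the level of a zero
    set a : ℝ := 1 + |d| with ha
    have ha1 : 1 ≤ a := by rw [ha]; linarith [abs_nonneg d]
    have hs : Summable fun k : ℕ => C * (a * 2 ^ (k + 1)) ^ (3 / 2 : ℝ) / (2 ^ k) ^ 2 := by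
      have e : (fun k : ℕ => C * (a * 2 ^ (k + 1)) ^ (3 / 2 : ℝ) / (2 ^ k) ^ 2) =
          fun k : ℕ => (C * (a * 2) ^ (3 / 2 : ℝ)) * ((2 : ℝ) ^ (-(1 / 2) : ℝ)) ^ k := by
        funext k
        have h1 : (a * 2 ^ (k + 1)) ^ (3 / 2 : ℝ) = (a * 2) ^ (3 / 2 : ℝ) * ((2 : ℝ) ^ (3 / 2 : ℝ)) ^ k := by
          rw [pow_succ', ← mul_assoc, Real.mul_rpow (by positivity) (by positivity)]
          congr 1
          rw [← Real.rpow_natCast, ← Real.rpow_natCast, ← Real.rpow_mul (by norm_num),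
            ← Real.rpow_mul (by norm_num), mul_comm]
        have h2 : ((2 : ℝ) ^ (-(1 / 2) : ℝ)) = (2 : ℝ) ^ (3 / 2 : ℝ) / 2 ^ 2 := by
          rw [← Real.rpow_natCast 2 2, ← Real.rpow_sub (by norm_num)]
          congr 1
          norm_num
        rw [h1, h2, div_pow]
        have h3 : ((2 : ℝ) ^ 2) ^ k = (2 ^ k) ^ 2 := by rw [← pow_mul, ← pow_mul, mul_comm]
        rw [h3]
        ring
      rw [e]
      apply Summable.mul_left
      apply summable_geometric_of_lt_one (by positivity)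
      apply Real.rpow_lt_one_of_one_lt_of_neg (by norm_num) (by norm_num)
    refine ⟨∑' k : ℕ, C * (a * 2 ^ (k + 1)) ^ (3 / 2 : ℝ) / (2 ^ k) ^ 2,
      tsum_nonneg fun k => by positivity, fun S => ?_⟩
    -- only zeros matter
    set S' : Finset ℂ := S.filter fun z => analyticOrderNatAt F z ≠ 0 with hS'
    have h1 : ∑ z ∈ S, (analyticOrderNatAt F z : ℝ) / (1 + |z.im|) ^ 2 =
        ∑ z ∈ S', (analyticOrderNatAt F z : ℝ) / (1 + |z.im|) ^ 2 := by
      rw [hS', Finset.sum_filter_of_ne]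
      intro z _ hz h0
      apply hz
      simp [h0]
    rw [h1]
    -- the level
    set lev : ℂ → ℕ := fun z => Nat.log 2 ⌊1 + |z.im|⌋₊ with hlev
    have hlev1 : ∀ z : ℂ, (2 : ℝ) ^ lev z ≤ 1 + |z.im| := by
      intro z
      have hf : ⌊1 + |z.im|⌋₊ ≠ 0 := by
        have : 1 ≤ ⌊1 + |z.im|⌋₊ := by
          rw [Nat.one_le_floor_iff]
          linarith [abs_nonneg z.im]
        omega
      have h2 : 2 ^ lev z ≤ ⌊1 + |z.im|⌋₊ := Nat.pow_log_le_self 2 hf
      have h3 : ((2 ^ lev z : ℕ) : ℝ) ≤ (⌊1 + |z.im|⌋₊ : ℝ) := by exact_mod_cast h2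
      have h4 : (⌊1 + |z.im|⌋₊ : ℝ) ≤ 1 + |z.im| := Nat.floor_le (by positivity)
      push_cast at h3
      linarith
    have hlev2 : ∀ z : ℂ, 1 + |z.im| < 2 ^ (lev z + 1) := by
      intro z
      have h2 : ⌊1 + |z.im|⌋₊ < 2 ^ (lev z + 1) := Nat.lt_pow_succ_log_self one_lt_two _
      have h3 := Nat.lt_floor_add_one (1 + |z.im|)
      have h4 : (⌊1 + |z.im|⌋₊ : ℝ) + 1 ≤ 2 ^ (lev z + 1) := by exact_mod_cast h2
      linarith
    rw [← Finset.sum_fiberwise_of_maps_to (s := S') (t := S'.image lev) (g := lev)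
      (fun z hz => Finset.mem_image_of_mem _ hz)]
    have h2 : ∀ k ∈ S'.image lev, ∑ z ∈ S' with lev z = k,
        (analyticOrderNatAt F z : ℝ) / (1 + |z.im|) ^ 2 ≤
          C * (a * 2 ^ (k + 1)) ^ (3 / 2 : ℝ) / (2 ^ k) ^ 2 := by
      intro k _
      have h3 : ∑ z ∈ S' with lev z = k, (analyticOrderNatAt F z : ℝ) / (1 + |z.im|) ^ 2 ≤
          ∑ z ∈ S' with lev z = k, (analyticOrderNatAt F z : ℝ) / (2 ^ k) ^ 2 := by
        refine Finset.sum_le_sum fun z hz => ?_
        rw [Finset.mem_filter] at hz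
        have h4 := hlev1 z
        rw [hz.2] at h4
        gcongr
      refine h3.trans ?_
      rw [← Finset.sum_div]
      gcongr
      refine hcount _ _ ?_ ?_
      · have : (1 : ℝ) ≤ 2 ^ (k + 1) := one_le_pow₀ (by norm_num)
        nlinarith
      · intro z hz
        rw [Finset.mem_filter, hS', Finset.mem_filter] at hz
        have h4 := hlev2 z
        rw [hz.2] at h4
        have h5 := h.strip z (h.ord_ne.1 hz.1.2)
        have h6 := Complex.norm_le_abs_re_add_abs_im z
        have h7 := le_abs_self d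
        have h8 := abs_nonneg d
        have h9 := abs_nonneg z.im
        calc ‖z‖ ≤ |d| + |z.im| := by linarith
          _ ≤ a * (1 + |z.im|) := by rw [ha]; nlinarith
          _ ≤ a * 2 ^ (k + 1) := by
              refine mul_le_mul_of_nonneg_left h4.le (by linarith)
    refine (Finset.sum_le_sum h2).trans ?_
    exact hs.sum_le_tsum _ (fun k _ => by positivity)

end Pool.Agent.N793.LI
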