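import Pool.Agent.N793.LI.Main
import Pool.Agent.N793.LI.Both
import Pool.Agent.N793.LI.Zer

/-!
# The theorem on the signs of the Li coefficients, in terms of the completed function
-/

set_option autoImplicit false

open Complex Filter Topology Finset Polynomial
open scoped ComplexConjugate

namespace Pool.Agent.N793.LI

/-- The `n`-th Li coefficient of `Λ` (centre `c` of the critical strip, base point `a`). -/
noncomputable def lam (Λ : ℂ → ℂ) (c a : ℝ) (n : ℕ) : ℝ :=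
  ∑' ρ : ℂ, (analyticOrderNatAt Λ ρ : ℝ) * (1 - (((ρ - a) / (ρ + a - 2 * c)) ^ n).re)

/-- all zeros of `Λ` are on the line `Re s = c` -/
def OnLine (Λ : ℂ → ℂ) (c : ℝ) : Prop := ∀ s : ℂ, Λ s = 0 → s.re = c

/-- the conclusions -/
structure Concl (Λ : ℂ → ℂ) (c a : ℝ) : Prop where
  summable : ∀ n : ℕ, Summable fun ρ : ℂ =>
    (analyticOrderNatAt Λ ρ : ℝ) * (1 - (((ρ - a) / (ρ + a - 2 * c)) ^ n).re)
  all : OnLine Λ c ↔ ∀ n : ℕ, 0 ≤ lam Λ c a n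
  runs : OnLine Λ c ↔ ∀ L : ℕ, ∃ N : ℕ, ∀ n, N < n → n ≤ N + L → 0 ≤ lam Λ c a n
  weak : OnLine Λ c ↔ ∀ ε : ℝ, 0 < ε → ∀ L : ℕ, ∃ N : ℕ, L ≤ N ∧ ∀ n, N < n → n ≤ N + L →
    -Real.exp (ε * n) ≤ lam Λ c a n
  gaps : OnLine Λ c ↔ ∀ K : ℕ, ∃ s : ℕ → ℕ, (∀ i, s i + K ≤ s (i + 1)) ∧
    ∀ i j, i < j → j ≤ K → 0 ≤ lam Λ c a (s j - s i)
  diff : ∀ S : Set ℕ, S.Infinite →
    (OnLine Λ c ↔ ∀ s ∈ S, ∀ t ∈ S, t < s → 0 ≤ lam Λ c a (s - t))
  mult : ∀ d : ℕ, 0 < d → (OnLine Λ c ↔ ∀ n : ℕ, 0 ≤ lam Λ c a (d * n))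
  poly : ∀ Q : ℤ[X], Q.coeff 0 = 0 → 0 < Q.leadingCoeff →
    (OnLine Λ c ↔ ∀ m n : ℕ, 1 ≤ m → (n : ℤ) = Q.eval (m : ℤ) → 0 ≤ lam Λ c a n)
  recur : ∀ A : Set ℕ, Recurrent A →
    (OnLine Λ c ↔ ∀ ε : ℝ, 0 < ε → ∃ N : ℕ, ∀ n ∈ A, N ≤ n → -Real.exp (ε * n) ≤ lam Λ c a n)
  bohr : ¬ OnLine Λ c → ∃ R : ℝ, 1 < R ∧ ∃ U : Finset ℂ, (∀ u ∈ U, ‖u‖ = 1) ∧
    ∃ N : ℕ, ∀ n, N ≤ n → (∀ u ∈ U, ‖u ^ n - 1‖ < 1 / 2) → lam Λ c a n ≤ -(R ^ n / 4)
  both : (∀ x : ℝ, a ≤ x → Λ x ≠ 0) → ¬ OnLine Λ c → ∃ R : ℝ, 1 < R ∧ ∃ κ : ℝ, 0 < κ ∧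
    ∃ L N₀ : ℕ, ∀ N : ℕ, N₀ ≤ N →
      (∃ n, N < n ∧ n ≤ N + L ∧ lam Λ c a n ≤ -(κ * R ^ n)) ∧
      (∃ n, N < n ∧ n ≤ N + L ∧ κ * R ^ n ≤ lam Λ c a n)
  uncond : (∀ x : ℝ, a ≤ x → Λ x ≠ 0) → ∃ L : ℕ, ∀ N : ℕ, ∃ n, N < n ∧ n ≤ N + L ∧
    0 ≤ lam Λ c a n

lemma order_shift {Λ : ℂ → ℂ} (c z : ℂ) :
    analyticOrderNatAt (fun z => Λ (c + z)) z = analyticOrderNatAt Λ (c + z) := by
  unfold analyticOrderNatAt
  have h1 : AnalyticAt ℂ (fun z : ℂ => c + z) z := analyticAt_const.add analyticAt_id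
  have h2 : deriv (fun z : ℂ => c + z) z ≠ 0 := by simp
  have h3 := analyticOrderAt_comp_of_deriv_ne_zero (f := Λ) h1 h2
  rw [← h3]
  rfl

theorem concl {Λ : ℂ → ℂ} {c a d : ℝ} (h : Sf (fun z => Λ (c + z)) d) (hca : c < a) (ha : Λ a ≠ 0) :
    Concl Λ c a := by
  classical
  have hΛ : Differentiable ℂ Λ := by
    have h1 := h.diff.comp (g := fun z => Λ ((c : ℂ) + z)) (f := fun z : ℂ => z - c) (by fun_prop)
    have e : (fun z => Λ ((c : ℂ) + z)) ∘ (fun z : ℂ => z - c) = Λ := by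
      funext z
      simp
    rwa [e] at h1
  have hzd := h.zd
  set M : ℂ → ℝ := fun z => (analyticOrderNatAt (fun z => Λ (c + z)) z : ℝ) with hM
  have hMeq : ∀ z, M z = (analyticOrderNatAt Λ (c + z) : ℝ) := by
    intro z
    rw [hM]
    simp only
    rw [order_shift]
  have hM0 : ∀ z, M z ≠ 0 ↔ Λ (c + z) = 0 := by
    intro z
    have := h.ord_ne (z := z)
    rw [hM]
    simp only [ne_eq, Nat.cast_eq_zero]
    exact this
  set b : ℝ := a - c with hb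
  have hb0 : 0 < b := by rw [hb]; linarith
  have hMb : M (b : ℂ) = 0 := by
    by_contra h0
    apply ha
    have := (hM0 _).1 h0
    rwa [hb, Complex.ofReal_sub, add_sub_cancel] at this
  have hMb' : M (-(b : ℂ)) = 0 := by
    have h1 := hzd.refl (b : ℂ)
    rw [Complex.conj_ofReal] at h1
    rw [h1]
    exact hMb
  -- the transformation
  have hW : ∀ ρ : ℂ, (ρ - a) / (ρ + a - 2 * c) = W b (ρ - c) := by
    intro ρ
    unfold W
    rw [hb]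
    push_cast
    congr 1 <;> ring
  have hterm : ∀ n : ℕ, (fun ρ : ℂ => (analyticOrderNatAt Λ ρ : ℝ) *
      (1 - (((ρ - a) / (ρ + a - 2 * c)) ^ n).re)) =
      (fun z : ℂ => M z * (1 - (W b z ^ n).re)) ∘ (Equiv.subRight (c : ℂ)) := by
    intro n
    funext ρ
    simp only [Function.comp_apply, Equiv.subRight_apply]
    rw [hW, hMeq, add_sub_cancel]
  have hlam : ∀ n : ℕ, lam Λ c a n = li M b n := by
    intro n
    unfold lam li
    rw [hterm n]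
    exact (Equiv.subRight (c : ℂ)).tsum_eq (fun z : ℂ => M z * (1 - (W b z ^ n).re))
  have hlam' : lam Λ c a = li M b := funext hlam
  have hline : OnLine Λ c ↔ ∀ z, M z ≠ 0 → z.re = 0 := by
    constructor
    · intro h1 z hz
      have h2 := h1 (c + z) ((hM0 z).1 hz)
      rw [add_re, Complex.ofReal_re] at h2
      linarith
    · intro h1 s hs
      have h2 := h1 (s - c) ((hM0 _).2 (by rwa [add_sub_cancel]))
      rw [sub_re, Complex.ofReal_re] at h2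
      linarith
  have hoff : ¬ OnLine Λ c → ∃ z, M z ≠ 0 ∧ z.re ≠ 0 := by
    intro h1
    rw [hline] at h1
    push Not at h1
    exact h1
  have hreal : (∀ x : ℝ, a ≤ x → Λ x ≠ 0) → ∀ x : ℝ, b ≤ x → M x = 0 := by
    intro h1 x hx
    by_contra h2
    have h3 := (hM0 _).1 h2
    have h4 := h1 (c + x) (by rw [hb] at hx; linarith)
    apply h4
    push_cast
    exact h3
  have hrec : ∀ A : Set ℕ, Recurrent A → (OnLine Λ c ↔ ∀ n ∈ A, 0 ≤ lam Λ c a n) := by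
    intro A hA
    rw [hline, hlam']
    exact hzd.iff_recurrent_nonneg hb0 hMb' hA
  refine ⟨fun n => ?_, ?_, ?_, ?_, ?_, fun S hS => ?_, fun d hd => ?_, fun Q h0 hQ => ?_, fun A hA => ?_,
    fun hn => ?_, fun hx hn => ?_, fun hx => ?_⟩
  · rw [hterm n]
    exact (Equiv.subRight (c : ℂ)).summable_iff.2 (hzd.summable_li hb0 hMb' n)
  · have h1 := hrec Set.univ (by
      intro U ε N hU hε
      obtain ⟨L, hL⟩ := syndetic U hU hε
      obtain ⟨n, h1, -, h3⟩ := hL N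
      exact ⟨n, Set.mem_univ _, h1.le, h3⟩)
    simpa using h1
  · rw [hline, hlam']
    exact hzd.iff_runs_nonneg hb0 hMb'
  · rw [hline, hlam']
    exact hzd.iff_runs hb0 hMb'
  · rw [hline, hlam']
    exact hzd.iff_gaps hb0 hMb'
  · rw [hrec _ (recurrent_diff hS)]
    constructor
    · intro h1 s hs t ht hts
      exact h1 _ ⟨s, hs, t, ht, hts, rfl⟩
    · rintro h1 n ⟨s, hs, t, ht, hts, rfl⟩
      exact h1 s hs t ht hts
  · rw [hrec _ (recurrent_multiples hd)]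
    constructor
    · intro h1 n
      exact h1 _ (Dvd.intro _ rfl)
    · rintro h1 n ⟨k, rfl⟩
      exact h1 k
  · rw [hrec _ (recurrent_poly Q h0 hQ)]
    constructor
    · intro h1 m n hm hn
      exact h1 n ⟨m, hm, hn⟩
    · rintro h1 n ⟨m, hm, hn⟩
      exact h1 m n hm hn
  · rw [hline, hlam']
    exact hzd.iff_recurrent hb0 hMb' hA
  · rw [hlam']
    exact hzd.bohr hb0 hMb' (hoff hn)
  · rw [hlam']
    exact hzd.gaps hb0 (hreal hx) (hoff hn)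
  · rw [hlam']
    exact hzd.nonneg_gaps hb0 (hreal hx)

/-- transfer of the growth class along a constant factor and a translation -/
theorem sf_shift {X Λ : ℂ → ℂ} {d c : ℝ} (h : Sf (fun z => X (1 / 2 + z)) d) {v : ℂ} (hv : v ≠ 0)
    (e : ∀ z : ℂ, Λ (c + z) = v * X (1 / 2 + z)) : Sf (fun z => Λ (c + z)) d where
  diff := by
    have : (fun z : ℂ => Λ (c + z)) = fun z => v * X (1 / 2 + z) := funext e
    rw [this]
    exact h.diff.const_mul _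
  ne := by
    obtain ⟨z, hz⟩ := h.ne
    exact ⟨z, by simp only [e]; exact mul_ne_zero hv hz⟩
  slow := by
    obtain ⟨K, hK⟩ := h.slow
    have hvn : 0 < ‖v‖ := norm_pos_iff.2 hv
    refine ⟨|Real.log ‖v‖| + K, fun z => ?_⟩
    simp only [e]
    rw [norm_mul, add_mul, Real.exp_add]
    have h1 : 1 ≤ (1 + ‖z‖) ^ (3 / 2 : ℝ) := Real.one_le_rpow (by linarith [norm_nonneg z]) (by norm_num)
    have h2 : ‖v‖ ≤ Real.exp (|Real.log ‖v‖| * (1 + ‖z‖) ^ (3 / 2 : ℝ)) := by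
      calc ‖v‖ = Real.exp (Real.log ‖v‖) := (Real.exp_log hvn).symm
        _ ≤ _ := Real.exp_le_exp.2 ((le_abs_self _).trans (le_mul_of_one_le_right (abs_nonneg _) h1))
    exact mul_le_mul h2 (hK z) (norm_nonneg _) (Real.exp_pos _).le
  strip z hz := by
    simp only [e] at hz
    exact h.strip z ((mul_eq_zero.1 hz).resolve_left hv)
  fe := by
    obtain ⟨ε, hε, hfe⟩ := h.fe
    have hcv : conj v ≠ 0 := (_root_.map_ne_zero _).2 hv
    refine ⟨v * ε / conj v, div_ne_zero (mul_ne_zero hv hε) hcv, fun z => ?_⟩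
    have h1 : X (1 / 2 + z) = ε * conj (X (1 / 2 + -conj z)) := hfe z
    rw [e, e, h1, map_mul]
    field_simp

end Pool.Agent.N793.LI
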