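import Mathlib

/-!
# A Phragmen-Lindelof bound of order `3/2` in a strip
-/

set_option autoImplicit false

open Complex Filter Topology Set

namespace Pool.Agent.N793.LI

/-- an elementary inequality -/
lemma elem_le {K : ℝ} (hK : 0 ≤ K) : ∃ K' : ℝ, 0 ≤ K' ∧ ∀ P u : ℝ, 1 ≤ P → 0 ≤ u →
    K * (P + u) ^ (3 / 2 : ℝ) - u ^ 2 ≤ K' * P ^ (3 / 2 : ℝ) := by
  set A : ℝ := K * (2 : ℝ) ^ (3 / 2 : ℝ) with hA
  have hA0 : 0 ≤ A := by positivity
  refine ⟨A + A * (A ^ 2) ^ (3 / 2 : ℝ), by positivity, fun P u hP hu => ?_⟩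
  have hP0 : 0 < P := by linarith
  have hP1 : 1 ≤ P ^ (3 / 2 : ℝ) := Real.one_le_rpow hP (by norm_num)
  rcases le_total u P with h | h
  · have h1 : K * (P + u) ^ (3 / 2 : ℝ) ≤ A * P ^ (3 / 2 : ℝ) := by
      calc K * (P + u) ^ (3 / 2 : ℝ) ≤ K * (2 * P) ^ (3 / 2 : ℝ) := by
            gcongr
            linarith
        _ = A * P ^ (3 / 2 : ℝ) := by
            rw [Real.mul_rpow (by norm_num) hP0.le, hA]; ring
    have h2 : 0 ≤ A * (A ^ 2) ^ (3 / 2 : ℝ) * P ^ (3 / 2 : ℝ) := by positivity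
    nlinarith [sq_nonneg u]
  · have hu0 : 0 < u := by linarith
    have h1 : K * (P + u) ^ (3 / 2 : ℝ) ≤ A * u ^ (3 / 2 : ℝ) := by
      calc K * (P + u) ^ (3 / 2 : ℝ) ≤ K * (2 * u) ^ (3 / 2 : ℝ) := by
            gcongr
            linarith
        _ = A * u ^ (3 / 2 : ℝ) := by
            rw [Real.mul_rpow (by norm_num) hu0.le, hA]; ring
    have h2 : A * u ^ (3 / 2 : ℝ) - u ^ 2 ≤ A * (A ^ 2) ^ (3 / 2 : ℝ) := by
      rcases le_total u (A ^ 2) with h3 | h3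
      · have h4 : A * u ^ (3 / 2 : ℝ) ≤ A * (A ^ 2) ^ (3 / 2 : ℝ) := by gcongr
        nlinarith [sq_nonneg u]
      · have h4 : A ≤ u ^ (1 / 2 : ℝ) := by
          calc A = (A ^ 2) ^ (1 / 2 : ℝ) := by
                rw [← Real.sqrt_eq_rpow, Real.sqrt_sq hA0]
            _ ≤ u ^ (1 / 2 : ℝ) := by gcongr
        have h5 : A * u ^ (3 / 2 : ℝ) ≤ u ^ 2 := by
          calc A * u ^ (3 / 2 : ℝ) ≤ u ^ (1 / 2 : ℝ) * u ^ (3 / 2 : ℝ) := by gcongr
            _ = u ^ 2 := by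
                rw [← Real.rpow_add hu0, ← Real.rpow_natCast]
                norm_num
        have h6 : 0 ≤ A * (A ^ 2) ^ (3 / 2 : ℝ) := by positivity
        linarith
    have h3 : A * (A ^ 2) ^ (3 / 2 : ℝ) ≤ A * (A ^ 2) ^ (3 / 2 : ℝ) * P ^ (3 / 2 : ℝ) :=
      le_mul_of_one_le_right (by positivity) hP1
    have h4 : 0 ≤ A * P ^ (3 / 2 : ℝ) := by positivity
    nlinarith

theorem strip32 {F : ℂ → ℂ} (hF : Differentiable ℂ F) {a b K K₂ : ℝ} (hab : a < b)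
    (hslow : ∀ s, ‖F s‖ ≤ K₂ * Real.exp (1 / 2 * ‖s‖ ^ 2))
    (ha : ∀ s : ℂ, s.re = a → ‖F s‖ ≤ Real.exp (K * (1 + ‖s‖) ^ (3 / 2 : ℝ)))
    (hb : ∀ s : ℂ, s.re = b → ‖F s‖ ≤ Real.exp (K * (1 + ‖s‖) ^ (3 / 2 : ℝ))) :
    ∃ K' : ℝ, 0 ≤ K' ∧ ∀ s : ℂ, a ≤ s.re → s.re ≤ b →
      ‖F s‖ ≤ Real.exp (K' * (1 + ‖s‖) ^ (3 / 2 : ℝ)) := by
  set Kp : ℝ := max K 0 with hKp
  have hKp0 : 0 ≤ Kp := le_max_right _ _
  obtain ⟨K1, hK1, hel⟩ := elem_le hKp0
  set D : ℝ := |a| + |b| with hD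
  have hD0 : 0 ≤ D := by positivity
  refine ⟨4 * D ^ 2 + K1 * (1 + D) ^ (3 / 2 : ℝ), by positivity, fun s₀ h1 h2 => ?_⟩
  set x₀ : ℝ := s₀.re with hx₀
  set t₀ : ℝ := s₀.im with ht₀
  have hx₀D : |x₀| ≤ D := by
    rw [abs_le]
    constructor
    · have := neg_abs_le a
      have := abs_nonneg b
      linarith
    · have := le_abs_self b
      have := abs_nonneg a
      linarith
  -- the auxiliary function
  set G : ℂ → ℂ := fun s => F s * Complex.exp ((s - s₀) ^ 2) with hG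
  have hGd : Differentiable ℂ G := by
    rw [hG]
    fun_prop
  have hnorm : ∀ s : ℂ, ‖Complex.exp ((s - s₀) ^ 2)‖ =
      Real.exp ((s.re - x₀) ^ 2 - (s.im - t₀) ^ 2) := by
    intro s
    rw [Complex.norm_exp]
    congr 1
    rw [sq, Complex.mul_re]
    simp only [Complex.sub_re, Complex.sub_im]
    rw [← hx₀, ← ht₀]
    ring
  have hre : ∀ s : ℂ, a ≤ s.re → s.re ≤ b → |s.re| ≤ D := by
    intro s hs1 hs2
    rw [abs_le]
    constructor
    · have := neg_abs_le a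
      have := abs_nonneg b
      linarith
    · have := le_abs_self b
      have := abs_nonneg a
      linarith
  have hdist : ∀ s : ℂ, a ≤ s.re → s.re ≤ b → (s.re - x₀) ^ 2 ≤ 4 * D ^ 2 := by
    intro s hs1 hs2
    have h3 := abs_le.1 (hre s hs1 hs2)
    have h4 := abs_le.1 hx₀D
    nlinarith [h3.1, h3.2, h4.1, h4.2]
  -- the bound on the boundary
  set P : ℝ := (1 + D) * (1 + |t₀|) with hP
  have hP1 : 1 ≤ P := by
    have := abs_nonneg t₀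
    nlinarith
  have hbd : ∀ s : ℂ, a ≤ s.re → s.re ≤ b → ‖F s‖ ≤ Real.exp (K * (1 + ‖s‖) ^ (3 / 2 : ℝ)) →
      ‖G s‖ ≤ Real.exp (4 * D ^ 2 + K1 * P ^ (3 / 2 : ℝ)) := by
    intro s hs1 hs2 hs
    rw [hG]
    simp only
    rw [norm_mul, hnorm]
    refine (mul_le_mul_of_nonneg_right hs (Real.exp_pos _).le).trans ?_
    rw [← Real.exp_add]
    apply Real.exp_le_exp.2
    have h3 : 1 + ‖s‖ ≤ P + |s.im - t₀| := by
      have h4 := Complex.norm_le_abs_re_add_abs_im s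
      have h5 := hre s hs1 hs2
      have h6 : |s.im| ≤ |t₀| + |s.im - t₀| := by
        have := abs_add_le t₀ (s.im - t₀)
        rwa [add_sub_cancel] at this
      have h7 := abs_nonneg t₀
      rw [hP]
      nlinarith
    have h4 := hel P |s.im - t₀| hP1 (abs_nonneg _)
    rw [sq_abs] at h4
    have h5 : K * (1 + ‖s‖) ^ (3 / 2 : ℝ) ≤ Kp * (P + |s.im - t₀|) ^ (3 / 2 : ℝ) := by
      calc K * (1 + ‖s‖) ^ (3 / 2 : ℝ) ≤ Kp * (1 + ‖s‖) ^ (3 / 2 : ℝ) := by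
            gcongr
            exact le_max_left _ _
        _ ≤ _ := by gcongr
    have h6 := hdist s hs1 hs2
    linarith
  -- boundedness in the strip
  have hbound : ∀ s : ℂ, a ≤ s.re → s.re ≤ b → ‖G s‖ ≤ |K₂| * Real.exp (5 * D ^ 2 + t₀ ^ 2) := by
    intro s hs1 hs2
    rw [hG]
    simp only
    rw [norm_mul, hnorm]
    have h3 : ‖F s‖ ≤ |K₂| * Real.exp (1 / 2 * ‖s‖ ^ 2) := (hslow s).trans
      (mul_le_mul_of_nonneg_right (le_abs_self _) (Real.exp_pos _).le)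
    refine (mul_le_mul_of_nonneg_right h3 (Real.exp_pos _).le).trans ?_
    rw [mul_assoc, ← Real.exp_add]
    refine mul_le_mul_of_nonneg_left (Real.exp_le_exp.2 ?_) (abs_nonneg _)
    have h4 : ‖s‖ ^ 2 = s.re ^ 2 + s.im ^ 2 := by
      rw [Complex.sq_norm, Complex.normSq_apply]; ring
    rw [h4]
    have h5 := hdist s hs1 hs2
    have h6 : s.re ^ 2 ≤ D ^ 2 := by
      rw [← sq_abs]
      have := hre s hs1 hs2
      gcongr
    nlinarith [sq_nonneg (s.im - 2 * t₀)]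
  have hmain := PhragmenLindelof.vertical_strip (f := G) (a := a) (b := b)
    (C := Real.exp (4 * D ^ 2 + K1 * P ^ (3 / 2 : ℝ))) (z := s₀)
    hGd.diffContOnCl ?_ (fun z hz => hbd z hz.ge (by rw [hz]; exact hab.le) (ha z hz))
    (fun z hz => hbd z (by rw [hz]; exact hab.le) hz.le (hb z hz)) h1 h2
  · have h3 : ‖G s₀‖ = ‖F s₀‖ := by
      rw [hG]
      simp
    rw [h3] at hmain
    refine hmain.trans (Real.exp_le_exp.2 ?_)
    have h4 : |t₀| ≤ ‖s₀‖ := Complex.abs_im_le_norm s₀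
    have h5 : 1 ≤ (1 + ‖s₀‖) ^ (3 / 2 : ℝ) := Real.one_le_rpow (by linarith [norm_nonneg s₀]) (by norm_num)
    have h6 : P ^ (3 / 2 : ℝ) ≤ (1 + D) ^ (3 / 2 : ℝ) * (1 + ‖s₀‖) ^ (3 / 2 : ℝ) := by
      rw [← Real.mul_rpow (by positivity) (by positivity), hP]
      gcongr
    have h7 : K1 * P ^ (3 / 2 : ℝ) ≤ K1 * ((1 + D) ^ (3 / 2 : ℝ) * (1 + ‖s₀‖) ^ (3 / 2 : ℝ)) := by
      gcongr
    have h8 : 4 * D ^ 2 ≤ 4 * D ^ 2 * (1 + ‖s₀‖) ^ (3 / 2 : ℝ) :=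
      le_mul_of_one_le_right (by positivity) h5
    linarith
  · refine ⟨0, by have := Real.pi_pos; exact div_pos this (by linarith), 0, ?_⟩
    apply Asymptotics.IsBigO.of_bound (|K₂| * Real.exp (5 * D ^ 2 + t₀ ^ 2))
    rw [eventually_inf_principal]
    refine Eventually.of_forall fun z hz => ?_
    simp only [zero_mul, Real.exp_zero, norm_one, mul_one]
    have hz' : z.re ∈ Ioo a b := hz
    exact hbound z hz'.1.le hz'.2.le

/-- the product of a logarithm and a linear function -/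
lemma log_lin {A k c : ℝ} (hA : 0 ≤ A) (hk : 0 ≤ k) (hc : 1 ≤ c) : ∃ K : ℝ, 0 ≤ K ∧ ∀ x : ℝ, 0 ≤ x →
    (A + k * Real.log (x + c)) * (x + c) ≤ K * (1 + x) ^ (3 / 2 : ℝ) := by
  refine ⟨(A + k * (2 * c ^ (1 / 2 : ℝ))) * c, by positivity, fun x hx => ?_⟩
  have h0 : 0 < x + c := by linarith
  have h1 : 0 ≤ Real.log (x + c) := Real.log_nonneg (by linarith)
  have h2 : x + c ≤ c * (1 + x) := by nlinarith
  have h3 : Real.log (x + c) ≤ 2 * (c ^ (1 / 2 : ℝ) * (1 + x) ^ (1 / 2 : ℝ)) := by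
    have h4 := Real.log_le_rpow_div h0.le (show (0 : ℝ) < 1 / 2 by norm_num)
    have h5 : (x + c) ^ (1 / 2 : ℝ) ≤ (c * (1 + x)) ^ (1 / 2 : ℝ) := by gcongr
    rw [Real.mul_rpow (by linarith) (by linarith)] at h5
    calc Real.log (x + c) ≤ (x + c) ^ (1 / 2 : ℝ) / (1 / 2) := h4
      _ ≤ _ := by
        rw [div_eq_mul_inv]
        norm_num
        linarith
  have h6 : 1 ≤ (1 + x) ^ (1 / 2 : ℝ) := Real.one_le_rpow (by linarith) (by norm_num)
  have h7 : A + k * Real.log (x + c) ≤ (A + k * (2 * c ^ (1 / 2 : ℝ))) * (1 + x) ^ (1 / 2 : ℝ) := by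
    have h8 : k * Real.log (x + c) ≤ k * (2 * (c ^ (1 / 2 : ℝ) * (1 + x) ^ (1 / 2 : ℝ))) := by
      gcongr
    nlinarith
  have h8 : (1 + x) ^ (3 / 2 : ℝ) = (1 + x) ^ (1 / 2 : ℝ) * (1 + x) := by
    nth_rewrite 3 [← Real.rpow_one (1 + x)]
    rw [← Real.rpow_add (by linarith)]
    norm_num
  rw [h8]
  calc (A + k * Real.log (x + c)) * (x + c) ≤
        ((A + k * (2 * c ^ (1 / 2 : ℝ))) * (1 + x) ^ (1 / 2 : ℝ)) * (c * (1 + x)) := by
        gcongr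
    _ = _ := by ring

end Pool.Agent.N793.LI
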