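import Pool.Agent.N793.LI.Zer
import Pool.Agent.N793.LI.Strip
import Pool.Agent.W355.UN.Scale

/-!
# Completed L-functions are entire functions of order at most `3/2`
-/

set_option autoImplicit false

open Complex Filter Topology Set
open scoped ComplexConjugate

namespace Pool.Agent.N793.LI

open Pool.Agent.W355.UN H353.E

variable {m : ℕ} {B : ℝ → ℝ} {N θ : ℝ} {μ : Fin m → ℂ} {X L : ℂ → ℂ}

/-- growth in the half-plane `Re s ≥ 2 + θ` -/
lemma ul_right (h : UL m B N θ μ X L) : ∃ K : ℝ, 0 ≤ K ∧ ∀ s : ℂ, 2 + θ ≤ s.re →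
    ‖X s‖ ≤ Real.exp (K * (1 + ‖s‖) ^ (3 / 2 : ℝ)) := by
  have hθ := h.hθ
  have hm0 : (0 : ℝ) ≤ m := Nat.cast_nonneg m
  have hc1 : 1 ≤ N * ∏ j, (1 + ‖μ j‖) := by
    have h1 : 1 ≤ ∏ j, (1 + ‖μ j‖) := by
      refine Finset.prod_induction _ (fun x => (1 : ℝ) ≤ x) (fun a b ha hb => ?_) le_rfl fun j _ => ?_
      · nlinarith
      · linarith [norm_nonneg (μ j)]
    have := h.hN
    nlinarith
  have hlog := Real.log_nonneg hc1
  have hB := h.hB 1
  set A : ℝ := Real.log (N * ∏ j, (1 + ‖μ j‖)) + 7 * m + m * B 1 with hA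
  have hA0 : 0 ≤ A := by positivity
  obtain ⟨K, hK, hlin⟩ := log_lin (A := A) (k := m) (c := 6 + θ) hA0 hm0 (by linarith)
  set s₁ : ℂ := ((2 + θ : ℝ) : ℂ) with hs₁
  have hs₁re : s₁.re = 2 + θ := by rw [hs₁, Complex.ofReal_re]
  have hs₁n : ‖s₁‖ = 2 + θ := by
    rw [hs₁, Complex.norm_real, Real.norm_eq_abs, abs_of_nonneg (by linarith)]
  have hX₁ : X s₁ ≠ 0 := h.Xne (by rw [hs₁re]; linarith)
  refine ⟨|Real.log ‖X s₁‖| + K, by positivity, fun s hs => ?_⟩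
  have hsn := norm_nonneg s
  set v : ℂ := s - s₁ with hv
  have hvn : ‖v‖ ≤ ‖s‖ + (6 + θ) := by
    have := norm_sub_le s s₁
    rw [hs₁n] at this
    linarith
  have hre : ∀ τ ∈ Icc (0 : ℝ) 1, 2 + θ ≤ (s₁ + τ * v).re := by
    intro τ hτ
    have e : (s₁ + τ * v).re = (2 + θ) + τ * (s.re - (2 + θ)) := by
      rw [add_re, Complex.re_ofReal_mul, hv, sub_re, hs₁re]
    rw [e]
    have := mul_nonneg hτ.1 (by linarith : 0 ≤ s.re - (2 + θ))
    linarith
  have hnn : ∀ τ ∈ Icc (0 : ℝ) 1, ‖s₁ + τ * v‖ + 4 ≤ ‖s‖ + (6 + θ) := by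
    intro τ hτ
    have e : s₁ + τ * v = ((1 - τ : ℝ) : ℂ) * s₁ + (τ : ℂ) * s := by
      rw [hv]; push_cast; ring
    have h1 : ‖s₁ + τ * v‖ ≤ (1 - τ) * (2 + θ) + τ * ‖s‖ := by
      rw [e]
      refine (norm_add_le _ _).trans ?_
      rw [norm_mul, norm_mul, hs₁n, Complex.norm_real τ, Complex.norm_real (1 - τ),
        Real.norm_eq_abs, Real.norm_eq_abs,
        abs_of_nonneg (by linarith [hτ.2] : (0 : ℝ) ≤ 1 - τ), abs_of_nonneg hτ.1]
    have h2 : (1 - τ) * (2 + θ) ≤ 2 + θ := by nlinarith [hτ.1]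
    have h3 : τ * ‖s‖ ≤ ‖s‖ := by nlinarith [hτ.2]
    linarith
  have hseg := seg (F := X) (s := s₁) (v := v) (ℓ := 0) (K := A + m * Real.log (‖s‖ + (6 + θ)))
    (fun τ _ => h.slow.1 _) (fun τ hτ => h.Xne (by have := hre τ hτ; linarith)) (fun τ hτ => by
      have h1 := hre τ hτ
      rw [Complex.ofReal_zero, sub_zero, h.logD (by linarith)]
      refine (norm_add_le _ _).trans ?_
      have h2 := gaD_norm h.hN h.re_le (s := s₁ + τ * v) (by linarith)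
      have h3 := h.bd 1 one_pos le_rfl (s₁ + τ * v) (by linarith)
      have h4 : Real.log (‖s₁ + τ * v‖ + 4) ≤ Real.log (‖s‖ + (6 + θ)) :=
        Real.log_le_log (by positivity) (hnn τ hτ)
      have h5 : (m : ℝ) * Real.log (‖s₁ + τ * v‖ + 4) ≤ m * Real.log (‖s‖ + (6 + θ)) := by gcongr
      rw [hA]
      linarith)
  have e : s₁ + v = s := by rw [hv]; ring
  rw [e, zero_mul, zero_add] at hseg
  refine hseg.trans ?_
  have hXn : 0 < ‖X s₁‖ := norm_pos_iff.2 hX₁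
  rw [← Real.exp_log hXn, Real.log_exp, ← Real.exp_add]
  apply Real.exp_le_exp.2
  have h1 : 1 ≤ (1 + ‖s‖) ^ (3 / 2 : ℝ) := Real.one_le_rpow (by linarith) (by norm_num)
  have h2 : Real.log ‖X s₁‖ ≤ |Real.log ‖X s₁‖| * (1 + ‖s‖) ^ (3 / 2 : ℝ) :=
    (le_abs_self _).trans (le_mul_of_one_le_right (abs_nonneg _) h1)
  have h3 : (A + m * Real.log (‖s‖ + (6 + θ))) * ‖v‖ ≤
      (A + m * Real.log (‖s‖ + (6 + θ))) * (‖s‖ + (6 + θ)) := by
    have h4 : 0 ≤ Real.log (‖s‖ + (6 + θ)) := Real.log_nonneg (by linarith)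
    gcongr
  have h4 := hlin ‖s‖ hsn
  linarith

/-- growth in the whole plane -/
lemma ul_growth (h : UL m B N θ μ X L) : ∃ K : ℝ, ∀ s : ℂ,
    ‖X s‖ ≤ Real.exp (K * (1 + ‖s‖) ^ (3 / 2 : ℝ)) := by
  have hθ := h.hθ
  obtain ⟨K, hK, hr⟩ := ul_right h
  obtain ⟨ε, hε, hfe⟩ := h.fe
  -- left half-plane
  have hl : ∀ s : ℂ, s.re ≤ -1 - θ → ‖X s‖ ≤ Real.exp ((K * 2 ^ (3 / 2 : ℝ)) * (1 + ‖s‖) ^ (3 / 2 : ℝ)) := by
    intro s hs
    rw [hfe s, norm_mul, hε, one_mul, Complex.norm_conj]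
    refine (hr (1 - conj s) (by rw [sub_re, one_re, Complex.conj_re]; linarith)).trans ?_
    apply Real.exp_le_exp.2
    rw [mul_assoc, ← Real.mul_rpow (by norm_num) (by positivity)]
    have h1 : ‖1 - conj s‖ ≤ 1 + ‖s‖ := by
      have := norm_sub_le 1 (conj s)
      rwa [norm_one, Complex.norm_conj] at this
    have h2 := norm_nonneg s
    gcongr
    linarith
  set K₁ : ℝ := K * 2 ^ (3 / 2 : ℝ) with hK₁
  have hKK : K ≤ K₁ := by
    have : (1 : ℝ) ≤ 2 ^ (3 / 2 : ℝ) := Real.one_le_rpow one_le_two (by norm_num)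
    rw [hK₁]
    exact le_mul_of_one_le_right hK this
  have hr' : ∀ s : ℂ, 2 + θ ≤ s.re → ‖X s‖ ≤ Real.exp (K₁ * (1 + ‖s‖) ^ (3 / 2 : ℝ)) := by
    intro s hs
    refine (hr s hs).trans (Real.exp_le_exp.2 ?_)
    gcongr
  obtain ⟨K₂, hK₂, hslow⟩ := h.slow.2 (1 / 2) (by norm_num)
  obtain ⟨K₃, hK₃, hs⟩ := strip32 (F := X) (a := -1 - θ) (b := 2 + θ) (K := K₁) (K₂ := K₂) h.slow.1
    (by linarith) hslow (fun s hs => hl s hs.le) (fun s hs => hr' s hs.ge)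
  refine ⟨max K₁ K₃, fun s => ?_⟩
  have hmono : ∀ k, k ≤ max K₁ K₃ → Real.exp (k * (1 + ‖s‖) ^ (3 / 2 : ℝ)) ≤
      Real.exp (max K₁ K₃ * (1 + ‖s‖) ^ (3 / 2 : ℝ)) := by
    intro k hk
    apply Real.exp_le_exp.2
    gcongr
  rcases le_total s.re (-1 - θ) with h1 | h1
  · exact (hl s h1).trans (hmono _ (le_max_left _ _))
  · rcases le_total (2 + θ) s.re with h2 | h2
    · exact (hr' s h2).trans (hmono _ (le_max_left _ _))
    · exact (hs s h1 h2).trans (hmono _ (le_max_right _ _))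

/-- **completed L-functions** -/
theorem sf_of_ul (h : UL m B N θ μ X L) : Sf (fun z => X (1 / 2 + z)) (1 / 2 + θ) where
  diff := h.slow.1.comp (by fun_prop)
  ne := ⟨((2 + θ : ℝ) : ℂ), h.Xne (by
    rw [add_re, Complex.ofReal_re]
    norm_num
    linarith [h.hθ])⟩
  slow := by
    obtain ⟨K, hK⟩ := ul_growth h
    refine ⟨max K 0 * 2 ^ (3 / 2 : ℝ), fun z => (hK _).trans (Real.exp_le_exp.2 ?_)⟩
    rw [mul_assoc, ← Real.mul_rpow (by norm_num) (by positivity)]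
    have h1 : ‖(1 / 2 : ℂ) + z‖ ≤ 1 / 2 + ‖z‖ := by
      refine (norm_add_le _ _).trans ?_
      norm_num
    have h2 := norm_nonneg z
    calc K * (1 + ‖(1 / 2 : ℂ) + z‖) ^ (3 / 2 : ℝ) ≤ max K 0 * (1 + ‖(1 / 2 : ℂ) + z‖) ^ (3 / 2 : ℝ) := by
          gcongr
          exact le_max_left _ _
      _ ≤ max K 0 * (2 * (1 + ‖z‖)) ^ (3 / 2 : ℝ) := by
          have h3 : (0 : ℝ) ≤ max K 0 := le_max_right _ _
          gcongr
          linarith
  strip z hz := by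
    have hθ := h.hθ
    rw [abs_le]
    have hz' : X (1 / 2 + z) = 0 := hz
    constructor
    · by_contra hc
      push Not at hc
      obtain ⟨ε, hε, hfe⟩ := h.fe
      have h1 : X (1 - conj (1 / 2 + z)) ≠ 0 := h.Xne (by
        rw [sub_re, one_re, Complex.conj_re, add_re]
        norm_num
        linarith)
      rw [hfe, mul_eq_zero] at hz'
      rcases hz' with h2 | h2
      · rw [h2, norm_zero] at hε
        exact zero_ne_one hε
      · exact h1 ((map_eq_zero _).1 h2)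
    · by_contra hc
      push Not at hc
      refine h.Xne (s := 1 / 2 + z) ?_ hz'
      rw [add_re]
      norm_num
      linarith
  fe := by
    obtain ⟨ε, hε, hfe⟩ := h.fe
    refine ⟨ε, fun h0 => ?_, fun z => ?_⟩
    · rw [h0, norm_zero] at hε
      exact zero_ne_one hε
    · rw [hfe]
      congr 3
      simp only [map_add, map_div₀, map_one, map_ofNat]
      ring

end Pool.Agent.N793.LI
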