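import Pool.Agent.W355.UN.Ab2
import Pool.Agent.N793.LI.Fin
import Pool.Agent.N793.LI.Grow

/-!
# The L-functions of elliptic curves over `ℚ` and abelian number fields
-/

set_option autoImplicit false

open Complex Filter Topology Set UpperHalfPlane MatrixGroups CongruenceSubgroup
open scoped ComplexConjugate

namespace Pool.Agent.N793.LI

open Pool.Agent.W355.UN Pool.Agent.W355.LJ
open Pool.Agent.W169.HF (IsForm coef)

theorem sf_of_pk {d : ℕ} {N : ℝ} {cn : ℝ → ℝ} {G X : ℂ → ℂ} (h : Pk d N cn G X) :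
    Sf (fun z => X (1 / 2 + z)) (1 / 2) := by
  obtain ⟨μ, L, u, -⟩ := h
  have := sf_of_ul u
  rwa [add_zero] at this

/-- comparison of a completed function with a normalised one -/
theorem sf_cmp {d : ℕ} {N : ℝ} {cn : ℝ → ℝ} {G X Λ P : ℂ → ℂ} {κ : ℂ} {c : ℝ} (h : Pk d N cn G X)
    (hG : ∀ s : ℂ, G s = κ * P (s + (c - 1 / 2 : ℝ))) (hκ : κ ≠ 0) (hΛ : Differentiable ℂ Λ)
    (hP : ∃ σ : ℝ, ∀ s : ℂ, σ ≤ s.re → Λ s = P s) : Sf (fun z => Λ (c + z)) (1 / 2) := by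
  have hsf := sf_of_pk h
  have hd := h.diff
  obtain ⟨μ, L, u, -, σ, hσ⟩ := h
  have hX : Differentiable ℂ fun s => κ⁻¹ * X (s - (c - 1 / 2 : ℝ)) :=
    (hd.comp (by fun_prop : Differentiable ℂ fun s : ℂ => s - (c - 1 / 2 : ℝ))).const_mul _
  have e1 : Λ = fun s => κ⁻¹ * X (s - (c - 1 / 2 : ℝ)) := by
    refine Pk.uniq hX hΛ (G := P) ⟨σ + |c - 1 / 2|, fun s hs => ?_⟩ hP
    have h2 : σ ≤ (s - (c - 1 / 2 : ℝ)).re := by
      rw [sub_re, Complex.ofReal_re]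
      have := le_abs_self (c - 1 / 2)
      linarith
    rw [hσ _ h2, hG, sub_add_cancel, inv_mul_cancel_left₀ hκ]
  refine sf_shift hsf (inv_ne_zero hκ) fun z => ?_
  rw [e1]
  simp only
  congr 2
  push_cast
  ring

variable {N : ℕ} [NeZero N] {f : CuspForm (Gamma0 N : Subgroup (GL (Fin 2) ℝ)) 2} {w : ℝ}

/-- elliptic curves over abelian number fields -/
theorem sf_ab {M : ℕ} [NeZero M] (G : Subgroup (DirichletCharacter ℂ M)) [Fintype G]
    (hf : IsForm N f w) (hco : Nat.Coprime M N) {Λ : ℂ → ℂ} (hΛ : Differentiable ℂ Λ)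
    (h : ∃ σ : ℝ, ∀ s : ℂ, σ ≤ s.re → Λ s = prodE G f s) :
    Sf (fun z => Λ (((1 : ℝ) : ℂ) + z)) (1 / 2) := by
  obtain ⟨X, hX⟩ := pk_ab G hf hco
  refine sf_cmp hX (κ := kap G N) (P := prodE G f) (fun s => ?_)
    (kap_ne G (Nat.pos_of_ne_zero (NeZero.ne N))) hΛ h
  congr 2
  push_cast
  ring

/-- the completed L-function over an abelian number field (as in `Pool.Agent.W355.UN.main_ab`) -/
theorem exists_ab {M : ℕ} [NeZero M] (G : Subgroup (DirichletCharacter ℂ M)) [Fintype G]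
    (hf : IsForm N f w) (hco : Nat.Coprime M N) :
    ∃ Λ : ℂ → ℂ, Differentiable ℂ Λ ∧ (∃ σ : ℝ, ∀ s : ℂ, σ ≤ s.re → Λ s = prodE G f s) ∧
    (∃ W : ℂ, ‖W‖ = 1 ∧ ∀ s : ℂ, Λ (2 - s) = W * conj (Λ (conj s))) := by
  obtain ⟨X, hpk⟩ := pk_ab G hf hco
  have hdiff := hpk.diff
  obtain ⟨w', hw', hfe⟩ := hpk.fe
  obtain ⟨μ, L, u, ec, σ, hσ⟩ := hpk
  have hκ := kap_ne G (Nat.pos_of_ne_zero (NeZero.ne N))
  have hre : ∀ s : ℂ, (s - 1 / 2).re = s.re - 1 / 2 := fun s => by simp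
  refine ⟨fun s => (kap G N)⁻¹ * X (s - 1 / 2), ?_, ⟨σ + 1 / 2, fun s hs => ?_⟩,
    ⟨(kap G N)⁻¹ * w' * conj (kap G N), ?_, fun s => ?_⟩⟩
  · exact (hdiff.comp (by fun_prop : Differentiable ℂ fun s : ℂ => s - 1 / 2)).const_mul _
  · show (kap G N)⁻¹ * X (s - 1 / 2) = prodE G f s
    rw [hσ (s - 1 / 2) (by rw [hre]; linarith)]
    show (kap G N)⁻¹ * (kap G N * prodE G f (s - 1 / 2 + 1 / 2)) = prodE G f s
    rw [sub_add_cancel, inv_mul_cancel_left₀ hκ]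
  · rw [norm_mul, norm_mul, norm_inv, RCLike.norm_conj, hw', mul_one,
      inv_mul_cancel₀ (norm_ne_zero_iff.2 hκ)]
  · show (kap G N)⁻¹ * X (2 - s - 1 / 2) =
      (kap G N)⁻¹ * w' * conj (kap G N) * conj ((kap G N)⁻¹ * X (conj s - 1 / 2))
    have h1 : (2 - s - 1 / 2 : ℂ) = 1 - (s - 1 / 2) := by ring
    have h2 : conj (s - 1 / 2) = conj s - 1 / 2 := by
      rw [map_sub, map_div₀, map_one, map_ofNat]
    have h3 : conj (kap G N) ≠ 0 := (map_ne_zero _).2 hκ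
    rw [h1, hfe, h2, map_mul, map_inv₀]
    field_simp

/-- elliptic curves over the rationals -/
theorem sf_q (hf : IsForm N f w) {Λ : ℂ → ℂ} (hΛ : Differentiable ℂ Λ)
    (h : ∃ σ : ℝ, ∀ s : ℂ, σ ≤ s.re → Λ s = ((Real.sqrt N / (2 * Real.pi) : ℝ) : ℂ) ^ s *
      Complex.Gamma s * ∑' n : ℕ, coef f (n + 1) * ((n + 1 : ℕ) : ℂ) ^ (-s)) :
    Sf (fun z => Λ (((1 : ℝ) : ℂ) + z)) (1 / 2) := by
  have hE := eu2_of hf
  have hnf := isNewf_of hf
  obtain ⟨c, X, h1⟩ := tw_raw f hE hnf (1 : DirichletCharacter ℂ 1)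
    DirichletCharacter.isPrimitive_one_level_one (Nat.coprime_one_left N)
  have hX := (pk_raw h1).congr (fun y => rfl) (G' := fun s =>
    (2 * ((Real.sqrt N * ((1 : ℕ) : ℝ) : ℝ) : ℂ) ^ (-(1 / 2) : ℂ)) *
      facE f (1 : DirichletCharacter ℂ 1) (s + 1 / 2))
    ⟨2, fun s hs => fac_eq hE one_pos _ (by linarith)⟩
  have hN0 : (0 : ℝ) < N := by exact_mod_cast Nat.pos_of_ne_zero (NeZero.ne N)
  refine sf_cmp hX (κ := 2 * ((Real.sqrt N * ((1 : ℕ) : ℝ) : ℝ) : ℂ) ^ (-(1 / 2) : ℂ))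
    (P := facE f (1 : DirichletCharacter ℂ 1)) (fun s => ?_) ?_ hΛ ?_
  · congr 2
    push_cast
    ring
  · refine mul_ne_zero two_ne_zero ?_
    have hR : 0 < Real.sqrt N * ((1 : ℕ) : ℝ) := by
      have := Real.sqrt_pos.2 hN0
      positivity
    rw [Ne, Complex.cpow_eq_zero_iff]
    exact fun h => hR.ne' (by exact_mod_cast h.1)
  · obtain ⟨σ, hσ⟩ := h
    refine ⟨σ, fun s hs => ?_⟩
    rw [hσ s hs]
    unfold facE
    rw [Nat.cast_one, mul_one]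
    congr 1
    refine tsum_congr fun n => ?_
    rw [MulChar.one_apply (isUnit_of_subsingleton _), mul_one]

end Pool.Agent.N793.LI
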