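import Pool.Agent.H1R3.Z.Had
import Pool.Agent.N793.LI.Zer
import Pool.Agent.N793.LI.Inst
import Pool.Agent.W174.HF.NF1

/-!
# The completed L-functions have zeros
-/

set_option autoImplicit false

open Complex Filter Topology UpperHalfPlane MatrixGroups CongruenceSubgroup
open scoped ComplexConjugate

namespace Pool.Agent.N793.LI

variable {F : ℂ → ℂ} {d : ℝ}

/-- a function of the class which is unbounded on the real axis has a zero -/
theorem Sf.exists_zero (h : Sf F d) (hunb : ∀ C : ℝ, ∃ x : ℝ, C < ‖F x‖) : ∃ z, F z = 0 := by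
  by_contra hno
  push Not at hno
  obtain ⟨K, hK⟩ := h.slow
  have hF0 : 0 < ‖F 0‖ := norm_pos_iff.2 (hno 0)
  -- the logarithm is linear
  have hlin : ∀ z : ℂ, Real.log ‖F z‖ = Real.log ‖F 0‖ + (deriv F 0 / F 0 * z).re := by
    intro z
    set δ : ℝ := Real.log ‖F z‖ - Real.log ‖F 0‖ - (deriv F 0 / F 0 * z).re with hδ
    have hbd : ∀ R : ℝ, 1 ≤ R → ‖z‖ < R / 2 →
        |δ| ≤ 16 * (|K| * (2 * R) ^ (3 / 2 : ℝ) + |Real.log ‖F 0‖| + 1) * (‖z‖ / R) ^ 2 := by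
      intro R hR hz
      obtain ⟨t, ht, h1, -⟩ := H1R3.Z.log_bounds (h := F) (R := R)
        (M := |K| * (2 * R) ^ (3 / 2 : ℝ) + |Real.log ‖F 0‖| + 1) (by linarith) (by positivity) h.diff
        (fun w _ => hno w) (fun w hw => by
          refine (hK w).trans ?_
          have e0 : ∀ M : ℝ, ‖F 0‖ * Real.exp M = Real.exp (Real.log ‖F 0‖ + M) := by
            intro M
            rw [Real.exp_add, Real.exp_log hF0]
          rw [e0]
          apply Real.exp_le_exp.2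
          have e1 : (1 + ‖w‖) ^ (3 / 2 : ℝ) ≤ (2 * R) ^ (3 / 2 : ℝ) := by
            have := norm_nonneg w
            gcongr
            linarith
          have e2 : K * (1 + ‖w‖) ^ (3 / 2 : ℝ) ≤ |K| * (2 * R) ^ (3 / 2 : ℝ) := by
            have := norm_nonneg w
            have e3 : K * (1 + ‖w‖) ^ (3 / 2 : ℝ) ≤ |K| * (1 + ‖w‖) ^ (3 / 2 : ℝ) := by
              gcongr
              exact le_abs_self K
            have e4 : |K| * (1 + ‖w‖) ^ (3 / 2 : ℝ) ≤ |K| * (2 * R) ^ (3 / 2 : ℝ) := by gcongr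
            linarith
          have e3 := neg_abs_le (Real.log ‖F 0‖)
          linarith)
      have h2 := h1 z hz
      rw [ht] at h2
      exact h2
    have hlim : Tendsto (fun R : ℝ => 16 * (|K| * (2 * R) ^ (3 / 2 : ℝ) + |Real.log ‖F 0‖| + 1) *
        (‖z‖ / R) ^ 2) atTop (𝓝 0) := by
      have e1 : ∀ᶠ R : ℝ in atTop, (16 * |K| * 2 ^ (3 / 2 : ℝ) * ‖z‖ ^ 2) * R ^ (-(1 / 2) : ℝ) +
          16 * (|Real.log ‖F 0‖| + 1) * ‖z‖ ^ 2 * R ^ (-2 : ℝ) =
          16 * (|K| * (2 * R) ^ (3 / 2 : ℝ) + |Real.log ‖F 0‖| + 1) * (‖z‖ / R) ^ 2 := by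
        filter_upwards [eventually_gt_atTop 0] with R hR
        rw [Real.mul_rpow (by norm_num) hR.le, div_pow]
        have e2 : R ^ (3 / 2 : ℝ) = R ^ (-(1 / 2) : ℝ) * R ^ 2 := by
          rw [← Real.rpow_natCast, ← Real.rpow_add hR]
          norm_num
        have e3 : R ^ (-2 : ℝ) = (R ^ 2)⁻¹ := by
          rw [Real.rpow_neg hR.le]
          norm_num
        rw [e2, e3]
        field_simp
        ring
      refine Tendsto.congr' e1 ?_
      have e2 : Tendsto (fun R : ℝ => R ^ (-(1 / 2) : ℝ)) atTop (𝓝 0) :=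
        tendsto_rpow_neg_atTop (by norm_num)
      have e3 : Tendsto (fun R : ℝ => R ^ (-2 : ℝ)) atTop (𝓝 0) := tendsto_rpow_neg_atTop (by norm_num)
      have := (e2.const_mul (16 * |K| * 2 ^ (3 / 2 : ℝ) * ‖z‖ ^ 2)).add
        (e3.const_mul (16 * (|Real.log ‖F 0‖| + 1) * ‖z‖ ^ 2))
      simpa using this
    have h3 : |δ| ≤ 0 := by
      refine ge_of_tendsto hlim ?_
      filter_upwards [eventually_ge_atTop 1, eventually_gt_atTop (2 * ‖z‖)] with R hR hz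
      exact hbd R hR (by linarith)
    have h4 : δ = 0 := abs_eq_zero.1 (le_antisymm h3 (abs_nonneg _))
    rw [hδ] at h4
    linarith
  obtain ⟨ε, hε, hfe⟩ := h.fe
  have hnx : ∀ x : ℝ, ‖F x‖ = ‖ε‖ * ‖F (-x : ℝ)‖ := by
    intro x
    have h1 := hfe x
    rw [Complex.conj_ofReal] at h1
    rw [h1, norm_mul, Complex.norm_conj]
    push_cast
    rfl
  have hε1 : ‖ε‖ = 1 := by
    have h1 := hnx 0
    simp only [Complex.ofReal_zero, neg_zero] at h1
    have h2 : (‖ε‖ - 1) * ‖F 0‖ = 0 := by linarith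
    rcases mul_eq_zero.1 h2 with h3 | h3
    · linarith
    · exact absurd h3 hF0.ne'
  have hre : (deriv F 0 / F 0).re = 0 := by
    have h1 := hnx 1
    rw [hε1, one_mul] at h1
    have h2 := hlin ((1 : ℝ) : ℂ)
    have h3 := hlin ((-1 : ℝ) : ℂ)
    rw [h1] at h2
    rw [h2, Complex.re_mul_ofReal, Complex.re_mul_ofReal] at h3
    linarith
  obtain ⟨x, hx⟩ := hunb ‖F 0‖
  have h1 := hlin x
  rw [Complex.re_mul_ofReal, hre, zero_mul, add_zero] at h1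
  have h2 : ‖F x‖ = ‖F 0‖ := by
    have h3 : 0 < ‖F x‖ := norm_pos_iff.2 (hno x)
    rw [← Real.exp_log h3, h1, Real.exp_log hF0]
  linarith

/-- a Dirichlet series far to the right -/
lemma dir_far {c : ℕ → ℂ} (h1 : c 0 = 1) {σ : ℝ} (hs : Summable fun n : ℕ => c n * ((n + 1 : ℕ) : ℂ) ^ (-(σ : ℂ))) :
    ∃ X : ℝ, ∀ x : ℝ, X ≤ x → 1 / 2 ≤ ‖∑' n : ℕ, c n * ((n + 1 : ℕ) : ℂ) ^ (-(x : ℂ))‖ := by
  have hn : ∀ (n : ℕ) (x : ℝ), ‖((n + 1 : ℕ) : ℂ) ^ (-(x : ℂ))‖ = ((n + 1 : ℕ) : ℝ) ^ (-x) := by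
    intro n x
    rw [← Complex.ofReal_neg, Complex.norm_natCast_cpow_of_pos (Nat.succ_pos n), Complex.ofReal_re]
  set g : ℕ → ℝ := fun n => ‖c n‖ * ((n + 1 : ℕ) : ℝ) ^ (-σ) with hg
  have hgs : Summable g := by
    have := hs.norm
    refine this.congr fun n => ?_
    rw [norm_mul, hn]
  set T : ℝ := ∑' n, g n with hT
  have hT0 : 0 ≤ T := tsum_nonneg fun n => by positivity
  -- the bound of the terms
  have hterm : ∀ x : ℝ, σ ≤ x → ∀ n : ℕ, ‖c (n + 1) * ((n + 1 + 1 : ℕ) : ℂ) ^ (-(x : ℂ))‖ ≤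
      g (n + 1) * 2 ^ (-(x - σ)) := by
    intro x hx n
    rw [norm_mul, hn, hg]
    simp only
    have e1 : ((n + 1 + 1 : ℕ) : ℝ) ^ (-x) = ((n + 1 + 1 : ℕ) : ℝ) ^ (-σ) * ((n + 1 + 1 : ℕ) : ℝ) ^ (-(x - σ)) := by
      rw [← Real.rpow_add (by positivity)]
      congr 1
      ring
    have e2 : ((n + 1 + 1 : ℕ) : ℝ) ^ (-(x - σ)) ≤ 2 ^ (-(x - σ)) := by
      apply Real.rpow_le_rpow_of_nonpos (by norm_num) _ (by linarith)
      push_cast
      have : (0 : ℝ) ≤ n := Nat.cast_nonneg n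
      linarith
    rw [e1, mul_assoc]
    gcongr
  obtain ⟨X, hX⟩ : ∃ X : ℝ, ∀ x : ℝ, X ≤ x → T * 2 ^ (-(x - σ)) ≤ 1 / 2 := by
    have e1 : Tendsto (fun x : ℝ => T * 2 ^ (-(x - σ))) atTop (𝓝 (T * 0)) := by
      refine Tendsto.const_mul _ ?_
      have e2 : Tendsto (fun x : ℝ => -(x - σ)) atTop atBot := by
        exact tendsto_neg_atTop_atBot.comp (tendsto_atTop_add_const_right _ _ tendsto_id)
      have e3 := (tendsto_rpow_atBot_of_base_gt_one 2 (by norm_num)).comp e2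
      exact e3
    rw [mul_zero] at e1
    obtain ⟨X, hX⟩ := eventually_atTop.1 (e1.eventually_lt_const (by norm_num : (0 : ℝ) < 1 / 2))
    exact ⟨X, fun x hx => (hX x hx).le⟩
  refine ⟨max X σ, fun x hx => ?_⟩
  have hxσ : σ ≤ x := (le_max_right _ _).trans hx
  have hgs' : Summable fun n => g (n + 1) := (summable_nat_add_iff 1).2 hgs
  have hb : Summable fun n => g (n + 1) * (2 : ℝ) ^ (-(x - σ)) := hgs'.mul_right _
  have hs1 : Summable fun n : ℕ => c (n + 1) * ((n + 1 + 1 : ℕ) : ℂ) ^ (-(x : ℂ)) :=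
    Summable.of_norm_bounded hb (hterm x hxσ)
  have hs2 : Summable fun n : ℕ => c n * ((n + 1 : ℕ) : ℂ) ^ (-(x : ℂ)) := (summable_nat_add_iff 1).1 hs1
  rw [hs2.tsum_eq_zero_add]
  have e1 : c 0 * ((0 + 1 : ℕ) : ℂ) ^ (-(x : ℂ)) = 1 := by
    rw [h1]; simp
  rw [e1]
  have e2 : ‖∑' n : ℕ, c (n + 1) * ((n + 1 + 1 : ℕ) : ℂ) ^ (-(x : ℂ))‖ ≤ 1 / 2 := by
    refine (tsum_of_norm_bounded hb.hasSum (hterm x hxσ)).trans ?_
    rw [tsum_mul_right]
    refine le_trans ?_ (hX x ((le_max_left _ _).trans hx))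
    gcongr
    rw [hT, hgs.tsum_eq_zero_add]
    have : 0 ≤ g 0 := by rw [hg]; positivity
    linarith
  have e3 := norm_sub_norm_le (1 : ℂ) (-∑' n : ℕ, c (n + 1) * ((n + 1 + 1 : ℕ) : ℂ) ^ (-(x : ℂ)))
  rw [norm_neg, norm_one, sub_neg_eq_add] at e3
  linarith

open Pool.Agent.W169.HF (IsForm coef) in
/-- the completed L-function of a form has a zero -/
theorem exists_zero_q {N : ℕ} [NeZero N] {f : CuspForm (Gamma0 N : Subgroup (GL (Fin 2) ℝ)) 2} {w : ℝ}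
    (hf : IsForm N f w) {Λ : ℂ → ℂ} (hΛ : Differentiable ℂ Λ)
    (h : ∀ s : ℂ, 2 < s.re → Λ s = ((Real.sqrt N / (2 * Real.pi) : ℝ) : ℂ) ^ s *
      Complex.Gamma s * ∑' n : ℕ, coef f (n + 1) * ((n + 1 : ℕ) : ℂ) ^ (-s)) : ∃ s, Λ s = 0 := by
  have hsf := sf_q hf hΛ ⟨3, fun s hs => h s (by linarith)⟩
  suffices hz : ∃ z, (fun z => Λ (((1 : ℝ) : ℂ) + z)) z = 0 by
    obtain ⟨z, hz⟩ := hz
    exact ⟨_, hz⟩
  refine hsf.exists_zero fun C => ?_
  -- the series converges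
  have hne : Λ ((3 : ℝ) : ℂ) ≠ 0 := by
    intro h0
    have h1 := hsf.strip ((2 : ℝ) : ℂ) (by
      show Λ (((1 : ℝ) : ℂ) + ((2 : ℝ) : ℂ)) = 0
      rw [← Complex.ofReal_add]
      norm_num at h0 ⊢
      exact h0)
    rw [Complex.ofReal_re] at h1
    norm_num at h1
  have hsum : Summable fun n : ℕ => coef f (n + 1) * ((n + 1 : ℕ) : ℂ) ^ (-(((3 : ℝ)) : ℂ)) := by
    by_contra hc
    apply hne
    rw [h _ (by rw [Complex.ofReal_re]; norm_num), tsum_eq_zero_of_not_summable hc, mul_zero]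
  obtain ⟨X, hX⟩ := dir_far (c := fun n => coef f (n + 1)) (by simpa using hf.one) hsum
  have hN0 : (0 : ℝ) < N := by exact_mod_cast Nat.pos_of_ne_zero (NeZero.ne N)
  set a : ℝ := Real.sqrt N / (2 * Real.pi) with ha
  have ha0 : 0 < a := by
    have := Real.sqrt_pos.2 hN0
    have := Real.pi_pos
    positivity
  -- the factorials win
  have hfac : Tendsto (fun n : ℕ => (a⁻¹) ^ n / (n.factorial : ℝ)) atTop (𝓝 0) :=
    FloorSemiring.tendsto_pow_div_factorial_atTop a⁻¹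
  have h2 : ∀ᶠ n : ℕ in atTop, (a⁻¹) ^ n / (n.factorial : ℝ) < a / (2 * (|C| + 1)) :=
    hfac.eventually_lt_const (by positivity)
  have h3 : ∀ᶠ n : ℕ in atTop, X ≤ ((n + 1 : ℕ) : ℝ) := by
    obtain ⟨m, hm⟩ := exists_nat_ge X
    filter_upwards [eventually_ge_atTop m] with n hn
    refine hm.trans ?_
    exact_mod_cast (by omega : m ≤ n + 1)
  obtain ⟨n, hn1, hn2, hn3⟩ := (h2.and (h3.and (eventually_ge_atTop 3))).exists
  refine ⟨(n : ℝ), ?_⟩
  show C < ‖Λ (((1 : ℝ) : ℂ) + ((n : ℝ) : ℂ))‖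
  have e1 : ((1 : ℝ) : ℂ) + ((n : ℝ) : ℂ) = (((n + 1 : ℕ) : ℝ) : ℂ) := by push_cast; ring
  rw [e1, h _ (by
    rw [Complex.ofReal_re]
    push_cast
    have : (3 : ℝ) ≤ n := by exact_mod_cast hn3
    linarith), norm_mul, norm_mul]
  have e2 : ‖((a : ℝ) : ℂ) ^ ((((n + 1 : ℕ) : ℝ) : ℂ))‖ = a ^ (n + 1) := by
    rw [← Complex.ofReal_cpow ha0.le, Complex.norm_real, Real.rpow_natCast, Real.norm_eq_abs,
      abs_of_pos (by positivity)]
  have e3 : ‖Complex.Gamma ((((n + 1 : ℕ) : ℝ) : ℂ))‖ = n.factorial := by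
    have : ((((n + 1 : ℕ) : ℝ) : ℂ)) = (n : ℂ) + 1 := by push_cast; ring
    rw [this, Complex.Gamma_nat_eq_factorial, Complex.norm_natCast]
  rw [e2, e3]
  have e4 := hX _ hn2
  have hf0 : (0 : ℝ) < n.factorial := by exact_mod_cast Nat.factorial_pos n
  have e5 : |C| + 1 < a ^ (n + 1) * n.factorial * (1 / 2) := by
    rw [div_lt_div_iff₀ hf0 (by positivity)] at hn1
    have e6 : (a⁻¹) ^ n * a ^ n = 1 := by
      rw [← mul_pow, inv_mul_cancel₀ ha0.ne', one_pow]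
    have e7 : 0 < a ^ n := by positivity
    have e8 : (a⁻¹) ^ n * (2 * (|C| + 1)) * a ^ n < a * n.factorial * a ^ n := by gcongr
    have e9 : (a⁻¹) ^ n * (2 * (|C| + 1)) * a ^ n = 2 * (|C| + 1) := by
      calc (a⁻¹) ^ n * (2 * (|C| + 1)) * a ^ n = ((a⁻¹) ^ n * a ^ n) * (2 * (|C| + 1)) := by ring
        _ = _ := by rw [e6, one_mul]
    rw [e9] at e8
    have e10 : a * n.factorial * a ^ n = a ^ (n + 1) * n.factorial := by ring
    rw [e10] at e8
    linarith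
  have e6 : 0 < a ^ (n + 1) * n.factorial := by positivity
  calc C ≤ |C| + 1 := by linarith [le_abs_self C]
    _ < a ^ (n + 1) * n.factorial * (1 / 2) := e5
    _ ≤ _ := by gcongr

end Pool.Agent.N793.LI
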