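import Pool.Agent.N793.LI.Dens
import Pool.Agent.N793.LI.Core

/-!
# For all but countably many base points one half of the Li coefficients are nonnegative, if one zero
lies off the critical line
-/

set_option autoImplicit false

open Complex Filter Topology Finset
open scoped ComplexConjugate

namespace Pool.Agent.N793.LI

variable {M : ℂ → ℝ} {d : ℝ}

lemma Zd.countable (h : Zd M d) : {z : ℂ | M z ≠ 0}.Countable := by
  have e : {z : ℂ | M z ≠ 0} = ⋃ n : ℕ, {z : ℂ | M z ≠ 0 ∧ |z.im| ≤ n} := by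
    ext z
    simp only [Set.mem_setOf_eq, Set.mem_iUnion]
    constructor
    · intro hz
      obtain ⟨n, hn⟩ := exists_nat_ge |z.im|
      exact ⟨n, hz, hn⟩
    · rintro ⟨n, hz, -⟩
      exact hz
  rw [e]
  exact Set.countable_iUnion fun n => (h.fin n).countable

/-- the base points for which two zeros which are not conjugate have the same modulus -/
def Tie (z z' : ℂ) : Set ℝ := {b | 0 < b ∧ z.re < 0 ∧ z'.re < 0 ∧ z + b ≠ 0 ∧ z' + b ≠ 0 ∧
  ‖W b z‖ = ‖W b z'‖ ∧ ¬ (z'.re = z.re ∧ z'.im ^ 2 = z.im ^ 2)}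

lemma tie_countable (z z' : ℂ) : (Tie z z').Countable := by
  refine Set.Subsingleton.countable fun b hb b' hb' => ?_
  -- the square of b is determined
  have key : ∀ b : ℝ, b ∈ Tie z z' → (z.re - z'.re) * b ^ 2 =
      z'.re * (z.re ^ 2 + z.im ^ 2) - z.re * (z'.re ^ 2 + z'.im ^ 2) := by
    rintro b ⟨h1, h2, h3, h4, h5, h6, -⟩
    have e1 := norm_W_sq' h4
    have e2 := norm_W_sq' h5
    rw [h6] at e1
    have p1 := den_pos h4
    have p2 := den_pos h5
    have e3 : 4 * b * z.re / ((z.re + b) ^ 2 + z.im ^ 2) =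
        4 * b * z'.re / ((z'.re + b) ^ 2 + z'.im ^ 2) := by linarith
    rw [div_eq_div_iff p1.ne' p2.ne'] at e3
    have e4 : (4 * b) * (z.re * ((z'.re + b) ^ 2 + z'.im ^ 2) - z'.re * ((z.re + b) ^ 2 + z.im ^ 2)) = 0 := by
      linarith
    rcases mul_eq_zero.1 e4 with h | h
    · linarith
    · nlinarith
  have k1 := key b hb
  have k2 := key b' hb'
  obtain ⟨h1, h2, h3, h4, h5, h6, h7⟩ := hb
  by_cases hx : z.re = z'.re
  · exfalso
    apply h7
    refine ⟨hx.symm, ?_⟩
    rw [hx, sub_self, zero_mul] at k1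
    have : z'.re * (z'.im ^ 2 - z.im ^ 2) = 0 := by linarith
    rcases mul_eq_zero.1 this with h | h
    · linarith
    · linarith
  · have hne : z.re - z'.re ≠ 0 := sub_ne_zero.2 hx
    have h8 : b ^ 2 = b' ^ 2 := by
      apply mul_left_cancel₀ hne
      rw [k1, k2]
    have h9 : 0 < b' := hb'.1
    nlinarith

/-- the base points for which a power of the argument is trivial -/
def Rou (z : ℂ) (k : ℕ) : Set ℝ := {b | z.re ≠ 0 ∧ z.im ≠ 0 ∧ 1 ≤ k ∧
  ((z - b) * (conj z + b)) ^ k = ((z + b) * (conj z - b)) ^ k}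

open Polynomial in
lemma rou_countable (z : ℂ) (k : ℕ) : (Rou z k).Countable := by
  by_cases hz : z.re ≠ 0 ∧ z.im ≠ 0 ∧ 1 ≤ k
  · obtain ⟨h1, h2, h3⟩ := hz
    set P : ℂ[X] := ((C z - X) * (C (conj z) + X)) ^ k - ((C z + X) * (C (conj z) - X)) ^ k with hP
    have hPne : P ≠ 0 := by
      intro h0
      have h4 : P.eval z = 0 := by rw [h0, eval_zero]
      rw [hP] at h4
      simp only [eval_sub, eval_pow, eval_mul, eval_add, eval_C, eval_X, sub_self, zero_mul] at h4
      rw [zero_pow (by omega), zero_sub, neg_eq_zero] at h4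
      have h5 := pow_eq_zero_iff (by omega : k ≠ 0) |>.1 h4
      rcases mul_eq_zero.1 h5 with h | h
      · have : z = 0 := by
          have h6 : (2 : ℂ) * z = 0 := by rw [← h]; ring
          simpa using h6
        rw [this] at h1
        simp at h1
      · have h6 := congrArg Complex.im h
        simp at h6
        apply h2
        linarith
    have hfin : {x : ℂ | P.eval x = 0}.Finite := by
      have : {x : ℂ | P.eval x = 0} = (P.roots.toFinset : Set ℂ) := by
        ext x
        simp [hPne]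
      rw [this]
      exact Finset.finite_toSet _
    have hsub : Rou z k ⊆ (fun b : ℝ => (b : ℂ)) ⁻¹' {x : ℂ | P.eval x = 0} := by
      rintro b ⟨-, -, -, h⟩
      show P.eval (b : ℂ) = 0
      rw [hP]
      simp only [eval_sub, eval_pow, eval_mul, eval_add, eval_C, eval_X]
      rw [h, sub_self]
    exact ((hfin.preimage (Complex.ofReal_injective.injOn)).countable).mono hsub
  · have : Rou z k = ∅ := by
      ext b
      simp only [Rou, Set.mem_setOf_eq, Set.mem_empty_iff_false, iff_false]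
      rintro ⟨h1, h2, h3, -⟩
      exact hz ⟨h1, h2, h3⟩
    rw [this]
    exact Set.countable_empty

/-- the exceptional base points -/
def Exc (M : ℂ → ℝ) : Set ℝ := (⋃ z ∈ {z : ℂ | M z ≠ 0}, ⋃ z' ∈ {z : ℂ | M z ≠ 0}, Tie z z') ∪
  ⋃ z ∈ {z : ℂ | M z ≠ 0}, ⋃ k : ℕ, Rou z k

lemma Zd.exc_countable (h : Zd M d) : (Exc M).Countable :=
  (h.countable.biUnion fun z _ => h.countable.biUnion fun z' _ => tie_countable z z').union
    (h.countable.biUnion fun z _ => Set.countable_iUnion fun k => rou_countable z k)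

/-- **The generic asymptotic formula.**  For a base point which is not exceptional and lies to the right
of all real zeros the Li coefficients are `- μ R ^ n Re u ^ n + o (R ^ n)`, if one zero lies off the
critical line, where `u` is not a root of unity or `u = -1`. -/
theorem Zd.generic (h : Zd M d) {b : ℝ} (hb : 0 < b) (hreal : ∀ x : ℝ, b ≤ x → M x = 0)
    (hexc : b ∉ Exc M) (hoff : ∃ z, M z ≠ 0 ∧ z.re ≠ 0) :
    ∃ (R μ : ℝ) (u : ℂ), 1 < R ∧ 1 ≤ μ ∧ ‖u‖ = 1 ∧ ((∀ k : ℕ, 1 ≤ k → u ^ k ≠ 1) ∨ u = -1) ∧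
      ∀ η : ℝ, 0 < η → ∃ N : ℕ, ∀ n, N ≤ n → |li M b n + R ^ n * (μ * (u ^ n).re)| ≤ η * R ^ n := by
  have hreal' : ∀ x : ℝ, b ≤ x → M (-(x : ℂ)) = 0 := by
    intro x hx
    have h1 := h.refl (x : ℂ)
    rw [Complex.conj_ofReal] at h1
    rw [h1]
    exact hreal x hx
  have hb0 := hreal' b le_rfl
  obtain ⟨R, E, hR1, hEne, hE, hasym⟩ := h.asym hb hb0 hoff
  have hR0 : 0 < R := by linarith
  have hRc : (R : ℂ) ≠ 0 := by exact_mod_cast hR0.ne'
  obtain ⟨z₀, hz₀⟩ := hEne
  have hre : ∀ z ∈ E, z.re < 0 := by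
    intro z hz
    have h1 := norm_W_sq' (ne_base hb0 (hE z hz).1)
    have h2 := den_pos (ne_base hb0 (hE z hz).1)
    rw [(hE z hz).2] at h1
    by_contra hc
    rw [not_lt] at hc
    have h3 : 0 ≤ 4 * b * z.re / ((z.re + b) ^ 2 + z.im ^ 2) := by positivity
    nlinarith
  have hsame : ∀ z ∈ E, z = z₀ ∨ z = conj z₀ := by
    intro z hz
    have h1 : ¬ b ∈ Tie z₀ z := by
      intro hT
      apply hexc
      left
      simp only [Set.mem_iUnion]
      exact ⟨z₀, (hE z₀ hz₀).1, z, (hE z hz).1, hT⟩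
    have h2 : z.re = z₀.re ∧ z.im ^ 2 = z₀.im ^ 2 := by
      by_contra hc
      exact h1 ⟨hb, hre z₀ hz₀, hre z hz, ne_base hb0 (hE z₀ hz₀).1, ne_base hb0 (hE z hz).1,
        by rw [(hE z₀ hz₀).2, (hE z hz).2], hc⟩
    rcases sq_eq_sq_iff_eq_or_eq_neg.1 h2.2 with h3 | h3
    · exact Or.inl (Complex.ext h2.1 h3)
    · exact Or.inr (Complex.ext (by simpa using h2.1) (by simpa using h3))
  set u : ℂ := W b z₀ / R with hu
  have hun : ‖u‖ = 1 := by
    rw [hu, norm_div, (hE z₀ hz₀).2, Complex.norm_real, Real.norm_eq_abs, abs_of_pos hR0,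
      div_self hR0.ne']
  have hWc : W b (conj z₀) = conj (W b z₀) := by
    unfold W
    rw [map_div₀, map_sub, map_add, Complex.conj_ofReal]
  have hpow : ∀ z ∈ E, ∀ n : ℕ, ((W b z / R) ^ n).re = (u ^ n).re := by
    intro z hz n
    rcases hsame z hz with rfl | rfl
    · rfl
    · have : W b (conj z₀) / R = conj u := by
        rw [hWc, hu, map_div₀, Complex.conj_ofReal]
      rw [this, ← map_pow, Complex.conj_re]
  refine ⟨R, ∑ z ∈ E, M z, u, hR1, ?_, hun, ?_, fun η hη => ?_⟩
  · exact (h.one z₀ (hE z₀ hz₀).1).trans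
      (Finset.single_le_sum (f := M) (fun z _ => h.nn z) hz₀)
  · by_cases him : z₀.im = 0
    · -- a real zero
      right
      have h1 : (u.im : ℝ) = 0 := by
        have h2 : conj z₀ = z₀ := Complex.conj_eq_iff_im.2 him
        have h3 : conj u = u := by
          rw [hu, map_div₀, Complex.conj_ofReal, ← hWc, h2]
        exact Complex.conj_eq_iff_im.1 h3
      have h2 : u.re = 1 ∨ u.re = -1 := by
        have h3 : u.re ^ 2 = 1 := by
          have h4 := Complex.sq_norm u
          rw [hun, Complex.normSq_apply, h1] at h4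
          nlinarith
        have h5 : (u.re - 1) * (u.re + 1) = 0 := by linear_combination h3
        rcases mul_eq_zero.1 h5 with h6 | h6
        · left; linarith
        · right; linarith
      rcases h2 with h2 | h2
      · exfalso
        have h3 : u = 1 := Complex.ext (by simpa using h2) (by simpa using h1)
        rw [hu, div_eq_one_iff_eq hRc] at h3
        have hne := ne_base hb0 (hE z₀ hz₀).1
        unfold W at h3
        rw [div_eq_iff hne] at h3
        have hR10 : (R : ℂ) - 1 ≠ 0 := by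
          have : R - 1 ≠ 0 := by linarith
          exact_mod_cast this
        have h4 : z₀ = -((b * (R + 1) / (R - 1) : ℝ) : ℂ) := by
          push_cast
          rw [← neg_div, eq_div_iff hR10]
          linear_combination -h3
        have h5 : b ≤ b * (R + 1) / (R - 1) := by
          rw [le_div_iff₀ (by linarith)]
          nlinarith
        apply (hE z₀ hz₀).1
        rw [h4]
        exact hreal' _ h5
      · exact Complex.ext (by simpa using h2) (by simpa using h1)
    · left
      intro k hk huk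
      apply hexc
      right
      simp only [Set.mem_iUnion]
      refine ⟨z₀, (hE z₀ hz₀).1, k, (hre z₀ hz₀).ne, him, hk, ?_⟩
      have h1 : (W b z₀) ^ k = (R : ℂ) ^ k := by
        rw [hu, div_pow, div_eq_one_iff_eq (pow_ne_zero _ hRc)] at huk
        exact huk
      have h2 : (conj (W b z₀)) ^ k = (R : ℂ) ^ k := by
        rw [← map_pow, h1, map_pow, Complex.conj_ofReal]
      rw [← hWc] at h2
      rw [← h2] at h1
      have hne := ne_base hb0 (hE z₀ hz₀).1
      have hne' : conj z₀ + b ≠ 0 := by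
        intro h0
        apply hne
        have := congrArg conj h0
        simpa using this
      unfold W at h1
      rw [div_pow, div_pow, div_eq_div_iff (pow_ne_zero _ hne) (pow_ne_zero _ hne')] at h1
      rw [mul_pow, mul_pow, h1]
      ring
  · obtain ⟨N, hN⟩ := hasym η hη
    refine ⟨N, fun n hn => ?_⟩
    have h1 := hN n hn
    rw [Finset.sum_congr rfl (fun z hz => by rw [hpow z hz n]), ← Finset.sum_mul] at h1
    exact h1

/-- growth on the critical line -/
lemma Zd.li_le (h : Zd M d) {b : ℝ} (hb : 0 < b) (hb0 : M (-(b : ℂ)) = 0)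
    (hline : ∀ z, M z ≠ 0 → z.re = 0) : ∃ C : ℝ, 0 ≤ C ∧ ∀ n : ℕ, |li M b n| ≤ C * (n : ℝ) ^ 2 := by
  obtain ⟨K, hK, hT⟩ := h.term_le hb hb0
  obtain ⟨C, hC, hCS⟩ := h.cnt
  refine ⟨K * C, by positivity, fun n => ?_⟩
  rcases Nat.eq_zero_or_pos n with rfl | hn
  · simp [li]
  have h1 : ‖li M b n‖ ≤ ∑' z : ℂ, (K * (n : ℝ) ^ 2) * (M z / (1 + |z.im|) ^ 2) := by
    unfold li
    refine tsum_of_norm_bounded (h.summable_cnt.mul_left _).hasSum fun z => ?_
    by_cases hz : M z = 0
    · simp [hz]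
    · have h6 := hT z 1 n hz le_rfl (norm_W_line (ne_base hb0 hz) (hline z hz)).le hn
      rw [norm_mul, Real.norm_eq_abs, Real.norm_eq_abs, abs_of_nonneg (h.nn z)]
      rw [one_pow, mul_one] at h6
      calc M z * |1 - (W b z ^ n).re| ≤ M z * (K * (n : ℝ) ^ 2 / (1 + |z.im|) ^ 2) :=
            mul_le_mul_of_nonneg_left h6 (h.nn z)
        _ = _ := by ring
  rw [Real.norm_eq_abs, tsum_mul_left] at h1
  refine h1.trans ?_
  calc (K * (n : ℝ) ^ 2) * ∑' z : ℂ, M z / (1 + |z.im|) ^ 2 ≤ (K * (n : ℝ) ^ 2) * C := by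
        refine mul_le_mul_of_nonneg_left ?_ (by positivity)
        exact h.summable_cnt.tsum_le_of_sum_le hCS
    _ = _ := by ring

/-- **One half.**  If one zero lies off the critical line then for a base point which is not
exceptional one half of the Li coefficients, in every progression of odd difference, are nonnegative,
and almost all are exponentially large in absolute value. -/
theorem Zd.half (h : Zd M d) {b : ℝ} (hb : 0 < b) (hreal : ∀ x : ℝ, b ≤ x → M x = 0)
    (hexc : b ∉ Exc M) (hoff : ∃ z, M z ≠ 0 ∧ z.re ≠ 0) :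
    ∃ ε : ℝ, 0 < ε ∧ ∀ q r : ℕ, Odd q →
      Tendsto (fun N : ℕ => (numb {m | 0 ≤ li M b (q * m + r)} N : ℝ) / N) atTop (𝓝 (1 / 2)) ∧
      Tendsto (fun N : ℕ => (numb {m | -Real.exp (ε * ((q * m + r : ℕ) : ℝ)) ≤ li M b (q * m + r)} N : ℝ) / N)
        atTop (𝓝 (1 / 2)) ∧
      Tendsto (fun N : ℕ => (numb {m | li M b (q * m + r) ≤ Real.exp (ε * ((q * m + r : ℕ) : ℝ))} N : ℝ) / N)
        atTop (𝓝 (1 / 2)) := by
  obtain ⟨R, μ, u, hR1, hμ, hun, hu, hasym⟩ := h.generic hb hreal hexc hoff
  have hR0 : 0 < R := by linarith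
  have hlogR : 0 < Real.log R := Real.log_pos hR1
  refine ⟨Real.log R / 2, by positivity, fun q r hq => ?_⟩
  have hq1 : 1 ≤ q := hq.pos
  -- the sequence and its properties, for both signs
  have main : ∀ (s : ℝ) (_ : s = 1 ∨ s = -1) (x : ℕ → ℝ),
      (∀ ε : ℝ, 0 < ε → ∃ N₀ : ℕ, ∀ m, N₀ ≤ m → |x m - s * (u ^ (q * m + r)).re| ≤ ε) →
      Tendsto (fun N : ℕ => (numb {m | 0 ≤ x m} N : ℝ) / N) atTop (𝓝 (1 / 2)) := by
    intro s hs x hx
    have hs1 : |s| = 1 := by rcases hs with rfl | rfl <;> simp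
    refine half_of (g := fun m => s * (u ^ (q * m + r)).re) ?_ ?_ hx
    · -- the translation
      intro ε hε
      obtain ⟨p, hp⟩ : ∃ p : ℕ, ‖(u ^ q) ^ p + 1‖ ≤ ε := by
        rcases hu with hu | hu
        · refine flip (by rw [norm_pow, hun, one_pow]) (fun k hk => ?_) hε
          rw [← pow_mul]
          exact hu _ (Nat.mul_pos hq1 hk)
        · refine ⟨1, ?_⟩
          rw [hu, hq.neg_one_pow]
          simp [hε.le]
      refine ⟨p, fun m => ?_⟩
      have e : s * (u ^ (q * (m + p) + r)).re + s * (u ^ (q * m + r)).re =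
          s * (((u ^ q) ^ p + 1) * u ^ (q * m + r)).re := by
        have : u ^ (q * (m + p) + r) = (u ^ q) ^ p * u ^ (q * m + r) := by
          rw [← pow_mul, ← pow_add]; congr 1; ring
        rw [this, add_mul, one_mul, Complex.add_re]
        ring
      rw [e, abs_mul, hs1, one_mul]
      refine (Complex.abs_re_le_norm _).trans ?_
      rw [norm_mul, norm_pow, hun, one_pow, mul_one]
      exact hp
    · -- rarely small
      intro η hη
      have e0 : ∀ m, |s * (u ^ (q * m + r)).re| = |((u ^ q) ^ m * u ^ r).re| := by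
        intro m
        rw [abs_mul, hs1, one_mul, pow_add, pow_mul]
      rcases hu with hu | hu
      · obtain ⟨ε, hε, N₀, hN₀⟩ := thin (v := u ^ q) (c := u ^ r) (by rw [norm_pow, hun, one_pow])
          (by rw [norm_pow, hun, one_pow]) (fun k hk => by
            rw [← pow_mul]
            exact hu _ (Nat.mul_pos hq1 hk)) hη
        refine ⟨ε, hε, N₀, fun N hN => ?_⟩
        have := hN₀ N hN
        simp only [e0]
        exact this
      · refine ⟨1 / 2, by norm_num, 0, fun N _ => ?_⟩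
        have h1 : {m | |s * (u ^ (q * m + r)).re| ≤ 1 / 2} = (∅ : Set ℕ) := by
          ext m
          simp only [Set.mem_setOf_eq, Set.mem_empty_iff_false, iff_false, not_le]
          rw [abs_mul, hs1, one_mul, hu]
          rcases Nat.even_or_odd (q * m + r) with he | ho
          · rw [he.neg_one_pow]; norm_num
          · rw [ho.neg_one_pow]; norm_num
        rw [h1]
        have h2 : numb (∅ : Set ℕ) N = 0 := by simp [numb]
        rw [h2, Nat.cast_zero]
        positivity
  -- the normalised sequence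
  have hnorm : ∀ ε : ℝ, 0 < ε → ∃ N₀ : ℕ, ∀ n, N₀ ≤ n → |li M b n / (μ * R ^ n) + (u ^ n).re| ≤ ε := by
    intro ε hε
    obtain ⟨N, hN⟩ := hasym ε hε
    refine ⟨N, fun n hn => ?_⟩
    have h1 := hN n hn
    have h2 : 0 < R ^ n := by positivity
    have h3 : 0 < μ * R ^ n := by positivity
    have e : li M b n / (μ * R ^ n) + (u ^ n).re = (li M b n + R ^ n * (μ * (u ^ n).re)) / (μ * R ^ n) := by
      field_simp
    rw [e, abs_div, abs_of_pos h3, div_le_iff₀ h3]
    refine h1.trans ?_
    have : R ^ n ≤ μ * R ^ n := le_mul_of_one_le_left h2.le hμ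
    gcongr
  -- the small correction
  have hsmall : ∀ ε : ℝ, 0 < ε → ∃ N₀ : ℕ, ∀ n : ℕ, N₀ ≤ n →
      |Real.exp (Real.log R / 2 * (n : ℝ)) / (μ * R ^ n)| ≤ ε := by
    intro ε hε
    have h1 : Tendsto (fun n : ℕ => Real.exp (-(Real.log R / 2) * (n : ℝ))) atTop (𝓝 0) := by
      apply Real.tendsto_exp_atBot.comp
      exact (tendsto_natCast_atTop_atTop (R := ℝ)).const_mul_atTop_of_neg (by linarith)
    obtain ⟨N, hN⟩ := eventually_atTop.1 (h1.eventually_lt_const hε)
    refine ⟨N, fun n hn => ?_⟩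
    have h2 : 0 < R ^ n := by positivity
    have h3 : 0 < μ * R ^ n := by positivity
    rw [abs_of_pos (by positivity), div_le_iff₀ h3]
    have h4 : Real.exp (Real.log R / 2 * (n : ℝ)) = Real.exp (-(Real.log R / 2) * (n : ℝ)) * R ^ n := by
      have h5 : R ^ n = Real.exp (Real.log R * n) := by
        rw [← Real.rpow_natCast, Real.rpow_def_of_pos hR0]
      rw [h5, ← Real.exp_add]
      congr 1
      ring
    rw [h4]
    have h6 := hN n hn
    have h7 : R ^ n ≤ μ * R ^ n := le_mul_of_one_le_left h2.le hμ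
    calc Real.exp (-(Real.log R / 2) * (n : ℝ)) * R ^ n ≤ ε * R ^ n := by gcongr
      _ ≤ ε * (μ * R ^ n) := by gcongr
  have hprog : ∀ {N₀ m : ℕ}, N₀ ≤ m → N₀ ≤ q * m + r := by
    intro N₀ m hm
    have : m ≤ q * m := Nat.le_mul_of_pos_left m hq1
    omega
  refine ⟨?_, ?_, ?_⟩
  · have h1 := main (-1) (Or.inr rfl) (fun m => li M b (q * m + r) / (μ * R ^ (q * m + r))) (fun ε hε => by
      obtain ⟨N₀, hN₀⟩ := hnorm ε hε
      refine ⟨N₀, fun m hm => ?_⟩
      rw [neg_one_mul, sub_neg_eq_add]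
      exact hN₀ _ (hprog hm))
    have e : {m : ℕ | 0 ≤ li M b (q * m + r) / (μ * R ^ (q * m + r))} = {m | 0 ≤ li M b (q * m + r)} := by
      ext m
      have h3 : 0 < μ * R ^ (q * m + r) := by positivity
      simp only [Set.mem_setOf_eq]
      rw [le_div_iff₀ h3, zero_mul]
    rw [e] at h1
    exact h1
  · have h1 := main (-1) (Or.inr rfl) (fun m => (li M b (q * m + r) +
        Real.exp (Real.log R / 2 * ((q * m + r : ℕ) : ℝ))) / (μ * R ^ (q * m + r))) (fun ε hε => by
      obtain ⟨N₀, hN₀⟩ := hnorm (ε / 2) (by positivity)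
      obtain ⟨N₁, hN₁⟩ := hsmall (ε / 2) (by positivity)
      refine ⟨max N₀ N₁, fun m hm => ?_⟩
      have a1 := hN₀ _ (hprog ((le_max_left _ _).trans hm))
      have a2 := hN₁ _ (hprog ((le_max_right _ _).trans hm))
      rw [add_div, neg_one_mul, sub_neg_eq_add]
      calc |li M b (q * m + r) / (μ * R ^ (q * m + r)) +
            Real.exp (Real.log R / 2 * ((q * m + r : ℕ) : ℝ)) / (μ * R ^ (q * m + r)) + (u ^ (q * m + r)).re|
          = |(li M b (q * m + r) / (μ * R ^ (q * m + r)) + (u ^ (q * m + r)).re) +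
            Real.exp (Real.log R / 2 * ((q * m + r : ℕ) : ℝ)) / (μ * R ^ (q * m + r))| := by
            congr 1; ring
        _ ≤ _ := (abs_add_le _ _).trans (by linarith))
    have e : {m : ℕ | 0 ≤ (li M b (q * m + r) +
        Real.exp (Real.log R / 2 * ((q * m + r : ℕ) : ℝ))) / (μ * R ^ (q * m + r))} =
        {m | -Real.exp (Real.log R / 2 * ((q * m + r : ℕ) : ℝ)) ≤ li M b (q * m + r)} := by
      ext m
      have h3 : 0 < μ * R ^ (q * m + r) := by positivity
      simp only [Set.mem_setOf_eq]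
      rw [le_div_iff₀ h3, zero_mul]
      constructor <;> intro h <;> linarith
    rw [e] at h1
    exact h1
  · have h1 := main 1 (Or.inl rfl) (fun m => (Real.exp (Real.log R / 2 * ((q * m + r : ℕ) : ℝ)) -
        li M b (q * m + r)) / (μ * R ^ (q * m + r))) (fun ε hε => by
      obtain ⟨N₀, hN₀⟩ := hnorm (ε / 2) (by positivity)
      obtain ⟨N₁, hN₁⟩ := hsmall (ε / 2) (by positivity)
      refine ⟨max N₀ N₁, fun m hm => ?_⟩
      have a1 := hN₀ _ (hprog ((le_max_left _ _).trans hm))
      have a2 := hN₁ _ (hprog ((le_max_right _ _).trans hm))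
      rw [sub_div, one_mul]
      calc |Real.exp (Real.log R / 2 * ((q * m + r : ℕ) : ℝ)) / (μ * R ^ (q * m + r)) -
            li M b (q * m + r) / (μ * R ^ (q * m + r)) - (u ^ (q * m + r)).re|
          = |Real.exp (Real.log R / 2 * ((q * m + r : ℕ) : ℝ)) / (μ * R ^ (q * m + r)) -
            (li M b (q * m + r) / (μ * R ^ (q * m + r)) + (u ^ (q * m + r)).re)| := by
            congr 1; ring
        _ ≤ _ := (abs_sub _ _).trans (by linarith))
    have e : {m : ℕ | 0 ≤ (Real.exp (Real.log R / 2 * ((q * m + r : ℕ) : ℝ)) -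
        li M b (q * m + r)) / (μ * R ^ (q * m + r))} =
        {m | li M b (q * m + r) ≤ Real.exp (Real.log R / 2 * ((q * m + r : ℕ) : ℝ))} := by
      ext m
      have h3 : 0 < μ * R ^ (q * m + r) := by positivity
      simp only [Set.mem_setOf_eq]
      rw [le_div_iff₀ h3, zero_mul]
      constructor <;> intro h <;> linarith
    rw [e] at h1
    exact h1

end Pool.Agent.N793.LI
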