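import Pool.Agent.N793.LI.Fin
import Pool.Agent.N793.LI.Half

/-!
# The proportion of the nonnegative Li coefficients, in terms of the completed function
-/

set_option autoImplicit false

open Complex Filter Topology Finset
open scoped ComplexConjugate

namespace Pool.Agent.N793.LI

/-- the proportion of the elements of `A` among `0, …, N - 1` -/
noncomputable def prp (A : Set ℕ) (N : ℕ) : ℝ := ((A ∩ Set.Iio N).ncard : ℝ) / N

/-- natural density -/
def Dens (A : Set ℕ) (δ : ℝ) : Prop := Tendsto (prp A) atTop (𝓝 δ)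

lemma numb_eq (A : Set ℕ) (N : ℕ) : (A ∩ Set.Iio N).ncard = numb A N := by
  classical
  have h : A ∩ Set.Iio N = (((range N).filter (· ∈ A) : Finset ℕ) : Set ℕ) := by
    ext m
    simp [and_comm]
  rw [h, Set.ncard_coe_finset]
  unfold numb
  congr

lemma prp_eq (A : Set ℕ) (N : ℕ) : prp A N = (numb A N : ℝ) / N := by
  unfold prp
  rw [numb_eq]

lemma dens_iff {A : Set ℕ} {δ : ℝ} :
    Dens A δ ↔ Tendsto (fun N : ℕ => (numb A N : ℝ) / N) atTop (𝓝 δ) := by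
  unfold Dens
  have : prp A = fun N : ℕ => (numb A N : ℝ) / N := funext fun N => prp_eq A N
  rw [this]

lemma prp_one {A : Set ℕ} {m : ℕ} (h : ∀ n, m ≤ n → n ∈ A) : Dens A 1 := by
  rw [dens_iff, Metric.tendsto_atTop]
  intro ε hε
  obtain ⟨N₀, hN₀⟩ := exists_nat_gt (m / ε)
  refine ⟨max N₀ 1, fun N hN => ?_⟩
  have h1 : numb Aᶜ N ≤ m := by
    classical
    unfold numb
    refine (card_le_card (t := range m) fun x hx => ?_).trans (by rw [card_range])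
    simp only [mem_filter] at hx
    rw [mem_range]
    by_contra hc
    exact hx.2 (h x (not_lt.1 hc))
  have h2 := numb_compl A N
  have h3 := numb_le A N
  have hN1 : (0 : ℝ) < N := by
    have : 1 ≤ N := (le_max_right _ _).trans hN
    exact_mod_cast this
  have h4 : (N : ℝ) - m ≤ numb A N := by
    have : N ≤ numb A N + m := by omega
    have h5 : (N : ℝ) ≤ numb A N + m := by exact_mod_cast this
    linarith
  have h5 : (numb A N : ℝ) ≤ N := by exact_mod_cast h3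
  have h6 : (m : ℝ) < ε * N := by
    rw [div_lt_iff₀ hε] at hN₀
    have : (N₀ : ℝ) ≤ N := by exact_mod_cast (le_max_left _ _).trans hN
    nlinarith
  rw [Real.dist_eq, abs_lt]
  constructor
  · have : 1 - ε < (numb A N : ℝ) / N := by
      rw [lt_div_iff₀ hN1]
      linarith
    linarith
  · have : (numb A N : ℝ) / N ≤ 1 := by
      rw [div_le_one hN1]
      exact h5
    linarith

lemma freq_of_dens {A : Set ℕ} {δ κ : ℝ} (h : Dens A δ) (hκ : κ < δ) :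
    ∃ᶠ N in atTop, κ ≤ prp A N :=
  ((h.eventually_const_lt hκ).mono fun _ h => h.le).frequently

lemma not_freq_of_dens {A : Set ℕ} {δ κ : ℝ} (h : Dens A δ) (hκ : δ < κ) :
    ¬ ∃ᶠ N in atTop, κ ≤ prp A N := by
  rw [not_frequently]
  exact (h.eventually_lt_const hκ).mono fun _ h => not_le.2 h

/-- the conclusions -/
structure HalfC (Λ : ℂ → ℂ) (c a : ℝ) : Prop where
  all : OnLine Λ c → ∀ n : ℕ, 0 ≤ lam Λ c a n
  half : ¬ OnLine Λ c → ∃ ε : ℝ, 0 < ε ∧ ∀ q r : ℕ, Odd q →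
    Dens {m | 0 ≤ lam Λ c a (q * m + r)} (1 / 2) ∧
    Dens {m | -Real.exp (ε * ((q * m + r : ℕ) : ℝ)) ≤ lam Λ c a (q * m + r)} (1 / 2) ∧
    Dens {m | lam Λ c a (q * m + r) ≤ Real.exp (ε * ((q * m + r : ℕ) : ℝ))} (1 / 2)
  more : ∀ q r : ℕ, Odd q → (OnLine Λ c ↔
    ∃ δ : ℝ, 0 < δ ∧ ∃ᶠ N in atTop, 1 / 2 + δ ≤ prp {m | 0 ≤ lam Λ c a (q * m + r)} N)
  weak : ∀ q r : ℕ, Odd q → (OnLine Λ c ↔ ∀ ε : ℝ, 0 < ε →
    ∃ δ : ℝ, 0 < δ ∧ ∃ᶠ N in atTop, 1 / 2 + δ ≤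
      prp {m | -Real.exp (ε * ((q * m + r : ℕ) : ℝ)) ≤ lam Λ c a (q * m + r)} N)
  upper : ∀ q r : ℕ, Odd q → (OnLine Λ c ↔ ∀ ε : ℝ, 0 < ε →
    ∃ δ : ℝ, 0 < δ ∧ ∃ᶠ N in atTop, 1 / 2 + δ ≤
      prp {m | lam Λ c a (q * m + r) ≤ Real.exp (ε * ((q * m + r : ℕ) : ℝ))} N)
  small : ∀ q r : ℕ, Odd q → (OnLine Λ c ↔ ∀ ε : ℝ, 0 < ε →
    ¬ Dens {m | |lam Λ c a (q * m + r)| ≤ Real.exp (ε * ((q * m + r : ℕ) : ℝ))} 0)

theorem half_concl {Λ : ℂ → ℂ} {c d : ℝ} (h : Sf (fun z => Λ (c + z)) d) :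
    ∃ X : Set ℝ, X.Countable ∧ ∀ a : ℝ, c < a → a ∉ X → (∀ x : ℝ, a ≤ x → Λ x ≠ 0) → HalfC Λ c a := by
  classical
  have hzd := h.zd
  set M : ℂ → ℝ := fun z => (analyticOrderNatAt (fun z => Λ (c + z)) z : ℝ) with hM
  have hMeq : ∀ z, M z = (analyticOrderNatAt Λ (c + z) : ℝ) := by
    intro z
    rw [hM]
    simp only
    rw [order_shift]
  have hM0 : ∀ z, M z ≠ 0 ↔ Λ (c + z) = 0 := by
    intro z
    have := h.ord_ne (z := z)
    rw [hM]
    simp only [ne_eq, Nat.cast_eq_zero]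
    exact this
  refine ⟨(fun b => c + b) '' Exc M, hzd.exc_countable.image _, fun a hca haX hax => ?_⟩
  set b : ℝ := a - c with hb
  have hb0 : 0 < b := by rw [hb]; linarith
  have hexc : b ∉ Exc M := by
    intro hbe
    apply haX
    exact ⟨b, hbe, by rw [hb]; ring⟩
  have hreal : ∀ x : ℝ, b ≤ x → M x = 0 := by
    intro x hx
    by_contra h2
    have h3 := (hM0 _).1 h2
    have h4 := hax (c + x) (by rw [hb] at hx; linarith)
    apply h4
    push_cast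
    exact h3
  have hMb' : M (-(b : ℂ)) = 0 := by
    have h1 := hzd.refl (b : ℂ)
    rw [Complex.conj_ofReal] at h1
    rw [h1]
    exact hreal b le_rfl
  have hW : ∀ ρ : ℂ, (ρ - a) / (ρ + a - 2 * c) = W b (ρ - c) := by
    intro ρ
    unfold W
    rw [hb]
    push_cast
    congr 1 <;> ring
  have hterm : ∀ n : ℕ, (fun ρ : ℂ => (analyticOrderNatAt Λ ρ : ℝ) *
      (1 - (((ρ - a) / (ρ + a - 2 * c)) ^ n).re)) =
      (fun z : ℂ => M z * (1 - (W b z ^ n).re)) ∘ (Equiv.subRight (c : ℂ)) := by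
    intro n
    funext ρ
    simp only [Function.comp_apply, Equiv.subRight_apply]
    rw [hW, hMeq, add_sub_cancel]
  have hlam : ∀ n : ℕ, lam Λ c a n = li M b n := by
    intro n
    unfold lam li
    rw [hterm n]
    exact (Equiv.subRight (c : ℂ)).tsum_eq (fun z : ℂ => M z * (1 - (W b z ^ n).re))
  have hlam' : lam Λ c a = li M b := funext hlam
  have hline : OnLine Λ c ↔ ∀ z, M z ≠ 0 → z.re = 0 := by
    constructor
    · intro h1 z hz
      have h2 := h1 (c + z) ((hM0 z).1 hz)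
      rw [add_re, Complex.ofReal_re] at h2
      linarith
    · intro h1 s hs
      have h2 := h1 (s - c) ((hM0 _).2 (by rwa [add_sub_cancel]))
      rw [sub_re, Complex.ofReal_re] at h2
      linarith
  have hoff : ¬ OnLine Λ c → ∃ z, M z ≠ 0 ∧ z.re ≠ 0 := by
    intro h1
    rw [hline] at h1
    push Not at h1
    exact h1
  have hall : OnLine Λ c → ∀ n : ℕ, 0 ≤ lam Λ c a n := by
    intro h1 n
    rw [hlam]
    exact hzd.li_nonneg hMb' (hline.1 h1) n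
  have hhalf : ¬ OnLine Λ c → ∃ ε : ℝ, 0 < ε ∧ ∀ q r : ℕ, Odd q →
      Dens {m | 0 ≤ lam Λ c a (q * m + r)} (1 / 2) ∧
      Dens {m | -Real.exp (ε * ((q * m + r : ℕ) : ℝ)) ≤ lam Λ c a (q * m + r)} (1 / 2) ∧
      Dens {m | lam Λ c a (q * m + r) ≤ Real.exp (ε * ((q * m + r : ℕ) : ℝ))} (1 / 2) := by
    intro h1
    obtain ⟨ε, hε, h2⟩ := hzd.half hb0 hreal hexc (hoff h1)
    refine ⟨ε, hε, fun q r hq => ?_⟩
    obtain ⟨h3, h4, h5⟩ := h2 q r hq
    rw [hlam', dens_iff, dens_iff, dens_iff]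
    exact ⟨h3, h4, h5⟩
  -- growth on the line
  have hgrow : OnLine Λ c → ∀ ε : ℝ, 0 < ε → ∀ q r : ℕ, Odd q → ∃ m₀ : ℕ, ∀ m, m₀ ≤ m →
      |lam Λ c a (q * m + r)| ≤ Real.exp (ε * ((q * m + r : ℕ) : ℝ)) := by
    intro h1 ε hε q r hq
    obtain ⟨C, hC, hCn⟩ := hzd.li_le hb0 hMb' (hline.1 h1)
    have h2 : Tendsto (fun n : ℕ => C * ((n : ℝ) ^ 2 * Real.exp (-ε) ^ n)) atTop (𝓝 (C * 0)) := by
      refine Tendsto.const_mul _ (tendsto_pow_const_mul_const_pow_of_abs_lt_one 2 ?_)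
      rw [abs_of_pos (Real.exp_pos _), Real.exp_lt_one_iff]
      linarith
    rw [mul_zero] at h2
    obtain ⟨N, hN⟩ := eventually_atTop.1 (h2.eventually_lt_const one_pos)
    refine ⟨N, fun m hm => ?_⟩
    have hq1 : 1 ≤ q := hq.pos
    have h3 : N ≤ q * m + r := by
      have : m ≤ q * m := Nat.le_mul_of_pos_left m hq1
      omega
    have h4 := hN _ h3
    rw [hlam]
    refine (hCn _).trans ?_
    have h5 : Real.exp (ε * ((q * m + r : ℕ) : ℝ)) * Real.exp (-ε) ^ (q * m + r) = 1 := by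
      rw [← Real.exp_nat_mul, ← Real.exp_add, ← Real.exp_zero]
      congr 1
      ring
    have h6 : 0 < Real.exp (ε * ((q * m + r : ℕ) : ℝ)) := Real.exp_pos _
    calc C * ((q * m + r : ℕ) : ℝ) ^ 2
        = (C * (((q * m + r : ℕ) : ℝ) ^ 2 * Real.exp (-ε) ^ (q * m + r))) *
            Real.exp (ε * ((q * m + r : ℕ) : ℝ)) := by
          linear_combination (-(C * ((q * m + r : ℕ) : ℝ) ^ 2)) * h5
      _ ≤ 1 * Real.exp (ε * ((q * m + r : ℕ) : ℝ)) := by gcongr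
      _ = _ := one_mul _
  refine ⟨hall, hhalf, fun q r hq => ⟨fun h1 => ?_, fun h1 => ?_⟩, fun q r hq => ⟨fun h1 ε hε => ?_, fun h1 => ?_⟩,
    fun q r hq => ⟨fun h1 ε hε => ?_, fun h1 => ?_⟩, fun q r hq => ⟨fun h1 ε hε h2 => ?_, fun h1 => ?_⟩⟩
  · refine ⟨1 / 4, by norm_num, freq_of_dens (prp_one (m := 0) fun n _ => hall h1 _) (by norm_num)⟩
  · obtain ⟨δ, hδ, h2⟩ := h1
    by_contra hn
    obtain ⟨ε, hε, h3⟩ := hhalf hn
    exact not_freq_of_dens (h3 q r hq).1 (by linarith) h2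
  · refine ⟨1 / 4, by norm_num, freq_of_dens (prp_one (m := 0) fun n _ => ?_) (by norm_num)⟩
    have := hall h1 (q * n + r)
    have h3 := Real.exp_pos (ε * ((q * n + r : ℕ) : ℝ))
    show -Real.exp (ε * ((q * n + r : ℕ) : ℝ)) ≤ lam Λ c a (q * n + r)
    linarith
  · by_contra hn
    obtain ⟨ε, hε, h3⟩ := hhalf hn
    obtain ⟨δ, hδ, h2⟩ := h1 ε hε
    exact not_freq_of_dens (h3 q r hq).2.1 (by linarith) h2
  · obtain ⟨m₀, hm₀⟩ := hgrow h1 ε hε q r hq
    exact ⟨1 / 4, by norm_num, freq_of_dens (prp_one (m := m₀) fun n hn => (abs_le.1 (hm₀ n hn)).2)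
      (by norm_num)⟩
  · by_contra hn
    obtain ⟨ε, hε, h3⟩ := hhalf hn
    obtain ⟨δ, hδ, h2⟩ := h1 ε hε
    exact not_freq_of_dens (h3 q r hq).2.2 (by linarith) h2
  · obtain ⟨m₀, hm₀⟩ := hgrow h1 ε hε q r hq
    have h3 : Dens {m | |lam Λ c a (q * m + r)| ≤ Real.exp (ε * ((q * m + r : ℕ) : ℝ))} 1 :=
      prp_one (m := m₀) fun n hn => hm₀ n hn
    have h4 := tendsto_nhds_unique h2 h3
    norm_num at h4
  · by_contra hn
    obtain ⟨ε, hε, h3⟩ := hhalf hn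
    apply h1 ε hε
    obtain ⟨-, h4, h5⟩ := h3 q r hq
    rw [dens_iff] at h4 h5 ⊢
    have h6 : Tendsto (fun N : ℕ => (numb {m | -Real.exp (ε * ((q * m + r : ℕ) : ℝ)) ≤ lam Λ c a (q * m + r)} N : ℝ) / N +
        (numb {m | lam Λ c a (q * m + r) ≤ Real.exp (ε * ((q * m + r : ℕ) : ℝ))} N : ℝ) / N - 1) atTop
        (𝓝 (1 / 2 + 1 / 2 - 1)) := (h4.add h5).sub_const 1
    have e : (1 / 2 + 1 / 2 - 1 : ℝ) = 0 := by norm_num
    rw [e] at h6
    refine h6.congr' ?_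
    filter_upwards [eventually_ge_atTop 1] with N hN
    have h7 := numb_inter {m | -Real.exp (ε * ((q * m + r : ℕ) : ℝ)) ≤ lam Λ c a (q * m + r)}
      {m | lam Λ c a (q * m + r) ≤ Real.exp (ε * ((q * m + r : ℕ) : ℝ))} (fun m => by
        rcases le_total 0 (lam Λ c a (q * m + r)) with h | h
        · left
          have := Real.exp_pos (ε * ((q * m + r : ℕ) : ℝ))
          show -Real.exp (ε * ((q * m + r : ℕ) : ℝ)) ≤ lam Λ c a (q * m + r)
          linarith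
        · right
          have := Real.exp_pos (ε * ((q * m + r : ℕ) : ℝ))
          show lam Λ c a (q * m + r) ≤ Real.exp (ε * ((q * m + r : ℕ) : ℝ))
          linarith) N
    have h8 : {m : ℕ | -Real.exp (ε * ((q * m + r : ℕ) : ℝ)) ≤ lam Λ c a (q * m + r)} ∩
        {m | lam Λ c a (q * m + r) ≤ Real.exp (ε * ((q * m + r : ℕ) : ℝ))} =
        {m | |lam Λ c a (q * m + r)| ≤ Real.exp (ε * ((q * m + r : ℕ) : ℝ))} := by
      ext m
      simp only [Set.mem_inter_iff, Set.mem_setOf_eq, abs_le]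
    rw [h8] at h7
    have hNR : (0 : ℝ) < N := by exact_mod_cast hN
    have h9 : (numb {m | |lam Λ c a (q * m + r)| ≤ Real.exp (ε * ((q * m + r : ℕ) : ℝ))} N : ℝ) + N =
        numb {m | -Real.exp (ε * ((q * m + r : ℕ) : ℝ)) ≤ lam Λ c a (q * m + r)} N +
        numb {m | lam Λ c a (q * m + r) ≤ Real.exp (ε * ((q * m + r : ℕ) : ℝ))} N := by exact_mod_cast h7
    field_simp
    linarith

/-- the criterion with uncountably many base points -/
theorem uncountable_iff {Λ : ℂ → ℂ} {c d σ : ℝ} (h : Sf (fun z => Λ (c + z)) d) (hσ : c ≤ σ)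
    (hz : ∀ x : ℝ, σ < x → Λ x ≠ 0) :
    OnLine Λ c ↔ ¬ {a : ℝ | σ < a ∧ ∃ δ : ℝ, 0 < δ ∧
      ∃ᶠ N in atTop, 1 / 2 + δ ≤ prp {n | 0 ≤ lam Λ c a n} N}.Countable := by
  obtain ⟨X, hX, hXa⟩ := half_concl h
  have key : ∀ a, σ < a → a ∉ X → (OnLine Λ c ↔ ∃ δ : ℝ, 0 < δ ∧
      ∃ᶠ N in atTop, 1 / 2 + δ ≤ prp {n | 0 ≤ lam Λ c a n} N) := by
    intro a ha haX
    have h1 := (hXa a (lt_of_le_of_lt hσ ha) haX (fun x hx => hz x (lt_of_lt_of_le ha hx))).more 1 0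
      odd_one
    simpa using h1
  constructor
  · intro h1 h2
    have h3 : (Set.Ioi σ).Countable := by
      refine (h2.union hX).mono fun a ha => ?_
      by_cases haX : a ∈ X
      · exact Or.inr haX
      · exact Or.inl ⟨ha, (key a ha haX).1 h1⟩
    have h4 := Cardinal.le_aleph0_iff_set_countable.2 h3
    rw [Cardinal.mk_Ioi_real] at h4
    exact absurd h4 (not_le.2 Cardinal.aleph0_lt_continuum)
  · intro h1
    by_contra hn
    apply h1
    refine hX.mono fun a ha => ?_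
    by_contra haX
    exact hn ((key a ha.1 haX).2 ha.2)

end Pool.Agent.N793.LI
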