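import Pool.Agent.R289.Kron2

/-!
# Kronecker's theorem for finitely many independent points of the unit circle
-/

set_option autoImplicit false

open Finset

namespace Pool.Agent.N793.LI

open Pool.Agent.R289.Kron2 in
/-- finitely many independent points of the circle have jointly dense powers -/
theorem kro_fin {ι : Type} [Fintype ι] {v : ι → ℂ} (hv : ∀ i, ‖v i‖ = 1)
    (hind : ∀ n : ι → ℤ, ∏ i, v i ^ n i = 1 → n = 0) {a : ι → ℂ} (ha : ∀ i, ‖a i‖ = 1)
    {ε : ℝ} (hε : 0 < ε) (N : ℕ) : ∃ k : ℕ, N ≤ k ∧ ∀ i, ‖v i ^ k - a i‖ < ε := by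
  classical
  have key : ∀ a : ι → ℂ, (∀ i, ‖a i‖ = 1) → ∃ k : ℕ, ∀ i, ‖v i ^ k - a i‖ < ε := by
    intro a ha
    have hpi : (0 : ℝ) < 2 * Real.pi := by positivity
    have hpi' : (2 * (Real.pi : ℂ)) ≠ 0 := by exact_mod_cast hpi.ne'
    -- angles
    let an : ℂ → ℝ := fun z => z.arg / (2 * Real.pi)
    have han : ∀ z : ℂ, ‖z‖ = 1 → Complex.exp (2 * Real.pi * Complex.I * (an z : ℝ)) = z := by
      intro z hz
      have h1 : (2 * Real.pi * Complex.I * ((an z : ℝ) : ℂ)) = z.arg * Complex.I := by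
        simp only [an]
        push_cast
        field_simp
      rw [h1]
      have h2 := Complex.norm_mul_exp_arg_mul_I z
      rw [hz, Complex.ofReal_one, one_mul] at h2
      exact h2
    have hcirc : ∀ (t : ℝ), ((AddCircle.toCircle (t : UnitAddCircle) : Circle) : ℂ) =
        Complex.exp (2 * Real.pi * Complex.I * (t : ℝ)) := by
      intro t
      rw [AddCircle.toCircle_apply_mk, Circle.coe_exp]
      congr 1
      push_cast
      ring
    let ω : ι → ℝ := fun i => an (v i)
    have hω : ∀ n : ι → ℤ, ∀ m : ℤ, ∑ i, (n i : ℝ) * ω i = m → n = 0 := by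
      intro n m h
      apply hind
      have h1 : ∀ i, v i ^ n i = Complex.exp ((n i : ℂ) * (2 * Real.pi * Complex.I * (ω i : ℝ))) := by
        intro i
        rw [Complex.exp_int_mul, han _ (hv i)]
      rw [Finset.prod_congr rfl fun i _ => h1 i, ← Complex.exp_sum]
      have h2 : ∑ i, (n i : ℂ) * (2 * Real.pi * Complex.I * (ω i : ℝ)) =
          (m : ℂ) * (2 * Real.pi * Complex.I) := by
        have h4 : ∑ i, (n i : ℂ) * (ω i : ℝ) = (m : ℂ) := by exact_mod_cast h
        rw [← h4, Finset.sum_mul]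
        refine Finset.sum_congr rfl fun i _ => ?_
        ring
      rw [h2]
      exact Complex.exp_int_mul_two_pi_mul_I m
    let U : Set (UnitAddTorus ι) := ⋂ i, {y | ‖((AddCircle.toCircle (y i) : Circle) : ℂ) - a i‖ < ε}
    have hcont : ∀ i : ι, Continuous fun y : UnitAddTorus ι =>
        ((AddCircle.toCircle (y i) : Circle) : ℂ) := by
      intro i
      exact continuous_subtype_val.comp (AddCircle.continuous_toCircle.comp (continuous_apply i))
    have hU : IsOpen U := by
      refine isOpen_iInter_of_finite fun i => ?_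
      exact isOpen_lt ((hcont i).sub continuous_const).norm continuous_const
    have hx : (fun i => ((an (a i) : ℝ) : UnitAddCircle)) ∈ U := by
      rw [Set.mem_iInter]
      intro i
      show ‖((AddCircle.toCircle ((an (a i) : ℝ) : UnitAddCircle) : Circle) : ℂ) - a i‖ < ε
      rw [hcirc, han _ (ha i), sub_self, norm_zero]
      exact hε
    obtain ⟨k, hk⟩ := kronecker hω hU hx
    rw [Set.mem_iInter] at hk
    refine ⟨k, fun i => ?_⟩
    have h1 : ((AddCircle.toCircle (orb ω k i) : Circle) : ℂ) = v i ^ k := by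
      show ((AddCircle.toCircle ((k * an (v i) : ℝ) : UnitAddCircle) : Circle) : ℂ) = v i ^ k
      rw [hcirc]
      conv_rhs => rw [← han _ (hv i)]
      rw [← Complex.exp_nat_mul]
      congr 1
      push_cast
      ring
    have h2 := hk i
    rw [Set.mem_ofPred_eq, h1] at h2
    exact h2
  have hv0 : ∀ i, v i ≠ 0 := by
    intro i h
    have := hv i
    rw [h, norm_zero] at this
    norm_num at this
  obtain ⟨k, hk⟩ := key (fun i => a i * (v i ^ N)⁻¹) fun i => by
    rw [norm_mul, norm_inv, norm_pow, hv, ha]; simp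
  refine ⟨k + N, by omega, fun i => ?_⟩
  have h1 : v i ^ (k + N) - a i = (v i ^ k - a i * (v i ^ N)⁻¹) * v i ^ N := by
    rw [sub_mul, pow_add, mul_assoc, inv_mul_cancel₀ (pow_ne_zero _ (hv0 i)), mul_one]
  rw [h1, norm_mul, norm_pow, hv, one_pow, mul_one]
  exact hk i

/-- the same for a finite set of labels, along the multiples of `q` in a class modulo two -/
theorem kro_set (Y : Finset ℂ) {v : ℂ → ℂ} (hv : ∀ y ∈ Y, ‖v y‖ = 1)
    (hind : ∀ n : ℂ → ℤ, ∏ y ∈ Y, v y ^ n y = 1 → ∀ y ∈ Y, n y = 0) {q : ℕ} (hq : 1 ≤ q) (e : ℕ)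
    {a : ℂ → ℂ} (ha : ∀ y ∈ Y, ‖a y‖ = 1) {ε : ℝ} (hε : 0 < ε) (N : ℕ) :
    ∃ k : ℕ, N ≤ k ∧ ∀ y ∈ Y, ‖v y ^ (q * (2 * k + e)) - a y‖ < ε := by
  classical
  have hv0 : ∀ y ∈ Y, v y ≠ 0 := by
    intro y hy h
    have := hv y hy
    rw [h, norm_zero] at this
    norm_num at this
  obtain ⟨k, hk1, hk2⟩ := kro_fin (ι := Y) (v := fun y => v y ^ (2 * q))
    (fun y => by rw [norm_pow, hv y y.2, one_pow]) (fun n hn => by
      set n' : ℂ → ℤ := fun y => if h : y ∈ Y then 2 * q * n ⟨y, h⟩ else 0 with hn'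
      have h1 : ∏ y ∈ Y, v y ^ n' y = 1 := by
        rw [← Finset.prod_coe_sort, ← hn]
        refine Finset.prod_congr rfl fun y _ => ?_
        rw [hn']
        simp only [y.2, dite_true]
        rw [zpow_mul]
        norm_cast
      have h2 := hind n' h1
      funext y
      have h3 := h2 y y.2
      rw [hn'] at h3
      simp only [y.2, dite_true] at h3
      have h4 : (2 * q : ℤ) ≠ 0 := by positivity
      exact (mul_eq_zero.1 h3).resolve_left h4)
    (a := fun y => a y * (v y ^ (q * e))⁻¹) (fun y => by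
      rw [norm_mul, norm_inv, norm_pow, hv y y.2, ha y y.2]; simp) hε N
  refine ⟨k, hk1, fun y hy => ?_⟩
  have h1 := hk2 ⟨y, hy⟩
  have h2 : v y ^ (q * (2 * k + e)) - a y = ((v y ^ (2 * q)) ^ k - a y * (v y ^ (q * e))⁻¹) * v y ^ (q * e) := by
    rw [sub_mul, mul_assoc, inv_mul_cancel₀ (pow_ne_zero _ (hv0 y hy)), mul_one, ← pow_mul, ← pow_add]
    congr 2
    ring
  rw [h2, norm_mul, norm_pow, hv y hy, one_pow, mul_one]
  exact h1

end Pool.Agent.N793.LI
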