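import Pool.Agent.N793.LI.Half
import Pool.Agent.N793.LI.Kro

/-!
# For all but countably many base points the numbers `W b z` of the zeros on the line are independent
-/

set_option autoImplicit false

open Complex Filter Topology Finset
open scoped ComplexConjugate

namespace Pool.Agent.N793.LI

/-- the base points for which a product of powers of the numbers `W b z` is one -/
def Rel (n : ℂ →₀ ℤ) : Set ℝ :=
  {b | n ≠ 0 ∧ (∀ z ∈ n.support, z.re = 0 ∧ 0 < z.im) ∧ ∏ z ∈ n.support, W b z ^ n z = 1}

lemma zpow_split {x : ℂ} (hx : x ≠ 0) (n : ℤ) : x ^ n = x ^ n.toNat / x ^ (-n).toNat := by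
  have h : n = (n.toNat : ℤ) - ((-n).toNat : ℤ) := by omega
  conv_lhs => rw [h]
  rw [zpow_sub₀ hx, zpow_natCast, zpow_natCast]

open Polynomial in
lemma rel_countable (n : ℂ →₀ ℤ) : (Rel n).Countable := by
  by_cases hn : n ≠ 0 ∧ (∀ z ∈ n.support, z.re = 0 ∧ 0 < z.im)
  · obtain ⟨h0, h1⟩ := hn
    set P : ℂ[X] := ∏ z ∈ n.support, ((C z - X) ^ (n z).toNat * (C z + X) ^ (-n z).toNat) -
      ∏ z ∈ n.support, ((C z + X) ^ (n z).toNat * (C z - X) ^ (-n z).toNat) with hP
    have hev : ∀ x : ℂ, P.eval x = ∏ z ∈ n.support, ((z - x) ^ (n z).toNat * (z + x) ^ (-n z).toNat) -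
        ∏ z ∈ n.support, ((z + x) ^ (n z).toNat * (z - x) ^ (-n z).toNat) := by
      intro x
      rw [hP]
      simp only [eval_sub, eval_prod, eval_mul, eval_pow, eval_add, eval_C, eval_X]
    have hPne : P ≠ 0 := by
      intro hP0
      obtain ⟨z₀, hz₀⟩ := Finsupp.support_nonempty_iff.2 h0
      have h4 : P.eval z₀ = 0 := by rw [hP0, eval_zero]
      rw [hev] at h4
      have hplus : ∀ z ∈ n.support, z + z₀ ≠ 0 := by
        intro z hz hc
        have h5 := congrArg Complex.im hc
        rw [add_im, zero_im] at h5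
        linarith [(h1 z hz).2, (h1 z₀ hz₀).2]
      have hminus : ∀ z, z ≠ z₀ → z - z₀ ≠ 0 := fun z hz => sub_ne_zero.2 hz
      have hnz : n z₀ ≠ 0 := Finsupp.mem_support_iff.1 hz₀
      rcases lt_or_gt_of_ne hnz with hneg | hpos
      · have h5 : ∏ z ∈ n.support, ((z + z₀) ^ (n z).toNat * (z - z₀) ^ (-n z).toNat) = 0 := by
          refine Finset.prod_eq_zero hz₀ ?_
          rw [sub_self, zero_pow (by omega), mul_zero]
        rw [h5, sub_zero] at h4
        obtain ⟨z, hz, h6⟩ := Finset.prod_eq_zero_iff.1 h4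
        rcases mul_eq_zero.1 h6 with h7 | h7
        · by_cases hzz : z = z₀
          · rw [hzz] at h7
            have : (n z₀).toNat = 0 := by omega
            rw [this, pow_zero] at h7
            exact one_ne_zero h7
          · exact pow_ne_zero _ (hminus z hzz) h7
        · exact pow_ne_zero _ (hplus z hz) h7
      · have h5 : ∏ z ∈ n.support, ((z - z₀) ^ (n z).toNat * (z + z₀) ^ (-n z).toNat) = 0 := by
          refine Finset.prod_eq_zero hz₀ ?_
          rw [sub_self, zero_pow (by omega), zero_mul]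
        rw [h5, zero_sub, neg_eq_zero] at h4
        obtain ⟨z, hz, h6⟩ := Finset.prod_eq_zero_iff.1 h4
        rcases mul_eq_zero.1 h6 with h7 | h7
        · exact pow_ne_zero _ (hplus z hz) h7
        · by_cases hzz : z = z₀
          · rw [hzz] at h7
            have : (-n z₀).toNat = 0 := by omega
            rw [this, pow_zero] at h7
            exact one_ne_zero h7
          · exact pow_ne_zero _ (hminus z hzz) h7
    have hfin : {x : ℂ | P.eval x = 0}.Finite := by
      have : {x : ℂ | P.eval x = 0} = (P.roots.toFinset : Set ℂ) := by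
        ext x
        simp [hPne]
      rw [this]
      exact Finset.finite_toSet _
    have hsub : Rel n ⊆ (fun b : ℝ => (b : ℂ)) ⁻¹' {x : ℂ | P.eval x = 0} := by
      rintro b ⟨-, -, h⟩
      show P.eval (b : ℂ) = 0
      rw [hev, sub_eq_zero]
      have hm : ∀ z ∈ n.support, z - b ≠ 0 := by
        intro z hz hc
        have h5 := congrArg Complex.im hc
        rw [sub_im, ofReal_im, zero_im] at h5
        linarith [(h1 z hz).2]
      have hp : ∀ z ∈ n.support, z + b ≠ 0 := by
        intro z hz hc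
        have h5 := congrArg Complex.im hc
        rw [add_im, ofReal_im, zero_im] at h5
        linarith [(h1 z hz).2]
      have h6 : ∀ z ∈ n.support, (z - b) ^ (n z).toNat * (z + b) ^ (-n z).toNat =
          W b z ^ n z * ((z + b) ^ (n z).toNat * (z - b) ^ (-n z).toNat) := by
        intro z hz
        rw [W, div_zpow, zpow_split (hm z hz), zpow_split (hp z hz)]
        have e1 := pow_ne_zero (n z).toNat (hp z hz)
        have e2 := pow_ne_zero (-n z).toNat (hp z hz)
        have e3 := pow_ne_zero (-n z).toNat (hm z hz)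
        field_simp
      rw [Finset.prod_congr rfl h6, Finset.prod_mul_distrib, h, one_mul]
    exact ((hfin.preimage (Complex.ofReal_injective.injOn)).countable).mono hsub
  · have : Rel n = ∅ := by
      ext b
      simp only [Rel, Set.mem_setOf_eq, Set.mem_empty_iff_false, iff_false]
      rintro ⟨h1, h2, -⟩
      exact hn ⟨h1, h2⟩
    rw [this]
    exact Set.countable_empty

lemma supp_countable {C : Set ℂ} (hC : C.Countable) :
    {n : ℂ →₀ ℤ | (n.support : Set ℂ) ⊆ C}.Countable := by
  haveI := hC.to_subtype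
  refine (Set.countable_range (fun m : C →₀ ℤ => Finsupp.mapDomain Subtype.val m)).mono ?_
  intro n hn
  refine ⟨Finsupp.comapDomain Subtype.val n (Subtype.val_injective.injOn), ?_⟩
  apply Finsupp.mapDomain_comapDomain _ Subtype.val_injective
  rw [Subtype.range_coe]
  exact hn

/-- the zeros and their conjugates -/
def Zs (M : ℂ → ℝ) : Set ℂ := {z | M z ≠ 0 ∨ M (conj z) ≠ 0}

/-- the base points with a relation -/
def Exd (M : ℂ → ℝ) : Set ℝ := ⋃ n ∈ {n : ℂ →₀ ℤ | (n.support : Set ℂ) ⊆ Zs M}, Rel n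

variable {M : ℂ → ℝ} {d : ℝ}

lemma Zd.exd_countable (h : Zd M d) : (Exd M).Countable := by
  have h1 : (Zs M).Countable := by
    have h2 : Zs M = {z | M z ≠ 0} ∪ (fun z => conj z) ⁻¹' {z | M z ≠ 0} := by
      ext z
      rfl
    rw [h2]
    refine h.countable.union (h.countable.preimage_of_injOn ?_)
    exact (star_injective : Function.Injective (star : ℂ → ℂ)).injOn
  exact (supp_countable h1).biUnion fun n _ => rel_countable n

/-- independence -/
lemma indep_of {b : ℝ} (hb : b ∉ Exd M) {Y : Finset ℂ} (hY : ∀ y ∈ Y, y.re = 0 ∧ 0 < y.im ∧ y ∈ Zs M)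
    (n : ℂ → ℤ) (hn : ∏ y ∈ Y, W b y ^ n y = 1) : ∀ y ∈ Y, n y = 0 := by
  classical
  by_contra hc
  push Not at hc
  obtain ⟨y₀, hy₀, hne⟩ := hc
  apply hb
  set m : ℂ →₀ ℤ := Finsupp.onFinset Y (fun y => if y ∈ Y then n y else 0) (fun y hy => by
    by_contra h
    simp [h] at hy) with hm
  have hmy : ∀ y ∈ Y, m y = n y := by
    intro y hy
    rw [hm, Finsupp.onFinset_apply, if_pos hy]
  have hsub : m.support ⊆ Y := Finsupp.support_onFinset_subset
  refine Set.mem_biUnion (x := m) (fun y hy => (hY y (hsub hy)).2.2) ⟨?_, fun z hz =>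
    ⟨(hY z (hsub hz)).1, (hY z (hsub hz)).2.1⟩, ?_⟩
  · intro h0
    apply hne
    rw [← hmy y₀ hy₀, h0]
    rfl
  · rw [← hn, Finset.prod_congr rfl fun z hz => by rw [hmy z (hsub hz)]]
    refine Finset.prod_subset hsub fun y hy hy2 => ?_
    rw [Finsupp.notMem_support_iff, hmy y hy] at hy2
    rw [hy2, zpow_zero]

end Pool.Agent.N793.LI
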