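import Pool.Agent.TH839.UH.KL
import Pool.Agent.N793.LI.Fin
import Pool.Agent.N793.LI.Grow

/-!
# L-functions with an Euler product of degree two over the places of a number field
-/

set_option autoImplicit false

open Complex Filter Topology Set NumberField IsDedekindDomain
open scoped ComplexConjugate

namespace Pool.Agent.N793.LI

open Pool.Agent.W355.UN Pool.Agent.TH839.UH

variable {K : Type} [Field K] [NumberField K]
variable {a δ : HeightOneSpectrum (𝓞 K) → ℂ} {A : ℝ} {Λ : ℂ → ℂ}

theorem sf_kl (h : KL a δ A Λ) : Sf (fun z => Λ (((1 : ℝ) : ℂ) + z)) (1 / 2 + 1) := by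
  have hsf := sf_of_ul h.ul
  have hκ : (((2 ^ dg K * A ^ (-(1 / 4 : ℝ)) : ℝ) : ℂ)) ≠ 0 := by
    exact_mod_cast (cst_pos h).ne'
  refine sf_shift hsf (inv_ne_zero hκ) fun z => ?_
  unfold NX
  rw [inv_mul_cancel_left₀ hκ]
  congr 1
  push_cast
  ring

end Pool.Agent.N793.LI
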