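import Mathlib
import Pool.Agent.N793.LI.Rec

/-!
# Polynomial Bohr recurrence (van der Waerden and Weyl differencing)
-/

set_option autoImplicit false

open Finset Polynomial

namespace Pool.Agent.N793.LI

/-- a finite colouring of the integers by cells -/
lemma colour_gen {ι : Type*} [Fintype ι] (f : ℕ → ι → ℂ) (hf : ∀ n i, ‖f n i‖ ≤ 1) {ε : ℝ}
    (hε : 0 < ε) :
    ∃ (k : ℕ) (c : ℕ → Fin k), ∀ m n, c m = c n → ∀ i, ‖f m i - f n i‖ < ε := by
  classical
  let B : Set (ι → ℂ) := Metric.closedBall 0 1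
  have hB : TotallyBounded B := (isCompact_closedBall (0 : ι → ℂ) 1).totallyBounded
  obtain ⟨t, ht, hcov⟩ := Metric.totallyBounded_iff.1 hB (ε / 2) (by linarith)
  have hf' : ∀ n, f n ∈ B := by
    intro n
    rw [mem_closedBall_zero_iff, pi_norm_le_iff_of_nonneg (by norm_num)]
    exact hf n
  have h1 : ∀ n, ∃ y ∈ t, dist (f n) y < ε / 2 := by
    intro n
    have := hcov (hf' n)
    simpa using this
  choose g hg1 hg2 using h1
  have hfin : t.Finite := ht
  haveI : Fintype t := hfin.fintype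
  let e := Fintype.equivFin t
  refine ⟨Fintype.card t, fun n => e ⟨g n, hg1 n⟩, fun m n hmn i => ?_⟩
  have h2 : g m = g n := by
    have := e.injective hmn
    simpa using congrArg Subtype.val this
  have h3 : dist (f m) (f n) < ε := by
    calc dist (f m) (f n) ≤ dist (f m) (g m) + dist (f n) (g m) := dist_triangle_right _ _ _
      _ < ε / 2 + ε / 2 := by
          have a1 := hg2 m
          have a2 := hg2 n
          rw [← h2] at a2
          linarith
      _ = ε := by ring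
  have h4 : dist (f m i) (f n i) ≤ dist (f m) (f n) := dist_le_pi_dist _ _ _
  rw [← dist_eq_norm]
  exact lt_of_le_of_lt h4 h3

lemma norm_zpow_one {u : ℂ} (hu : ‖u‖ = 1) (m : ℤ) : ‖u ^ m‖ = 1 := by
  rw [norm_zpow, hu, one_zpow]

lemma zpow_sub_one {u : ℂ} (hu : ‖u‖ = 1) (m n : ℤ) : ‖u ^ (m - n) - 1‖ = ‖u ^ m - u ^ n‖ := by
  have hu0 : u ≠ 0 := by
    intro h
    simp [h] at hu
  have h1 : u ^ m - u ^ n = u ^ n * (u ^ (m - n) - 1) := by
    rw [mul_sub, ← zpow_add₀ hu0, mul_one]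
    congr 2
    ring
  rw [h1, norm_mul, norm_zpow_one hu, one_mul]

lemma zpow_add_one {u : ℂ} (hu : ‖u‖ = 1) (m n : ℤ) :
    ‖u ^ (m + n) - 1‖ ≤ ‖u ^ m - 1‖ + ‖u ^ n - 1‖ := by
  have hu0 : u ≠ 0 := by
    intro h
    simp [h] at hu
  have h1 : u ^ (m + n) - 1 = u ^ m * (u ^ n - 1) + (u ^ m - 1) := by
    rw [zpow_add₀ hu0]; ring
  rw [h1]
  refine (norm_add_le _ _).trans ?_
  rw [norm_mul, norm_zpow_one hu, one_mul, add_comm]

lemma zpow_neg_one {u : ℂ} (hu : ‖u‖ = 1) (m : ℤ) : ‖u ^ (-m) - 1‖ = ‖u ^ m - 1‖ := by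
  have := zpow_sub_one hu 0 m
  rw [zero_sub, zpow_zero] at this
  rw [this, norm_sub_rev]

lemma zpow_natmul_one {u : ℂ} (hu : ‖u‖ = 1) (m : ℤ) (k : ℕ) :
    ‖u ^ ((k : ℤ) * m) - 1‖ ≤ k * ‖u ^ m - 1‖ := by
  induction k with
  | zero => simp
  | succ k ih =>
    have e : ((k + 1 : ℕ) : ℤ) * m = (k : ℤ) * m + m := by push_cast; ring
    rw [e]
    refine (zpow_add_one hu _ _).trans ?_
    push_cast
    linarith

lemma zpow_mul_one {u : ℂ} (hu : ‖u‖ = 1) (m : ℤ) (k : ℤ) :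
    ‖u ^ (k * m) - 1‖ ≤ |k| * ‖u ^ m - 1‖ := by
  obtain ⟨n, rfl | rfl⟩ := k.eq_nat_or_neg
  · simpa using zpow_natmul_one hu m n
  · rw [neg_mul, zpow_neg_one hu]
    simpa using zpow_natmul_one hu m n

/-- iterated differences -/
lemma iter_diff {u : ℂ} (hu : ‖u‖ = 1) {δ : ℝ} (j : ℕ) : ∀ (m : ℤ) (f : ℤ → ℤ),
    (∀ i : ℤ, 0 ≤ i → i ≤ m + j → ‖u ^ f i - 1‖ ≤ δ) →
    ∀ i : ℤ, 0 ≤ i → i ≤ m → ‖u ^ ((fwdDiff (1 : ℤ))^[j] f i) - 1‖ ≤ 2 ^ j * δ := by
  induction j with
  | zero =>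
    intro m f h i h0 hm
    simpa using h i h0 (by simpa using hm)
  | succ j ih =>
    intro m f h i h0 hm
    rw [Function.iterate_succ_apply', fwdDiff]
    have h1 := ih (m + 1) f (fun i hi0 him => h i hi0 (by push_cast; linarith))
    have a1 := h1 (i + 1) (by linarith) (by linarith)
    have a2 := h1 i h0 (by linarith)
    rw [sub_eq_add_neg]
    refine (zpow_add_one hu _ _).trans ?_
    rw [zpow_neg_one hu]
    rw [pow_succ]
    linarith

/-- the top difference of the `j`-th power of a linear form -/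
lemma top_diff (a b : ℤ) (ha : a ≠ 0) {j : ℕ} (hj : 1 ≤ j) :
    (fwdDiff (1 : ℤ))^[j] (fun i : ℤ => (a * i + b) ^ j - b ^ j) 0 = a ^ j * (j.factorial : ℤ) := by
  set P : ℤ[X] := (C a * X + C b) ^ j - C (b ^ j) with hP
  have h1 : (C a * X + C b : ℤ[X]).natDegree = 1 := natDegree_linear ha
  have h2 : ((C a * X + C b : ℤ[X]) ^ j).natDegree = j := by
    rw [natDegree_pow, h1, mul_one]
  have h3 : P.natDegree = j := by
    rw [hP, natDegree_sub_C, h2]
  have h4 : P.leadingCoeff = a ^ j := by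
    rw [leadingCoeff, h3, hP, coeff_sub, coeff_C, if_neg (by omega), sub_zero]
    have h5 : ((C a * X + C b : ℤ[X]) ^ j).leadingCoeff = a ^ j := by
      rw [leadingCoeff_pow, leadingCoeff_linear ha]
    rw [leadingCoeff, h2] at h5
    exact h5
  have h6 := P.fwdDiff_iter_degree_eq_factorial
  rw [h3, h4] at h6
  have h7 : (fun i : ℤ => (a * i + b) ^ j - b ^ j) = P.eval := by
    funext i
    simp [hP]
  rw [h7, h6]
  simp

/-- **Simultaneous recurrence of the powers** -/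
lemma powers (U : Finset ℂ) (hU : ∀ u ∈ U, ‖u‖ = 1) {ε : ℝ} (hε : 0 < ε) (k N : ℕ) :
    ∃ n : ℕ, N ≤ n ∧ 0 < n ∧ ∀ u ∈ U, ∀ j, 1 ≤ j → j ≤ k → ‖u ^ (n ^ j) - 1‖ < ε := by
  classical
  set δ : ℝ := ε / (2 ^ k * ((k.factorial : ℝ) ^ k)) / 2 with hδ
  have hδ0 : 0 < δ := by positivity
  set N' : ℕ := N + 1 with hN'
  -- colour `m` by the cells of the numbers `u ^ ((N' m) ^ j)`
  obtain ⟨K, c, hc⟩ := colour_gen (ι := U × Fin (k + 1))
    (fun m p => (p.1 : ℂ) ^ ((N' * m) ^ (p.2 : ℕ))) (by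
      intro m p
      rw [norm_pow, hU p.1 p.1.2, one_pow]) hδ0
  obtain ⟨a, ha, b, col, hcol⟩ := Combinatorics.exists_mono_homothetic_copy
    (Finset.range (k + 1)) c
  -- the step and the start
  set a' : ℕ := N' * a with ha'
  set b' : ℕ := N' * b with hb'
  have ha0 : 0 < a' := Nat.mul_pos (Nat.succ_pos _) ha
  have haN : N ≤ a' := by
    calc N ≤ N' := Nat.le_succ _
      _ ≤ N' * a := Nat.le_mul_of_pos_right _ ha
  refine ⟨k.factorial * a', haN.trans (Nat.le_mul_of_pos_left _ k.factorial_pos),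
    Nat.mul_pos k.factorial_pos ha0, fun u hu j hj1 hjk => ?_⟩
  have hu1 := hU u hu
  -- the values along the progression
  have h1 : ∀ i : ℤ, 0 ≤ i → i ≤ (0 : ℤ) + j →
      ‖u ^ (((a' : ℤ) * i + b') ^ j - (b' : ℤ) ^ j) - 1‖ ≤ δ := by
    intro i hi0 hij
    obtain ⟨s, rfl⟩ := Int.eq_ofNat_of_zero_le hi0
    have hsj : s ≤ k := by
      have : (s : ℤ) ≤ j := by simpa using hij
      omega
    have e1 := hcol s (Finset.mem_range.2 (by omega))
    have e2 := hcol 0 (Finset.mem_range.2 (by omega))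
    have h2 := hc _ _ (e1.trans e2.symm) (⟨u, hu⟩, ⟨j, by omega⟩)
    simp only [smul_eq_mul, mul_zero, zero_add] at h2
    rw [zpow_sub_one hu1]
    have e3 : ((a' : ℤ) * (s : ℤ) + b') ^ j = (((N' * (a * s + b)) ^ j : ℕ) : ℤ) := by
      rw [ha', hb']; push_cast; ring
    have e4 : (b' : ℤ) ^ j = (((N' * b) ^ j : ℕ) : ℤ) := by
      rw [hb']; push_cast; ring
    rw [e3, e4, zpow_natCast, zpow_natCast]
    exact h2.le
  have h3 := iter_diff hu1 j 0 _ h1 0 le_rfl le_rfl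
  rw [top_diff (a' : ℤ) b' (by exact_mod_cast ha0.ne') hj1] at h3
  -- the multiple
  have hdvd : j.factorial ∣ k.factorial ^ j := by
    exact (Nat.factorial_dvd_factorial hjk).trans (dvd_pow_self _ (by omega))
  obtain ⟨q, hq⟩ := hdvd
  have hqle : (q : ℝ) ≤ (k.factorial : ℝ) ^ k := by
    have h4 : q ≤ k.factorial ^ j := by
      rw [hq]
      exact Nat.le_mul_of_pos_left _ j.factorial_pos
    have h5 : k.factorial ^ j ≤ k.factorial ^ k := Nat.pow_le_pow_right k.factorial_pos hjk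
    exact_mod_cast h4.trans h5
  have e5 : (((k.factorial * a') ^ j : ℕ) : ℤ) = (q : ℤ) * ((a' : ℤ) ^ j * (j.factorial : ℤ)) := by
    rw [mul_pow, hq]; push_cast; ring
  have h6 : ‖u ^ ((k.factorial * a') ^ j) - 1‖ ≤ q * (2 ^ j * δ) := by
    rw [← zpow_natCast, e5]
    refine (zpow_natmul_one hu1 _ q).trans ?_
    gcongr
  refine lt_of_le_of_lt h6 ?_
  calc (q : ℝ) * (2 ^ j * δ) ≤ (k.factorial : ℝ) ^ k * (2 ^ k * δ) := by
        gcongr
        exact one_le_two
    _ = ε / 2 := by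
        rw [hδ]; field_simp
    _ < ε := by linarith

/-- The values of an integer polynomial without constant term are a set of Bohr recurrence. -/
theorem recurrent_poly (Q : ℤ[X]) (h0 : Q.coeff 0 = 0) (hlead : 0 < Q.leadingCoeff) :
    Recurrent {n | ∃ m : ℕ, 1 ≤ m ∧ (n : ℤ) = Q.eval (m : ℤ)} := by
  classical
  intro U ε N hU hε
  have hdeg : 0 < Q.natDegree := by
    rcases Nat.eq_zero_or_pos Q.natDegree with h | h
    · rw [leadingCoeff, h, h0] at hlead
      exact absurd hlead (lt_irrefl _)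
    · exact h
  -- eventually the values exceed `N`
  obtain ⟨N₀, hN₀⟩ : ∃ N₀ : ℕ, ∀ m : ℕ, N₀ ≤ m → (N : ℤ) ≤ Q.eval (m : ℤ) := by
    have h1 : Filter.Tendsto (fun x : ℝ => (Q.map (Int.castRingHom ℝ)).eval x) Filter.atTop
        Filter.atTop := by
      apply Polynomial.tendsto_atTop_of_leadingCoeff_nonneg
      · rw [Polynomial.degree_map_eq_of_injective Int.cast_injective]
        exact natDegree_pos_iff_degree_pos.1 hdeg
      · rw [Polynomial.leadingCoeff_map_of_injective Int.cast_injective]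
        have : (0 : ℝ) < (Q.leadingCoeff : ℝ) := by exact_mod_cast hlead
        simpa using this.le
    have h2 := (h1.comp tendsto_natCast_atTop_atTop).eventually_ge_atTop (N : ℝ)
    obtain ⟨N₀, hN₀⟩ := Filter.eventually_atTop.1 h2
    refine ⟨N₀, fun m hm => ?_⟩
    have h3 := hN₀ m hm
    simp only [Function.comp_apply] at h3
    have h4 : (Q.map (Int.castRingHom ℝ)).eval (m : ℝ) = ((Q.eval (m : ℤ) : ℤ) : ℝ) := by
      have := Polynomial.eval_intCast_map (Int.castRingHom ℝ) Q (m : ℤ)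
      simpa using this
    rw [h4] at h3
    exact_mod_cast h3
  set A : ℝ := ∑ j ∈ Finset.range (Q.natDegree + 1), |((Q.coeff j : ℤ) : ℝ)| with hA
  have hA0 : 0 ≤ A := Finset.sum_nonneg fun _ _ => abs_nonneg _
  obtain ⟨n, hn1, hn2, hn3⟩ := powers U hU (ε := ε / (A + 1)) (by positivity) Q.natDegree N₀
  have h5 := hN₀ n hn1
  have hpos : 0 ≤ Q.eval (n : ℤ) := le_trans (by positivity) h5
  obtain ⟨v, hv⟩ := Int.eq_ofNat_of_zero_le hpos
  refine ⟨v, ⟨n, hn2, hv.symm⟩, by rw [hv] at h5; exact_mod_cast h5, fun u hu => ?_⟩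
  have hu1 := hU u hu
  have e1 : Q.eval (n : ℤ) = ∑ j ∈ Finset.range (Q.natDegree + 1), Q.coeff j * (n : ℤ) ^ j :=
    Polynomial.eval_eq_sum_range _
  have h6 : ∀ s : ℕ, s ≤ Q.natDegree + 1 →
      ‖u ^ (∑ j ∈ Finset.range s, Q.coeff j * (n : ℤ) ^ j) - 1‖ ≤
        (∑ j ∈ Finset.range s, |((Q.coeff j : ℤ) : ℝ)|) * (ε / (A + 1)) := by
    intro s
    induction s with
    | zero => simp
    | succ s ih =>
      intro hs
      rw [Finset.sum_range_succ, Finset.sum_range_succ]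
      refine (zpow_add_one hu1 _ _).trans ?_
      rw [add_mul]
      refine add_le_add (ih (by omega)) ?_
      refine (zpow_mul_one hu1 _ _).trans ?_
      have e2 : ((|Q.coeff s| : ℤ) : ℝ) = |((Q.coeff s : ℤ) : ℝ)| := by simp
      rcases Nat.eq_zero_or_pos s with rfl | hs1
      · simp [h0]
      · rw [e2]
        have h7 := (hn3 u hu s hs1 (by omega)).le
        have e3 : u ^ ((n : ℤ) ^ s) = u ^ (n ^ s) := by
          rw [← zpow_natCast]; push_cast; rfl
        rw [e3]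
        gcongr
  have h8 := h6 (Q.natDegree + 1) le_rfl
  rw [← e1, hv] at h8
  rw [← zpow_natCast]
  refine lt_of_le_of_lt h8 ?_
  rw [← hA, mul_div_assoc', div_lt_iff₀ (by positivity)]
  nlinarith

end Pool.Agent.N793.LI
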