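import Mathlib
import Pool.Agent.N793.LI.Rec
import Pool.Agent.N793.LI.Poly
import Pool.Agent.N793.LI.Core

/-!
# Equivalences
-/

set_option autoImplicit false

open Finset Polynomial Filter

namespace Pool.Agent.N793.LI

/-- the sequence is not exponentially negative along `A` -/
def Tame (x : ℕ → ℝ) (A : Set ℕ) : Prop :=
  ∀ ε : ℝ, 0 < ε → ∃ N : ℕ, ∀ n ∈ A, N ≤ n → -Real.exp (ε * n) ≤ x n

lemma Tame.of_nonneg {x : ℕ → ℝ} {A : Set ℕ} (h : ∀ n ∈ A, 0 ≤ x n) : Tame x A := by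
  intro ε _
  refine ⟨0, fun n hn _ => ?_⟩
  have := h n hn
  have h2 := Real.exp_pos (ε * n)
  linarith

variable {M : ℂ → ℝ} {d : ℝ}

/-- the exponential form of the sign theorem -/
theorem Zd.bohr_exp (h : Zd M d) {b : ℝ} (hb : 0 < b) (hb0 : M (-(b : ℂ)) = 0) (hoff : ∃ z, M z ≠ 0 ∧ z.re ≠ 0) :
    ∃ ε : ℝ, 0 < ε ∧ ∃ U : Finset ℂ, (∀ u ∈ U, ‖u‖ = 1) ∧ ∃ N : ℕ, ∀ n, N ≤ n →
      (∀ u ∈ U, ‖u ^ n - 1‖ < 1 / 2) → li M b n < -Real.exp (ε * n) := by
  obtain ⟨R, hR, U, hU, N, hN⟩ := h.bohr hb hb0 hoff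
  have hlog : 0 < Real.log R := Real.log_pos hR
  -- `exp (n log R / 2) < R ^ n / 4` for large `n`
  have h1 : Tendsto (fun n : ℕ => Real.exp (Real.log R / 2 * n)) atTop atTop := by
    apply Real.tendsto_exp_atTop.comp
    exact Tendsto.const_mul_atTop (by linarith) tendsto_natCast_atTop_atTop
  obtain ⟨N1, hN1⟩ := eventually_atTop.1 (h1.eventually_gt_atTop 4)
  refine ⟨Real.log R / 2, by linarith, U, hU, max N N1, fun n hn hu => ?_⟩
  have h2 := hN n (le_trans (le_max_left _ _) hn) hu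
  have h3 := hN1 n (le_trans (le_max_right _ _) hn)
  have h4 : R ^ n = Real.exp (Real.log R / 2 * n) * Real.exp (Real.log R / 2 * n) := by
    rw [← Real.exp_add, ← Real.rpow_natCast, Real.rpow_def_of_pos (by linarith)]
    congr 1
    ring
  have h5 := Real.exp_pos (Real.log R / 2 * n)
  rw [h4] at h2
  nlinarith

/-- **Recurrent sets decide the Riemann hypothesis.** -/
theorem Zd.iff_recurrent (h : Zd M d) {b : ℝ} (hb : 0 < b) (hb0 : M (-(b : ℂ)) = 0) {A : Set ℕ} (hA : Recurrent A) :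
    (∀ z, M z ≠ 0 → z.re = 0) ↔ Tame (li M b) A := by
  constructor
  · intro hl
    exact Tame.of_nonneg fun n _ => h.li_nonneg hb0 hl n
  · intro ht
    by_contra hne
    push Not at hne
    obtain ⟨ε, hε, U, hU, N, hN⟩ := h.bohr_exp hb hb0 hne
    obtain ⟨N1, hN1⟩ := ht ε hε
    obtain ⟨n, hnA, hn, hu⟩ := hA U (1 / 2) (max N N1) hU (by norm_num)
    have h1 := hN n (le_trans (le_max_left _ _) hn) hu
    have h2 := hN1 n hnA (le_trans (le_max_right _ _) hn)
    linarith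

theorem Zd.iff_recurrent_nonneg (h : Zd M d) {b : ℝ} (hb : 0 < b) (hb0 : M (-(b : ℂ)) = 0) {A : Set ℕ} (hA : Recurrent A) :
    (∀ z, M z ≠ 0 → z.re = 0) ↔ ∀ n ∈ A, 0 ≤ li M b n := by
  constructor
  · intro hl n _
    exact h.li_nonneg hb0 hl n
  · intro ht
    rw [h.iff_recurrent hb hb0 hA]
    exact Tame.of_nonneg ht

/-- **Runs.**  Long runs of consecutive coefficients which are not exponentially negative decide the
Riemann hypothesis. -/
theorem Zd.iff_runs (h : Zd M d) {b : ℝ} (hb : 0 < b) (hb0 : M (-(b : ℂ)) = 0) :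
    (∀ z, M z ≠ 0 → z.re = 0) ↔ ∀ ε : ℝ, 0 < ε → ∀ L : ℕ, ∃ N : ℕ, L ≤ N ∧ ∀ n, N < n → n ≤ N + L →
      -Real.exp (ε * n) ≤ li M b n := by
  constructor
  · intro hl ε _ L
    refine ⟨L, le_rfl, fun n _ _ => ?_⟩
    have h1 := h.li_nonneg hb0 hl n
    have h2 := Real.exp_pos (ε * n)
    linarith
  · intro ht
    by_contra hne
    push Not at hne
    obtain ⟨ε, hε, U, hU, N, hN⟩ := h.bohr_exp hb hb0 hne
    obtain ⟨L, hL⟩ := syndetic U hU (ε := 1 / 2) (by norm_num)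
    obtain ⟨N1, hN1, hrun⟩ := ht ε hε (max L N)
    obtain ⟨n, hn1, hn2, hu⟩ := hL N1
    have h1 := hN n (by have := le_max_right L N; omega) hu
    have h2 := hrun n hn1 (by have := le_max_left L N; omega)
    linarith

/-- Runs of nonnegative coefficients. -/
theorem Zd.iff_runs_nonneg (h : Zd M d) {b : ℝ} (hb : 0 < b) (hb0 : M (-(b : ℂ)) = 0) :
    (∀ z, M z ≠ 0 → z.re = 0) ↔ ∀ L : ℕ, ∃ N : ℕ, ∀ n, N < n → n ≤ N + L → 0 ≤ li M b n := by
  constructor
  · intro hl L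
    exact ⟨0, fun n _ _ => h.li_nonneg hb0 hl n⟩
  · intro ht
    rw [h.iff_runs hb hb0]
    intro ε hε L
    obtain ⟨N, hN⟩ := ht (2 * L)
    refine ⟨N + L, by omega, fun n hn1 hn2 => ?_⟩
    have h1 := hN n (by omega) (by omega)
    have h2 := Real.exp_pos (ε * n)
    linarith

/-- Finitely many integers with large gaps. -/
theorem Zd.iff_gaps (h : Zd M d) {b : ℝ} (hb : 0 < b) (hb0 : M (-(b : ℂ)) = 0) :
    (∀ z, M z ≠ 0 → z.re = 0) ↔ ∀ K : ℕ, ∃ s : ℕ → ℕ, (∀ i, s i + K ≤ s (i + 1)) ∧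
      ∀ i j, i < j → j ≤ K → 0 ≤ li M b (s j - s i) := by
  constructor
  · intro hl K
    refine ⟨fun i => i * K, fun i => by ring_nf; omega, fun i j _ _ => h.li_nonneg hb0 hl _⟩
  · intro ht
    by_contra hne
    push Not at hne
    obtain ⟨ε, hε, U, hU, N, hN⟩ := h.bohr_exp hb hb0 hne
    obtain ⟨K, hK⟩ := differences U hU (ε := 1 / 2) (by norm_num)
    obtain ⟨s, hs1, hs2⟩ := ht (max K N + 1)
    have hs3 : StrictMono s := strictMono_nat_of_lt_succ fun i => by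
      have := hs1 i
      omega
    obtain ⟨i, j, hij, hj, hu⟩ := hK s hs3
    have hgap : N ≤ s j - s i := by
      have h4 : s (i + 1) ≤ s j := hs3.monotone hij
      have h5 := hs1 i
      have h6 := le_max_right K N
      omega
    have h1 := hN _ hgap hu
    have h2 := hs2 i j hij (by have := le_max_left K N; omega)
    have h3 := Real.exp_pos (ε * ((s j - s i : ℕ) : ℝ))
    linarith

end Pool.Agent.N793.LI
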