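import Pool.Agent.N793.LI.Dens

/-!
# A sequence one frequency of which can be moved is rarely small
-/

set_option autoImplicit false

open Finset Filter Topology

namespace Pool.Agent.N793.LI

lemma numb_sum (A : Set ℕ) (N : ℕ) [DecidablePred (· ∈ A)] :
    numb A N = ∑ m ∈ range N, if m ∈ A then 1 else 0 := by
  classical
  unfold numb
  rw [← Finset.card_filter]
  congr

/-- sets with small overlaps -/
lemma overlap {A : ℕ → Set ℕ} {T : Set ℕ} {K : ℕ}
    (h : ∀ m, m ∉ T → ∀ i < K, ∀ j < K, m ∈ A i → m ∈ A j → i = j) (N : ℕ) :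
    ∑ i ∈ range K, numb (A i) N ≤ N + K * numb T N := by
  classical
  have e1 : ∑ i ∈ range K, numb (A i) N = ∑ m ∈ range N, ((range K).filter (fun i => m ∈ A i)).card := by
    simp only [numb_sum]
    rw [Finset.sum_comm]
    refine Finset.sum_congr rfl fun m _ => ?_
    rw [Finset.card_filter]
  have e2 : N + K * numb T N = ∑ m ∈ range N, (1 + K * (if m ∈ T then 1 else 0)) := by
    rw [Finset.sum_add_distrib, numb_sum, Finset.mul_sum]
    simp
  rw [e1, e2]
  refine Finset.sum_le_sum fun m _ => ?_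
  by_cases hm : m ∈ T
  · rw [if_pos hm]
    have := card_filter_le (range K) (fun i => m ∈ A i)
    rw [card_range] at this
    omega
  · rw [if_neg hm, mul_zero, add_zero, Finset.card_le_one]
    intro i hi j hj
    rw [mem_filter, mem_range] at hi hj
    exact h m hm i hi.1 j hj.1 hi.2 hj.2

lemma numb_biUnion {ι : Type*} (s : Finset ι) (A : ι → Set ℕ) (N : ℕ) :
    numb (⋃ i ∈ s, A i) N ≤ ∑ i ∈ s, numb (A i) N := by
  classical
  induction s using Finset.induction_on with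
  | empty => simp [numb]
  | insert i s hi ih =>
    rw [Finset.set_biUnion_insert, Finset.sum_insert hi]
    exact (numb_union _ _ _).trans (by omega)

/-- **One movable frequency.** -/
theorem thin_of_mov {g : ℕ → ℝ} {u e : ℂ} {c : ℝ} (hu : ‖u‖ = 1) (he : ‖e‖ = 1) (hc : 0 < c)
    (hroot : ∀ k : ℕ, 1 ≤ k → u ^ k ≠ 1)
    (hmov : ∀ ζ : ℂ, ‖ζ‖ = 1 → ∀ ε : ℝ, 0 < ε → ∃ p : ℕ, ∀ m,
      |g (m + p) - g m - c * (u ^ m * e * (ζ - 1)).re| ≤ ε)
    {η : ℝ} (hη : 0 < η) :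
    ∃ ε : ℝ, 0 < ε ∧ ∃ N₀ : ℕ, ∀ N, N₀ ≤ N → (numb {m | |g m| ≤ ε} N : ℝ) ≤ η * N := by
  classical
  obtain ⟨K, hK⟩ := exists_nat_gt (4 / η)
  have hKR : (0 : ℝ) < K := lt_trans (by positivity) hK
  have hK0 : 0 < K := by exact_mod_cast hKR
  -- the targets are distinct
  have hinj : ∀ i j : ℕ, i < j → u ^ i ≠ u ^ j := by
    intro i j hij h
    apply hroot (j - i) (by omega)
    have hui : u ^ i ≠ 0 := by
      apply pow_ne_zero
      intro h0
      rw [h0, norm_zero] at hu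
      norm_num at hu
    have h2 : u ^ i * u ^ (j - i) = u ^ i * 1 := by
      rw [← pow_add, Nat.add_sub_cancel' hij.le, mul_one, h]
    exact mul_left_cancel₀ hui h2
  have hne : ∀ i j : ℕ, i ≠ j → u ^ i - u ^ j ≠ 0 := by
    intro i j hij
    rcases lt_or_gt_of_ne hij with h | h
    · exact sub_ne_zero.2 (hinj i j h)
    · exact sub_ne_zero.2 (hinj j i h).symm
  -- the exceptional sets of the pairs
  have h1 : ∀ i j : ℕ, ∃ δ : ℝ, 0 < δ ∧ ∃ N₀ : ℕ, i ≠ j → ∀ N, N₀ ≤ N →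
      (numb {m | |(u ^ m * (e * (u ^ i - u ^ j) / (‖u ^ i - u ^ j‖ : ℝ))).re| ≤ δ} N : ℝ) ≤
        (η / (4 * K ^ 2)) * N := by
    intro i j
    by_cases hij : i ≠ j
    · have h2 := norm_pos_iff.2 (hne i j hij)
      obtain ⟨δ, hδ, N₀, h3⟩ := thin (v := u) (c := e * (u ^ i - u ^ j) / (‖u ^ i - u ^ j‖ : ℝ)) hu
        (by
          rw [norm_div, norm_mul, he, one_mul, Complex.norm_real, norm_norm, div_self h2.ne'])
        hroot (η := η / (4 * K ^ 2)) (by positivity)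
      exact ⟨δ, hδ, N₀, fun _ => h3⟩
    · exact ⟨1, one_pos, 0, fun h => absurd h hij⟩
  choose δ hδ N₀ hN₀ using h1
  -- the common bound
  obtain ⟨ε, hε, hε2⟩ : ∃ ε : ℝ, 0 < ε ∧ ∀ i < K, ∀ j < K, i ≠ j →
      4 * ε ≤ c * ‖u ^ i - u ^ j‖ * δ i j := by
    have hf : ∀ x : ℕ × ℕ, ∃ y : ℝ, 0 < y ∧ (x.1 ≠ x.2 → 4 * y ≤ c * ‖u ^ x.1 - u ^ x.2‖ * δ x.1 x.2) := by
      intro x
      by_cases hx : x.1 ≠ x.2
      · have h2 := norm_pos_iff.2 (hne _ _ hx)
        have h3 := hδ x.1 x.2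
        exact ⟨c * ‖u ^ x.1 - u ^ x.2‖ * δ x.1 x.2 / 4, by positivity, fun _ => by linarith⟩
      · exact ⟨1, one_pos, fun h => absurd h hx⟩
    choose f hf1 hf2 using hf
    have hne' : (range K ×ˢ range K).Nonempty := ⟨(0, 0), by simp [hK0]⟩
    refine ⟨(range K ×ˢ range K).inf' hne' f, ?_, fun i hi j hj hij => ?_⟩
    · rw [Finset.lt_inf'_iff]
      exact fun x _ => hf1 x
    · have h2 : (range K ×ˢ range K).inf' hne' f ≤ f (i, j) :=
        Finset.inf'_le _ (by simp [hi, hj])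
      have h3 := hf2 (i, j) hij
      simp only at h3
      linarith
  have h4 : ∀ i : ℕ, ∃ p : ℕ, ∀ m, |g (m + p) - g m - c * (u ^ m * e * (u ^ i - 1)).re| ≤ ε :=
    fun i => hmov _ (by rw [norm_pow, hu, one_pow]) ε hε
  choose p hp using h4
  -- the sets
  set A : Set ℕ := {m | |g m| ≤ ε} with hA
  set Tij : ℕ × ℕ → Set ℕ := fun x =>
    {m | |(u ^ m * (e * (u ^ x.1 - u ^ x.2) / (‖u ^ x.1 - u ^ x.2‖ : ℝ))).re| ≤ δ x.1 x.2} with hTij
  set s : Finset (ℕ × ℕ) := (range K ×ˢ range K).filter (fun x => x.1 ≠ x.2) with hs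
  set T : Set ℕ := ⋃ x ∈ s, Tij x with hT
  have hover : ∀ m, m ∉ T → ∀ i < K, ∀ j < K, m ∈ {m | m + p i ∈ A} → m ∈ {m | m + p j ∈ A} → i = j := by
    intro m hm i hi j hj hmi hmj
    by_contra hij
    apply hm
    have hxs : (i, j) ∈ s := by simp [hs, hi, hj, hij]
    refine Set.mem_biUnion hxs ?_
    show |(u ^ m * (e * (u ^ i - u ^ j) / (‖u ^ i - u ^ j‖ : ℝ))).re| ≤ δ i j
    have h5 := abs_le.1 (hp i m)
    have h6 := abs_le.1 (hp j m)
    have h7 : |g (m + p i)| ≤ ε := hmi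
    have h8 : |g (m + p j)| ≤ ε := hmj
    rw [abs_le] at h7 h8
    have h9 : (u ^ m * e * (u ^ i - u ^ j)).re = (u ^ m * e * (u ^ i - 1)).re - (u ^ m * e * (u ^ j - 1)).re := by
      rw [← Complex.sub_re]
      congr 1
      ring
    have h10 : |c * (u ^ m * e * (u ^ i - u ^ j)).re| ≤ 4 * ε := by
      rw [h9, mul_sub, abs_le]
      constructor <;> linarith [h5.1, h5.2, h6.1, h6.2, h7.1, h7.2, h8.1, h8.2]
    have hnp := norm_pos_iff.2 (hne i j hij)
    have h11 : (u ^ m * (e * (u ^ i - u ^ j) / (‖u ^ i - u ^ j‖ : ℝ))).re =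
        (u ^ m * e * (u ^ i - u ^ j)).re / ‖u ^ i - u ^ j‖ := by
      have : u ^ m * (e * (u ^ i - u ^ j) / (‖u ^ i - u ^ j‖ : ℝ)) =
          (u ^ m * e * (u ^ i - u ^ j)) / ((‖u ^ i - u ^ j‖ : ℝ) : ℂ) := by ring
      rw [this, Complex.div_ofReal_re]
    rw [h11, abs_div, abs_of_pos hnp, div_le_iff₀ hnp]
    rw [abs_mul, abs_of_pos hc] at h10
    have h12 := h10.trans (hε2 i hi j hj hij)
    have h13 : c * |(u ^ m * e * (u ^ i - u ^ j)).re| ≤ c * (δ i j * ‖u ^ i - u ^ j‖) := by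
      linarith
    exact le_of_mul_le_mul_left h13 hc
  -- the numbers
  have hTn : ∃ N₁ : ℕ, ∀ N, N₁ ≤ N → (numb T N : ℝ) ≤ η / 4 * N := by
    refine ⟨∑ x ∈ s, N₀ x.1 x.2, fun N hN => ?_⟩
    have h5 : (numb T N : ℝ) ≤ ∑ x ∈ s, (numb (Tij x) N : ℝ) := by
      exact_mod_cast numb_biUnion s Tij N
    refine h5.trans ?_
    have h6 : ∀ x ∈ s, (numb (Tij x) N : ℝ) ≤ (η / (4 * K ^ 2)) * N := by
      intro x hx
      have h7 : x.1 ≠ x.2 := by
        rw [hs, mem_filter] at hx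
        exact hx.2
      refine hN₀ x.1 x.2 h7 N (le_trans ?_ hN)
      exact Finset.single_le_sum (f := fun x : ℕ × ℕ => N₀ x.1 x.2) (fun _ _ => Nat.zero_le _) hx
    refine (Finset.sum_le_card_nsmul s _ _ h6).trans ?_
    rw [nsmul_eq_mul]
    have h8 : (s.card : ℝ) ≤ K ^ 2 := by
      have h9 := card_filter_le (range K ×ˢ range K) (fun x : ℕ × ℕ => x.1 ≠ x.2)
      rw [card_product, card_range] at h9
      have h10 : (s.card : ℝ) ≤ ((K * K : ℕ) : ℝ) := by exact_mod_cast h9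
      rw [Nat.cast_mul] at h10
      rw [sq]
      exact h10
    have hN0 : (0 : ℝ) ≤ N := Nat.cast_nonneg N
    calc (s.card : ℝ) * (η / (4 * K ^ 2) * N) ≤ K ^ 2 * (η / (4 * K ^ 2) * N) := by gcongr
      _ = η / 4 * N := by field_simp
  obtain ⟨N₁, hN₁⟩ := hTn
  set P : ℕ := ∑ i ∈ range K, p i with hP
  obtain ⟨N₂, hN₂⟩ := exists_nat_gt (4 * P / η)
  refine ⟨ε, hε, max N₁ N₂, fun N hN => ?_⟩
  have hNa : N₁ ≤ N := (le_max_left _ _).trans hN
  have hNb : N₂ ≤ N := (le_max_right _ _).trans hN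
  have h5 := overlap (A := fun i => {m | m + p i ∈ A}) (T := T) (K := K) hover N
  have h6 : ∀ i, numb A N ≤ p i + numb {m | m + p i ∈ A} N := by
    intro i
    unfold numb
    have h7 : (range N).filter (· ∈ A) ⊆ range (p i) ∪
        ((range N).filter (· ∈ {m | m + p i ∈ A})).image (fun m => m + p i) := by
      intro m hm
      rw [mem_filter, mem_range] at hm
      rw [mem_union, mem_range, mem_image]
      by_cases h8 : m < p i
      · exact Or.inl h8
      · right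
        refine ⟨m - p i, ?_, by omega⟩
        rw [mem_filter, mem_range]
        refine ⟨by omega, ?_⟩
        show m - p i + p i ∈ A
        rw [Nat.sub_add_cancel (not_lt.1 h8)]
        exact hm.2
    refine (card_le_card h7).trans ((card_union_le _ _).trans ?_)
    rw [card_range]
    exact Nat.add_le_add_left card_image_le _
  have h7 : K * numb A N ≤ P + (N + K * numb T N) := by
    calc K * numb A N = ∑ i ∈ range K, numb A N := by simp
      _ ≤ ∑ i ∈ range K, (p i + numb {m | m + p i ∈ A} N) := Finset.sum_le_sum fun i _ => h6 i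
      _ = P + ∑ i ∈ range K, numb {m | m + p i ∈ A} N := by rw [Finset.sum_add_distrib]
      _ ≤ _ := Nat.add_le_add_left h5 _
  have h8 : (K : ℝ) * numb A N ≤ P + (N + K * numb T N) := by exact_mod_cast h7
  have h9 := hN₁ N hNa
  have h10 : (4 * P : ℝ) / η < N := lt_of_lt_of_le hN₂ (by exact_mod_cast hNb)
  rw [div_lt_iff₀ hη] at h10
  rw [div_lt_iff₀ hη] at hK
  have hN0 : (0 : ℝ) ≤ N := Nat.cast_nonneg N
  have hP0 : (0 : ℝ) ≤ P := Nat.cast_nonneg P
  have hK1 : (1 : ℝ) ≤ K := by exact_mod_cast hK0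
  -- `K * numb A ≤ P + N + K η N / 4 ≤ K η N`
  have h11 : (K : ℝ) * numb A N ≤ K * (η * N) := by
    have h12 : (K : ℝ) * numb T N ≤ K * (η / 4 * N) := by gcongr
    have h13 : (N : ℝ) ≤ K * (η / 4 * N) := by
      have h14 : (1 : ℝ) ≤ K * η / 4 := by linarith
      have h15 := mul_le_mul_of_nonneg_right h14 hN0
      linarith
    have h14 : (P : ℝ) ≤ K * (η / 4 * N) := by
      have h15 : (P : ℝ) ≤ η / 4 * N := by linarith
      have h16 : (0 : ℝ) ≤ η / 4 * N := by positivity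
      nlinarith
    linarith [mul_nonneg hKR.le (mul_nonneg hη.le hN0)]
  exact le_of_mul_le_mul_left h11 hKR

end Pool.Agent.N793.LI
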