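import Pool.Agent.N793.LI.Gen
import Pool.Agent.N793.LI.Mov

/-!
# The second differences of the Li coefficients, if all zeros are on the line
-/

set_option autoImplicit false

open Complex Filter Topology Finset
open scoped ComplexConjugate

namespace Pool.Agent.N793.LI

variable {M : ℂ → ℝ} {d : ℝ}

/-- the second difference of the Li coefficients -/
noncomputable def dd (M : ℂ → ℝ) (b : ℝ) (n : ℕ) : ℝ :=
  li M b (n + 2) - 2 * li M b (n + 1) + li M b n

/-- the weight of a zero -/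
noncomputable def wt (M : ℂ → ℝ) (b : ℝ) (z : ℂ) : ℝ := 2 * (M z * (1 - (W b z ^ 1).re))

lemma W_conj (b : ℝ) (z : ℂ) : W b (conj z) = conj (W b z) := by
  unfold W
  rw [map_div₀, map_sub, map_add, Complex.conj_ofReal]

lemma W_zero {b : ℝ} (hb : 0 < b) : W b 0 = -1 := by
  have : (b : ℂ) ≠ 0 := by exact_mod_cast hb.ne'
  unfold W
  rw [zero_sub, zero_add, neg_div, div_self this]

/-- the norm on the line -/
lemma W_line {b : ℝ} (hb : 0 < b) {z : ℂ} (hz : z.re = 0) : ‖W b z‖ = 1 := by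
  refine norm_W_line (fun h => ?_) hz
  have := congrArg Complex.re h
  rw [add_re, hz, ofReal_re, zero_re] at this
  linarith

lemma circ_sq {w : ℂ} (hw : ‖w‖ = 1) (n : ℕ) :
    -((w ^ n * (w - 1) ^ 2).re) = 2 * (1 - w.re) * (w ^ (n + 1)).re := by
  have h1 : w * conj w = 1 := by
    rw [Complex.mul_conj, Complex.normSq_eq_norm_sq, hw]
    norm_num
  have h2 : (w - 1) ^ 2 = ((-(2 * (1 - w.re)) : ℝ) : ℂ) * w := by
    have h3 : ((2 * w.re : ℝ) : ℂ) = w + conj w := by
      rw [Complex.add_conj]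
    push_cast
    push_cast at h3
    have h4 : -(2 * (1 - (w.re : ℂ))) = -2 + (w + conj w) := by rw [← h3]; ring
    rw [h4]
    linear_combination (-1) * h1
  have h3 : w ^ n * (w - 1) ^ 2 = ((-(2 * (1 - w.re)) : ℝ) : ℂ) * w ^ (n + 1) := by
    rw [h2]; ring
  rw [h3, Complex.re_ofReal_mul]
  ring

lemma Zd.wt_nonneg (h : Zd M d) {b : ℝ} (hb : 0 < b) (hline : ∀ z, M z ≠ 0 → z.re = 0) (z : ℂ) :
    0 ≤ wt M b z := by
  unfold wt
  by_cases hz : M z = 0
  · simp [hz]
  · have h1 := W_line hb (hline z hz)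
    have h2 := Complex.re_le_norm (W b z)
    have h3 := h.nn z
    rw [pow_one]
    have : 0 ≤ 1 - (W b z).re := by linarith
    positivity

lemma Zd.wt_pos (h : Zd M d) {b : ℝ} (hb : 0 < b) (hline : ∀ z, M z ≠ 0 → z.re = 0) {z : ℂ}
    (hz : M z ≠ 0) : 0 < wt M b z := by
  have h1 := W_line hb (hline z hz)
  have h2 := h.one z hz
  have h3 := Complex.re_le_norm (W b z)
  unfold wt
  rw [pow_one]
  have h4 : (W b z).re ≠ 1 := by
    intro hc
    have h5 := Complex.sq_norm (W b z)
    rw [h1, Complex.normSq_apply, hc] at h5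
    have h6 : (W b z).im = 0 := by nlinarith
    have h7 : W b z = 1 := Complex.ext (by simpa using hc) (by simpa using h6)
    have hne : z + b ≠ 0 := by
      intro h0
      have := congrArg Complex.re h0
      rw [add_re, hline z hz, ofReal_re, zero_re] at this
      linarith
    unfold W at h7
    rw [div_eq_one_iff_eq hne] at h7
    have h8 := congrArg Complex.re h7
    simp at h8
    linarith
  have h5 : 0 < 1 - (W b z).re := by
    rw [h1] at h3
    rcases lt_or_eq_of_le h3 with h | h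
    · linarith
    · exact absurd h h4
  have h6 : 0 < M z := by linarith
  positivity

lemma Zd.wt_summable (h : Zd M d) {b : ℝ} (hb : 0 < b) (hb0 : M (-(b : ℂ)) = 0) :
    HasSum (wt M b) (2 * li M b 1) :=
  (h.summable_li hb hb0 1).hasSum.mul_left 2

lemma Zd.dd_hasSum (h : Zd M d) {b : ℝ} (hb : 0 < b) (hb0 : M (-(b : ℂ)) = 0) (n : ℕ) :
    HasSum (fun z => -(M z * (W b z ^ n * (W b z - 1) ^ 2).re)) (dd M b n) := by
  have h2 := (h.summable_li hb hb0 (n + 2)).hasSum
  have h1 := (h.summable_li hb hb0 (n + 1)).hasSum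
  have h0 := (h.summable_li hb hb0 n).hasSum
  have h3 := (h2.sub (h1.mul_left 2)).add h0
  refine h3.congr_fun fun z => ?_
  have : W b z ^ n * (W b z - 1) ^ 2 = W b z ^ (n + 2) - 2 * W b z ^ (n + 1) + W b z ^ n := by ring
  rw [this]
  simp only [add_re, sub_re, mul_re, re_ofNat, im_ofNat, zero_mul, sub_zero]
  ring

/-- the second difference as a sum of cosines -/
lemma Zd.dd_line (h : Zd M d) {b : ℝ} (hb : 0 < b) (hb0 : M (-(b : ℂ)) = 0)
    (hline : ∀ z, M z ≠ 0 → z.re = 0) (n : ℕ) :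
    HasSum (fun z => wt M b z * (W b z ^ (n + 1)).re) (dd M b n) := by
  refine (h.dd_hasSum hb hb0 n).congr_fun fun z => ?_
  by_cases hz : M z = 0
  · simp [wt, hz]
  · have h1 := circ_sq (W_line hb (hline z hz)) n
    rw [wt, pow_one, ← mul_neg, h1]
    ring

lemma Zd.sum_le (h : Zd M d) {b : ℝ} (hb : 0 < b) (hb0 : M (-(b : ℂ)) = 0)
    (hline : ∀ z, M z ≠ 0 → z.re = 0) {f : ℂ → ℝ} (hf : ∀ z, M z ≠ 0 → |f z| ≤ 1) {s : ℝ}
    (hs : HasSum (fun z => wt M b z * f z) s) : |s| ≤ 2 * li M b 1 := by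
  have h1 := h.wt_summable hb hb0
  have hw := h.wt_nonneg hb hline
  have h3 : ∀ z, |wt M b z * f z| ≤ wt M b z := by
    intro z
    by_cases hz : M z = 0
    · simp [wt, hz]
    · rw [abs_mul, abs_of_nonneg (hw z)]
      exact mul_le_of_le_one_right (hw z) (hf z hz)
  rw [abs_le]
  constructor
  · have h2 := hasSum_le (f := fun z => -wt M b z) (fun z => (abs_le.1 (h3 z)).1) h1.neg hs
    exact h2
  · exact hasSum_le (fun z => (abs_le.1 (h3 z)).2) hs h1

lemma Zd.dd_le (h : Zd M d) {b : ℝ} (hb : 0 < b) (hb0 : M (-(b : ℂ)) = 0)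
    (hline : ∀ z, M z ≠ 0 → z.re = 0) (n : ℕ) : |dd M b n| ≤ 2 * li M b 1 := by
  refine h.sum_le hb hb0 hline (fun z hz => ?_) (h.dd_line hb hb0 hline n)
  refine (Complex.abs_re_le_norm _).trans ?_
  rw [norm_pow, W_line hb (hline z hz), one_pow]

/-- the rotated sum -/
noncomputable def rot (M : ℂ → ℝ) (b : ℝ) (κ : ℂ → ℂ) (n : ℕ) : ℝ :=
  ∑' z, wt M b z * (W b z ^ (n + 1) * κ z).re

lemma Zd.rot_summable (h : Zd M d) {b : ℝ} (hb : 0 < b) (hb0 : M (-(b : ℂ)) = 0)
    (hline : ∀ z, M z ≠ 0 → z.re = 0) {κ : ℂ → ℂ} (hκ : ∀ z, ‖κ z‖ = 1) (n : ℕ) :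
    Summable fun z => wt M b z * (W b z ^ (n + 1) * κ z).re := by
  refine Summable.of_norm_bounded (h.wt_summable hb hb0).summable fun z => ?_
  by_cases hz : M z = 0
  · simp [wt, hz]
  · have hw := h.wt_nonneg hb hline z
    rw [Real.norm_eq_abs, abs_mul, abs_of_nonneg hw]
    refine mul_le_of_le_one_right hw ((Complex.abs_re_le_norm _).trans ?_)
    rw [norm_mul, norm_pow, W_line hb (hline z hz), one_pow, hκ, mul_one]

/-- **The translations.**  For a base point without relations the second differences can be rotated at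
will by a translation in a class modulo `2 q`. -/
theorem Zd.move (h : Zd M d) {b : ℝ} (hb : 0 < b) (hb0 : M (-(b : ℂ)) = 0)
    (hline : ∀ z, M z ≠ 0 → z.re = 0) (hexd : b ∉ Exd M) {q e : ℕ} (hq : 1 ≤ q) {κ : ℂ → ℂ}
    (hκ : ∀ z, ‖κ z‖ = 1) (hκc : ∀ z, κ (conj z) = conj (κ z)) (hκ0 : κ 0 = (-1) ^ (q * e))
    {ε : ℝ} (hε : 0 < ε) (N : ℕ) :
    ∃ k : ℕ, N ≤ k ∧ ∀ n : ℕ, |dd M b (n + q * (2 * k + e)) - rot M b κ n| ≤ ε := by
  classical
  have hws := h.wt_summable hb hb0
  have hw := h.wt_nonneg hb hline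
  set T : ℝ := 2 * li M b 1 with hT
  have hT0 : 0 ≤ T := hws.nonneg hw
  -- the tail
  obtain ⟨S, hS⟩ : ∃ S : Finset ℂ, T - ε / 4 < ∑ z ∈ S, wt M b z := by
    have h1 : ∀ᶠ S in atTop, T - ε / 4 < ∑ z ∈ S, wt M b z :=
      hws.eventually (lt_mem_nhds (by linarith : T - ε / 4 < T))
    exact h1.exists
  set up : ℂ → ℂ := fun z => if 0 < z.im then z else conj z with hup
  set Y : Finset ℂ := (S.filter (fun z => M z ≠ 0 ∧ z.im ≠ 0)).image up with hY
  have hYmem : ∀ z ∈ S, M z ≠ 0 → z.im ≠ 0 → up z ∈ Y := by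
    intro z hz h1 h2
    rw [hY, mem_image]
    exact ⟨z, by rw [mem_filter]; exact ⟨hz, h1, h2⟩, rfl⟩
  have hYprop : ∀ y ∈ Y, y.re = 0 ∧ 0 < y.im ∧ y ∈ Zs M := by
    intro y hy
    rw [hY, mem_image] at hy
    obtain ⟨z, hz, rfl⟩ := hy
    rw [mem_filter] at hz
    obtain ⟨-, h1, h2⟩ := hz
    by_cases h3 : 0 < z.im
    · have e1 : up z = z := by rw [hup]; simp only [h3, if_true]
      rw [e1]
      exact ⟨hline z h1, h3, Or.inl h1⟩
    · have e1 : up z = conj z := by rw [hup]; simp only [h3, if_false]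
      rw [e1]
      refine ⟨by rw [Complex.conj_re]; exact hline z h1, ?_, Or.inr (by rw [Complex.conj_conj]; exact h1)⟩
      rw [Complex.conj_im]
      have : z.im < 0 := lt_of_le_of_ne (not_lt.1 h3) h2
      linarith
  set ε' : ℝ := ε / (2 * (T + 1)) with hε'
  have hε'0 : 0 < ε' := by positivity
  obtain ⟨k, hk1, hk2⟩ := kro_set Y (v := W b) (fun y hy => W_line hb (hYprop y hy).1)
    (fun n hn => indep_of hexd hYprop n hn) hq e (a := κ) (fun y _ => hκ y) hε'0 N
  refine ⟨k, hk1, fun n => ?_⟩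
  set p : ℕ := q * (2 * k + e) with hp
  -- the error at the zeros of `S`
  have herr : ∀ z ∈ S, M z ≠ 0 → ‖W b z ^ p - κ z‖ ≤ ε' := by
    intro z hz h1
    by_cases h2 : z.im = 0
    · have hz0 : z = 0 := Complex.ext (by simpa using hline z h1) (by simpa using h2)
      have h3 : W b z ^ p = κ z := by
        rw [hz0, W_zero hb, hκ0, hp]
        have : q * (2 * k + e) = 2 * (q * k) + q * e := by ring
        rw [this, pow_add, pow_mul]
        norm_num
      rw [h3, sub_self, norm_zero]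
      exact hε'0.le
    · have h3 := hk2 _ (hYmem z hz h1 h2)
      by_cases h4 : 0 < z.im
      · have h5 : up z = z := by rw [hup]; simp only [h4, if_true]
        rw [h5] at h3
        exact h3.le
      · have h5 : up z = conj z := by rw [hup]; simp only [h4, if_false]
        rw [h5, W_conj, hκc, ← map_pow, ← map_sub, Complex.norm_conj] at h3
        exact h3.le
  have h1 := h.dd_line hb hb0 hline (n + p)
  have h2 := (h.rot_summable hb hb0 hline hκ n).hasSum
  have h3 := h1.sub h2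
  -- the majorant
  have h4 : HasSum (fun z => wt M b z * ε' + 2 * (wt M b z - if z ∈ S then wt M b z else 0))
      (T * ε' + 2 * (T - ∑ z ∈ S, wt M b z)) := by
    have h5 : HasSum (fun z => if z ∈ S then wt M b z else 0) (∑ z ∈ S, wt M b z) := by
      have h6 : HasSum (fun z => if z ∈ S then wt M b z else 0)
          (∑ z ∈ S, (if z ∈ S then wt M b z else 0)) :=
        hasSum_sum_of_ne_finset_zero (fun z hz => by simp [hz])
      have h7 : ∑ z ∈ S, (if z ∈ S then wt M b z else 0) = ∑ z ∈ S, wt M b z :=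
        Finset.sum_congr rfl fun z hz => by simp [hz]
      rwa [h7] at h6
    exact (hws.mul_right ε').add ((hws.sub h5).mul_left 2)
  have hterm : ∀ z, |wt M b z * (W b z ^ (n + p + 1)).re - wt M b z * (W b z ^ (n + 1) * κ z).re| ≤
      wt M b z * ε' + 2 * (wt M b z - if z ∈ S then wt M b z else 0) := by
    intro z
    by_cases hz : M z = 0
    · simp [wt, hz]
    · have hwz := hw z
      have hWz := W_line hb (hline z hz)
      have e1 : wt M b z * (W b z ^ (n + p + 1)).re - wt M b z * (W b z ^ (n + 1) * κ z).re =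
          wt M b z * (W b z ^ (n + 1) * (W b z ^ p - κ z)).re := by
        rw [← mul_sub, ← Complex.sub_re]
        congr 2
        ring
      rw [e1, abs_mul, abs_of_nonneg hwz]
      have h6 : |(W b z ^ (n + 1) * (W b z ^ p - κ z)).re| ≤ ‖W b z ^ p - κ z‖ := by
        refine (Complex.abs_re_le_norm _).trans ?_
        rw [norm_mul, norm_pow, hWz, one_pow, one_mul]
      by_cases hzS : z ∈ S
      · rw [if_pos hzS, sub_self, mul_zero, add_zero]
        exact mul_le_mul_of_nonneg_left (h6.trans (herr z hzS hz)) hwz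
      · rw [if_neg hzS, sub_zero]
        have h7 : ‖W b z ^ p - κ z‖ ≤ 2 := by
          refine (norm_sub_le _ _).trans ?_
          rw [norm_pow, hWz, one_pow, hκ]
          norm_num
        have h8 := mul_le_mul_of_nonneg_left (h6.trans h7) hwz
        have h9 : 0 ≤ wt M b z * ε' := by positivity
        linarith
  have hfin : T * ε' + 2 * (T - ∑ z ∈ S, wt M b z) ≤ ε := by
    have h5 : T * ε' ≤ ε / 2 := by
      rw [hε', ← mul_div_assoc, div_le_iff₀ (by positivity)]
      nlinarith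
    linarith
  have e3 : dd M b (n + p) - rot M b κ n = dd M b (n + p) -
      ∑' z, wt M b z * (W b z ^ (n + 1) * κ z).re := rfl
  rw [e3, abs_le]
  constructor
  · have h6 := hasSum_le (fun z => (abs_le.1 (hterm z)).1) h4.neg h3
    linarith
  · have h6 := hasSum_le (fun z => (abs_le.1 (hterm z)).2) h3 h4
    linarith

end Pool.Agent.N793.LI
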