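import Pool.Agent.N793.LI.SecHalf
import Pool.Agent.N793.LI.FinHalf

/-!
# The second differences of the Li coefficients, in terms of the completed function
-/

set_option autoImplicit false

open Complex Filter Topology Finset
open scoped ComplexConjugate

namespace Pool.Agent.N793.LI

/-- a sequence with second differences bounded below -/
lemma quad_lower {x : ℕ → ℝ} {C : ℝ} (hC : 0 ≤ C)
    (h : ∀ n, -C ≤ x (n + 2) - 2 * x (n + 1) + x n) (n : ℕ) :
    x 0 + n * (x 1 - x 0) - C * (n : ℝ) ^ 2 ≤ x n ∧ x 1 - x 0 - C * n ≤ x (n + 1) - x n := by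
  induction n with
  | zero => simp
  | succ n ih =>
    obtain ⟨h1, h2⟩ := ih
    have h3 := h n
    have hn : (0 : ℝ) ≤ n := Nat.cast_nonneg n
    push_cast
    constructor
    · nlinarith [mul_nonneg hC hn]
    · have e : x (n + 1 + 1) = x (n + 2) := rfl
      rw [e]
      linarith

lemma tame_of_lower {x : ℕ → ℝ} {C : ℝ} (h : ∀ n, -C ≤ x (n + 2) - 2 * x (n + 1) + x n)
    {ε : ℝ} (hε : 0 < ε) : ∃ N : ℕ, ∀ n, N ≤ n → -Real.exp (ε * n) ≤ x n := by
  have hC0 : (0 : ℝ) ≤ max C 0 := le_max_right _ _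
  have h' : ∀ n, -(max C 0) ≤ x (n + 2) - 2 * x (n + 1) + x n := fun n => by
    have := h n
    have := le_max_left C 0
    linarith
  set K : ℝ := |x 0| + |x 1 - x 0| + max C 0 with hK
  have h2 : Tendsto (fun n : ℕ => K * ((n : ℝ) ^ 2 * Real.exp (-ε) ^ n)) atTop (𝓝 (K * 0)) := by
    refine Tendsto.const_mul _ (tendsto_pow_const_mul_const_pow_of_abs_lt_one 2 ?_)
    rw [abs_of_pos (Real.exp_pos _), Real.exp_lt_one_iff]
    linarith
  rw [mul_zero] at h2
  obtain ⟨N, hN⟩ := eventually_atTop.1 (h2.eventually_lt_const one_pos)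
  refine ⟨max N 1, fun n hn => ?_⟩
  have h4 := hN n ((le_max_left _ _).trans hn)
  have hn1 : (1 : ℝ) ≤ n := by exact_mod_cast (le_max_right _ _).trans hn
  have h3 := (quad_lower hC0 h' n).1
  have h5 : Real.exp (ε * n) * Real.exp (-ε) ^ n = 1 := by
    rw [← Real.exp_nat_mul, ← Real.exp_add, ← Real.exp_zero]
    congr 1
    ring
  have h6 : 0 < Real.exp (ε * n) := Real.exp_pos _
  have h7 : K * (n : ℝ) ^ 2 ≤ Real.exp (ε * n) := by
    calc K * (n : ℝ) ^ 2 = (K * ((n : ℝ) ^ 2 * Real.exp (-ε) ^ n)) * Real.exp (ε * n) := by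
          linear_combination (-(K * (n : ℝ) ^ 2)) * h5
      _ ≤ 1 * Real.exp (ε * n) := by gcongr
      _ = _ := one_mul _
  have h8 : -(K * (n : ℝ) ^ 2) ≤ x 0 + n * (x 1 - x 0) - max C 0 * (n : ℝ) ^ 2 := by
    have e1 := neg_abs_le (x 0)
    have e2 := neg_abs_le (x 1 - x 0)
    have e3 := abs_nonneg (x 0)
    have e4 := abs_nonneg (x 1 - x 0)
    have e5 : (n : ℝ) ≤ (n : ℝ) ^ 2 := by nlinarith
    have e6 : (1 : ℝ) ≤ (n : ℝ) ^ 2 := by nlinarith
    have e7 : -(|x 1 - x 0| * (n : ℝ) ^ 2) ≤ n * (x 1 - x 0) := by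
      have : (n : ℝ) * (-|x 1 - x 0|) ≤ n * (x 1 - x 0) := by gcongr
      nlinarith
    have e8 : -(|x 0| * (n : ℝ) ^ 2) ≤ x 0 := by nlinarith
    rw [hK]
    linarith
  linarith

/-- the second difference of the Li coefficients -/
noncomputable def ddl (Λ : ℂ → ℂ) (c a : ℝ) (n : ℕ) : ℝ :=
  lam Λ c a (n + 2) - 2 * lam Λ c a (n + 1) + lam Λ c a n

/-- the conclusions for every base point -/
structure ConvA (Λ : ℂ → ℂ) (c a : ℝ) : Prop where
  bound : OnLine Λ c ↔ ∀ n : ℕ, |ddl Λ c a n| ≤ 2 * lam Λ c a 1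
  bdd : OnLine Λ c ↔ ∃ C : ℝ, ∀ n : ℕ, |ddl Λ c a n| ≤ C
  lower : OnLine Λ c ↔ ∃ C : ℝ, ∀ n : ℕ, -C ≤ ddl Λ c a n
  upper : (∀ x : ℝ, a ≤ x → Λ x ≠ 0) → (OnLine Λ c ↔ ∃ C : ℝ, ∀ n : ℕ, ddl Λ c a n ≤ C)

/-- the conclusions for almost every base point -/
structure ConvG (Λ : ℂ → ℂ) (c a : ℝ) : Prop where
  half : (∃ s, Λ s = 0) → ∀ q r : ℕ, Odd q →
    Dens {m | 0 < ddl Λ c a (q * m + r)} (1 / 2) ∧ Dens {m | ddl Λ c a (q * m + r) < 0} (1 / 2)
  large : ¬ OnLine Λ c → ∃ ε : ℝ, 0 < ε ∧ ∀ q r : ℕ, Odd q →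
    Dens {m | |ddl Λ c a (q * m + r)| ≤ Real.exp (ε * ((q * m + r : ℕ) : ℝ))} 0
  ext : OnLine Λ c → ∀ ε : ℝ, 0 < ε → ∀ N : ℕ,
    (∃ n, N ≤ n ∧ 2 * lam Λ c a 1 - ε ≤ ddl Λ c a n) ∧
    (∃ n, N ≤ n ∧ ddl Λ c a n ≤ -(2 * lam Λ c a 1) + ε)

lemma dens_compl {A : Set ℕ} {δ : ℝ} (h : Tendsto (fun N : ℕ => (numb A N : ℝ) / N) atTop (𝓝 δ)) :
    Dens Aᶜ (1 - δ) := by
  rw [dens_iff]
  refine (h.const_sub 1).congr' ?_
  filter_upwards [eventually_ge_atTop 1] with N hN
  have h1 := numb_compl A N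
  have h2 : (numb A N : ℝ) + numb Aᶜ N = N := by exact_mod_cast h1
  have hN0 : (N : ℝ) ≠ 0 := by
    have : 0 < N := hN
    exact_mod_cast this.ne'
  rw [eq_div_iff hN0, sub_mul, div_mul_cancel₀ _ hN0]
  linarith

theorem conv_concl {Λ : ℂ → ℂ} {c d : ℝ} (h : Sf (fun z => Λ (c + z)) d) :
    (∀ a : ℝ, c < a → Λ a ≠ 0 → ConvA Λ c a) ∧
    ∃ X : Set ℝ, X.Countable ∧ ∀ a : ℝ, c < a → a ∉ X → (∀ x : ℝ, a ≤ x → Λ x ≠ 0) → ConvG Λ c a := by
  classical
  have hzd := h.zd
  set M : ℂ → ℝ := fun z => (analyticOrderNatAt (fun z => Λ (c + z)) z : ℝ) with hM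
  have hMeq : ∀ z, M z = (analyticOrderNatAt Λ (c + z) : ℝ) := by
    intro z
    rw [hM]
    simp only
    rw [order_shift]
  have hM0 : ∀ z, M z ≠ 0 ↔ Λ (c + z) = 0 := by
    intro z
    have := h.ord_ne (z := z)
    rw [hM]
    simp only [ne_eq, Nat.cast_eq_zero]
    exact this
  have hline : OnLine Λ c ↔ ∀ z, M z ≠ 0 → z.re = 0 := by
    constructor
    · intro h1 z hz
      have h2 := h1 (c + z) ((hM0 z).1 hz)
      rw [add_re, Complex.ofReal_re] at h2
      linarith
    · intro h1 s hs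
      have h2 := h1 (s - c) ((hM0 _).2 (by rwa [add_sub_cancel]))
      rw [sub_re, Complex.ofReal_re] at h2
      linarith
  have hoff : ¬ OnLine Λ c → ∃ z, M z ≠ 0 ∧ z.re ≠ 0 := by
    intro h1
    rw [hline] at h1
    push Not at h1
    exact h1
  have hlam : ∀ a : ℝ, ∀ n : ℕ, lam Λ c a n = li M (a - c) n := by
    intro a n
    have hW : ∀ ρ : ℂ, (ρ - a) / (ρ + a - 2 * c) = W (a - c) (ρ - c) := by
      intro ρ
      unfold W
      push_cast
      congr 1 <;> ring
    have hterm : (fun ρ : ℂ => (analyticOrderNatAt Λ ρ : ℝ) *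
        (1 - (((ρ - a) / (ρ + a - 2 * c)) ^ n).re)) =
        (fun z : ℂ => M z * (1 - (W (a - c) z ^ n).re)) ∘ (Equiv.subRight (c : ℂ)) := by
      funext ρ
      simp only [Function.comp_apply, Equiv.subRight_apply]
      rw [hW, hMeq, add_sub_cancel]
    unfold lam li
    rw [hterm]
    exact (Equiv.subRight (c : ℂ)).tsum_eq (fun z : ℂ => M z * (1 - (W (a - c) z ^ n).re))
  have hddl : ∀ a : ℝ, ∀ n : ℕ, ddl Λ c a n = dd M (a - c) n := by
    intro a n
    unfold ddl dd
    rw [hlam, hlam, hlam]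
  have hb0 : ∀ a : ℝ, Λ a ≠ 0 → M (-((a - c : ℝ) : ℂ)) = 0 := by
    intro a ha
    have h1 := hzd.refl ((a - c : ℝ) : ℂ)
    rw [Complex.conj_ofReal] at h1
    rw [h1]
    by_contra h0
    apply ha
    have := (hM0 _).1 h0
    rwa [Complex.ofReal_sub, add_sub_cancel] at this
  refine ⟨fun a hca ha => ?_, (fun b => c + b) '' (Exc M ∪ Exd M),
    (hzd.exc_countable.union hzd.exd_countable).image _, fun a hca haX hax => ?_⟩
  · -- every base point
    have hb : 0 < a - c := by linarith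
    have hMb := hb0 a ha
    have hcon := concl h hca ha
    have hA : Recurrent Set.univ := by
      intro U ε N hU hε
      obtain ⟨L, hL⟩ := syndetic U hU hε
      obtain ⟨n, h1, -, h3⟩ := hL N
      exact ⟨n, Set.mem_univ _, h1.le, h3⟩
    have hbd : OnLine Λ c → ∀ n : ℕ, |ddl Λ c a n| ≤ 2 * lam Λ c a 1 := by
      intro h1 n
      rw [hddl, hlam]
      exact hzd.dd_le hb hMb (hline.1 h1) n
    have hlow : (∃ C : ℝ, ∀ n : ℕ, -C ≤ ddl Λ c a n) → OnLine Λ c := by
      rintro ⟨C, hC⟩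
      rw [hcon.recur Set.univ hA]
      intro ε hε
      obtain ⟨N, hN⟩ := tame_of_lower (x := lam Λ c a) hC hε
      exact ⟨N, fun n _ hn => hN n hn⟩
    refine ⟨⟨hbd, fun h1 => hlow ⟨_, fun n => (abs_le.1 (h1 n)).1⟩⟩,
      ⟨fun h1 => ⟨_, hbd h1⟩, fun ⟨C, h1⟩ => hlow ⟨C, fun n => (abs_le.1 (h1 n)).1⟩⟩,
      ⟨fun h1 => ⟨_, fun n => (abs_le.1 (hbd h1 n)).1⟩, hlow⟩,
      fun hx => ⟨fun h1 => ⟨_, fun n => (abs_le.1 (hbd h1 n)).2⟩, ?_⟩⟩
    rintro ⟨C, hC⟩
    by_contra hn
    obtain ⟨R, hR, κ, hκ, L, N₀, h1⟩ := hcon.both hx hn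
    have hlogR : 0 < Real.log R := Real.log_pos hR
    obtain ⟨N, hN⟩ := tame_of_lower (x := fun n => -lam Λ c a n) (C := C) (fun n => by
      have := hC n
      unfold ddl at this
      linarith) (ε := Real.log R / 2) (by positivity)
    -- `κ R ^ n` is larger than `R ^ (n / 2)`
    have h2 : Tendsto (fun n : ℕ => Real.exp (-(Real.log R / 2) * (n : ℝ))) atTop (𝓝 0) := by
      apply Real.tendsto_exp_atBot.comp
      exact (tendsto_natCast_atTop_atTop (R := ℝ)).const_mul_atTop_of_neg (by linarith)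
    obtain ⟨N₁, hN₁⟩ := eventually_atTop.1 (h2.eventually_lt_const hκ)
    obtain ⟨-, n, hn1, -, hn2⟩ := h1 (max N₀ (max N N₁)) (le_max_left _ _)
    have hnN : N ≤ n := ((le_max_left N N₁).trans (le_max_right N₀ _)).trans hn1.le
    have hnN₁ : N₁ ≤ n := ((le_max_right N N₁).trans (le_max_right N₀ _)).trans hn1.le
    have h3 := hN n hnN
    have h4 := hN₁ n hnN₁
    have hR0 : 0 < R := by linarith
    have h5 : R ^ n = Real.exp (Real.log R * n) := by
      rw [← Real.rpow_natCast, Real.rpow_def_of_pos hR0]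
    have h6 : Real.exp (Real.log R / 2 * n) = Real.exp (-(Real.log R / 2) * n) * R ^ n := by
      rw [h5, ← Real.exp_add]
      congr 1
      ring
    have h7 : 0 < R ^ n := by positivity
    have h8 : Real.exp (Real.log R / 2 * n) < κ * R ^ n := by
      rw [h6]
      gcongr
    linarith
  · -- almost every base point
    have hb : 0 < a - c := by linarith
    have hMb := hb0 a (hax a le_rfl)
    have hexc : a - c ∉ Exc M := fun hbe => haX ⟨a - c, Or.inl hbe, by ring⟩
    have hexd : a - c ∉ Exd M := fun hbe => haX ⟨a - c, Or.inr hbe, by ring⟩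
    have hreal : ∀ x : ℝ, a - c ≤ x → M x = 0 := by
      intro x hx
      by_contra h2
      have h3 := (hM0 _).1 h2
      have h4 := hax (c + x) (by linarith)
      apply h4
      push_cast
      exact h3
    refine ⟨fun hz q r hq => ?_, fun hn => ?_, fun h1 ε hε N => ?_⟩
    · have key : ∀ s : ℝ, s = 1 ∨ s = -1 →
          Tendsto (fun N : ℕ => (numb {m | 0 ≤ s * ddl Λ c a (q * m + r)} N : ℝ) / N) atTop (𝓝 (1 / 2)) := by
        intro s hs
        by_cases hl : OnLine Λ c
        · obtain ⟨s₀, hs₀⟩ := hz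
          have h1 := hzd.line_half hb hMb (hline.1 hl) hexd ⟨s₀ - c, (hM0 _).2 (by rwa [add_sub_cancel])⟩
            (r := r) hq hs
          simp only [hddl]
          exact h1
        · obtain ⟨R, hR, h1⟩ := hzd.off_half hb hreal hexc (hoff hl)
          have h2 := h1 q r hq s hs (fun _ => 0) (by simp)
          simp only [add_zero] at h2
          simp only [hddl]
          exact h2
      constructor
      · have h1 := dens_compl (key (-1) (Or.inr rfl))
        have e : {m | 0 ≤ -1 * ddl Λ c a (q * m + r)}ᶜ = {m | 0 < ddl Λ c a (q * m + r)} := by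
          ext m
          rw [Set.mem_compl_iff, Set.mem_setOf_eq, Set.mem_setOf_eq, not_le]
          constructor <;> intro h <;> linarith
        rw [e] at h1
        norm_num at h1
        exact h1
      · have h1 := dens_compl (key 1 (Or.inl rfl))
        have e : {m | 0 ≤ 1 * ddl Λ c a (q * m + r)}ᶜ = {m | ddl Λ c a (q * m + r) < 0} := by
          ext m
          rw [Set.mem_compl_iff, Set.mem_setOf_eq, Set.mem_setOf_eq, not_le]
          constructor <;> intro h <;> linarith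
        rw [e] at h1
        norm_num at h1
        exact h1
    · obtain ⟨R, hR, h1⟩ := hzd.off_half hb hreal hexc (hoff hn)
      have hR0 : 0 < R := by linarith
      have hlogR : 0 < Real.log R := Real.log_pos hR
      refine ⟨Real.log R / 2, by positivity, fun q r hq => ?_⟩
      have hlim : Tendsto (fun n : ℕ => Real.exp (Real.log R / 2 * (n : ℝ)) / R ^ n) atTop (𝓝 0) := by
        have h2 : Tendsto (fun n : ℕ => Real.exp (-(Real.log R / 2) * (n : ℝ))) atTop (𝓝 0) := by
          apply Real.tendsto_exp_atBot.comp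
          exact (tendsto_natCast_atTop_atTop (R := ℝ)).const_mul_atTop_of_neg (by linarith)
        refine h2.congr fun n => ?_
        have h5 : R ^ n = Real.exp (Real.log R * n) := by
          rw [← Real.rpow_natCast, Real.rpow_def_of_pos hR0]
        rw [h5, ← Real.exp_sub]
        congr 1
        ring
      have h2 := h1 q r hq 1 (Or.inl rfl) (fun n => Real.exp (Real.log R / 2 * (n : ℝ))) hlim
      have h3 := h1 q r hq (-1) (Or.inr rfl) (fun n => -Real.exp (Real.log R / 2 * (n : ℝ)))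
        (by
          have := hlim.neg
          rw [neg_zero] at this
          refine this.congr fun n => ?_
          rw [neg_div])
      rw [dens_iff]
      set A : Set ℕ := {m | 0 ≤ 1 * (dd M (a - c) (q * m + r) +
        Real.exp (Real.log R / 2 * ((q * m + r : ℕ) : ℝ)))} with hA
      set B : Set ℕ := {m | 0 ≤ -1 * (dd M (a - c) (q * m + r) +
        -Real.exp (Real.log R / 2 * ((q * m + r : ℕ) : ℝ)))} with hB
      have h6 := (h2.add h3).sub_const 1
      have e : (1 / 2 + 1 / 2 - 1 : ℝ) = 0 := by norm_num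
      rw [e] at h6
      refine h6.congr' ?_
      filter_upwards [eventually_ge_atTop 1] with N hN
      have h7 := numb_inter A B (fun m => by
        have hp := Real.exp_pos (Real.log R / 2 * ((q * m + r : ℕ) : ℝ))
        rcases le_total 0 (dd M (a - c) (q * m + r)) with h | h
        · left
          rw [hA, Set.mem_setOf_eq]
          linarith
        · right
          rw [hB, Set.mem_setOf_eq]
          linarith) N
      have h8 : A ∩ B = {m | |ddl Λ c a (q * m + r)| ≤
          Real.exp (Real.log R / 2 * ((q * m + r : ℕ) : ℝ))} := by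
        ext m
        rw [Set.mem_inter_iff, hA, hB, Set.mem_setOf_eq, Set.mem_setOf_eq, Set.mem_setOf_eq, abs_le, hddl]
        constructor
        · rintro ⟨h9, h10⟩
          constructor <;> linarith
        · rintro ⟨h9, h10⟩
          constructor <;> linarith
      rw [h8] at h7
      have hNR : (0 : ℝ) < N := by exact_mod_cast hN
      have h9 : (numb {m | |ddl Λ c a (q * m + r)| ≤
          Real.exp (Real.log R / 2 * ((q * m + r : ℕ) : ℝ))} N : ℝ) + N = numb A N + numb B N := by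
        exact_mod_cast h7
      have h10 : ∀ x y z : ℝ, x + N = y + z → y / N + z / N - 1 = x / N := by
        intro x y z h
        field_simp
        linarith
      exact h10 _ _ _ h9
    · have h2 := hzd.line_ext hb hMb (hline.1 h1) hexd hε N
      simp only [hddl, hlam]
      exact h2

end Pool.Agent.N793.LI
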