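import Pool.Agent.N793.LI.SecFin

/-!
# The second differences of the Li coefficients: the final form
-/

set_option autoImplicit false

open Complex Filter Topology Finset
open scoped ComplexConjugate

namespace Pool.Agent.N793.LI

/-- further conclusions for almost every base point -/
structure ConvS (Λ : ℂ → ℂ) (c a : ℝ) : Prop where
  sup : OnLine Λ c ↔ IsLUB (Set.range (ddl Λ c a)) (2 * lam Λ c a 1)
  inf : OnLine Λ c ↔ IsGLB (Set.range (ddl Λ c a)) (-(2 * lam Λ c a 1))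
  small : ∀ q r : ℕ, Odd q → (OnLine Λ c ↔ ∀ ε : ℝ, 0 < ε →
    ¬ Dens {m | |ddl Λ c a (q * m + r)| ≤ Real.exp (ε * ((q * m + r : ℕ) : ℝ))} 0)

theorem convS_of {Λ : ℂ → ℂ} {c a : ℝ} (hA : ConvA Λ c a) (hG : ConvG Λ c a)
    (hx : ∀ x : ℝ, a ≤ x → Λ x ≠ 0) : ConvS Λ c a := by
  refine ⟨⟨fun h => ⟨?_, ?_⟩, fun h => ?_⟩, ⟨fun h => ⟨?_, ?_⟩, fun h => ?_⟩, fun q r hq => ⟨fun h ε hε h0 => ?_, fun h => ?_⟩⟩
  · rintro _ ⟨n, rfl⟩
    exact (abs_le.1 (hA.bound.1 h n)).2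
  · intro B hB
    refine le_of_forall_pos_le_add fun ε hε => ?_
    obtain ⟨⟨n, -, hn⟩, -⟩ := hG.ext h ε hε 0
    have := hB ⟨n, rfl⟩
    linarith
  · exact (hA.upper hx).2 ⟨_, fun n => h.1 ⟨n, rfl⟩⟩
  · rintro _ ⟨n, rfl⟩
    exact (abs_le.1 (hA.bound.1 h n)).1
  · intro B hB
    refine le_of_forall_pos_le_add fun ε hε => ?_
    obtain ⟨-, n, -, hn⟩ := hG.ext h ε hε 0
    have := hB ⟨n, rfl⟩
    linarith
  · exact hA.lower.2 ⟨_, fun n => h.1 ⟨n, rfl⟩⟩
  · -- bounded, hence almost all are small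
    have hb := hA.bound.1 h
    have hlim : Tendsto (fun n : ℕ => Real.exp (ε * (n : ℝ))) atTop atTop := by
      apply Real.tendsto_exp_atTop.comp
      exact (tendsto_natCast_atTop_atTop (R := ℝ)).const_mul_atTop hε
    obtain ⟨N, hN⟩ := eventually_atTop.1 (hlim.eventually_ge_atTop (2 * lam Λ c a 1))
    have h1 : Dens {m | |ddl Λ c a (q * m + r)| ≤ Real.exp (ε * ((q * m + r : ℕ) : ℝ))} 1 := by
      refine prp_one (m := N) fun m hm => ?_
      have hq1 : 1 ≤ q := hq.pos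
      have h2 : m ≤ q * m := Nat.le_mul_of_pos_left m hq1
      exact (hb _).trans (hN _ (by omega))
    have h2 := tendsto_nhds_unique h0 h1
    norm_num at h2
  · by_contra hn
    obtain ⟨ε, hε, h1⟩ := hG.large hn
    exact h ε hε (h1 q r hq)

end Pool.Agent.N793.LI
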