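import Pool.Agent.N793.LI.Sec

/-!
# One half of the second differences of the Li coefficients are positive
-/

set_option autoImplicit false

open Complex Filter Topology Finset
open scoped ComplexConjugate

namespace Pool.Agent.N793.LI

variable {M : ℂ → ℝ} {d : ℝ}

lemma not_root {b : ℝ} (hexd : b ∉ Exd M) {z : ℂ} (hM : M z ≠ 0) (hre : z.re = 0) (him : z.im ≠ 0)
    {k : ℕ} (hk : 1 ≤ k) : W b z ^ k ≠ 1 := by
  intro h1
  obtain ⟨y, hy1, hy2, hy3, hy4⟩ : ∃ y : ℂ, y.re = 0 ∧ 0 < y.im ∧ y ∈ Zs M ∧ W b y ^ k = 1 := by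
    rcases lt_or_gt_of_ne him with h | h
    · refine ⟨conj z, by simpa using hre, by simpa using h, Or.inr (by rw [Complex.conj_conj]; exact hM), ?_⟩
      rw [W_conj, ← map_pow, h1, map_one]
    · exact ⟨z, hre, h, Or.inl hM, h1⟩
  have h2 := indep_of hexd (Y := {y}) (fun x hx => by
    rw [mem_singleton] at hx
    rw [hx]
    exact ⟨hy1, hy2, hy3⟩) (fun _ => (k : ℤ)) (by rw [prod_singleton, zpow_natCast, hy4]) y
    (mem_singleton_self y)
  have : (k : ℤ) ≠ 0 := by exact_mod_cast (by omega : k ≠ 0)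
  exact this h2

/-- the translation which changes the sign -/
lemma Zd.line_flip (h : Zd M d) {b : ℝ} (hb : 0 < b) (hb0 : M (-(b : ℂ)) = 0)
    (hline : ∀ z, M z ≠ 0 → z.re = 0) (hexd : b ∉ Exd M) {q r : ℕ} (hq : Odd q) {ε : ℝ} (hε : 0 < ε) :
    ∃ p : ℕ, ∀ m, |dd M b (q * (m + p) + r) + dd M b (q * m + r)| ≤ ε := by
  obtain ⟨k, -, hk⟩ := h.move hb hb0 hline hexd (q := q) (e := 1) hq.pos (κ := fun _ => -1)
    (fun _ => by simp) (fun _ => by simp) (by rw [mul_one, hq.neg_one_pow]) hε 0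
  refine ⟨2 * k + 1, fun m => ?_⟩
  have h1 := hk (q * m + r)
  have h2 : rot M b (fun _ => -1) (q * m + r) = -dd M b (q * m + r) := by
    unfold rot
    refine HasSum.tsum_eq ?_
    refine (h.dd_line hb hb0 hline (q * m + r)).neg.congr_fun fun z => ?_
    rw [mul_neg, mul_one, Complex.neg_re]
    ring
  rw [h2, sub_neg_eq_add] at h1
  have e : q * (m + (2 * k + 1)) + r = q * m + r + q * (2 * k + 1) := by ring
  rw [e]
  exact h1

/-- the rotation of one frequency -/
lemma Zd.line_mov (h : Zd M d) {b : ℝ} (hb : 0 < b) (hb0 : M (-(b : ℂ)) = 0)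
    (hline : ∀ z, M z ≠ 0 → z.re = 0) (hexd : b ∉ Exd M) {q r : ℕ} (hq : 1 ≤ q) {z₁ : ℂ}
    (hz₁ : z₁.im ≠ 0) {ζ : ℂ} (hζ : ‖ζ‖ = 1) {ε : ℝ} (hε : 0 < ε) :
    ∃ p : ℕ, ∀ m, |dd M b (q * (m + p) + r) - dd M b (q * m + r) -
      (wt M b z₁ + wt M b (conj z₁)) * ((W b z₁ ^ q) ^ m * W b z₁ ^ (r + 1) * (ζ - 1)).re| ≤ ε := by
  classical
  have hne : conj z₁ ≠ z₁ := by
    intro hc
    exact hz₁ (Complex.conj_eq_iff_im.1 hc)
  have hne0 : (0 : ℂ) ≠ z₁ := by
    intro hc
    rw [← hc] at hz₁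
    exact hz₁ rfl
  have hne0' : (0 : ℂ) ≠ conj z₁ := by
    intro hc
    apply hne0
    have := congrArg conj hc
    rw [map_zero, Complex.conj_conj] at this
    exact this
  set κ : ℂ → ℂ := fun z => if z = z₁ then ζ else if z = conj z₁ then conj ζ else 1 with hκ
  have hκ1 : κ z₁ = ζ := by rw [hκ]; simp
  have hκ2 : κ (conj z₁) = conj ζ := by rw [hκ]; simp [hne]
  have hκ3 : ∀ z, z ≠ z₁ → z ≠ conj z₁ → κ z = 1 := by
    intro z h1 h2
    rw [hκ]
    simp [h1, h2]
  obtain ⟨k, -, hk⟩ := h.move hb hb0 hline hexd (q := q) (e := 0) hq (κ := κ)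
    (fun z => by
      rcases eq_or_ne z z₁ with rfl | h1
      · rw [hκ1, hζ]
      · rcases eq_or_ne z (conj z₁) with rfl | h2
        · rw [hκ2, Complex.norm_conj, hζ]
        · rw [hκ3 z h1 h2, norm_one])
    (fun z => by
      rcases eq_or_ne z z₁ with rfl | h1
      · rw [hκ1, hκ2]
      · rcases eq_or_ne z (conj z₁) with rfl | h2
        · rw [hκ2, Complex.conj_conj, hκ1, Complex.conj_conj]
        · rw [hκ3 z h1 h2, hκ3, map_one]
          · intro hc
            apply h2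
            rw [← hc, Complex.conj_conj]
          · intro hc
            apply h1
            have := congrArg conj hc
            rwa [Complex.conj_conj, Complex.conj_conj] at this)
    (by rw [hκ3 0 hne0 hne0', mul_zero, pow_zero]) hε 0
  refine ⟨2 * k, fun m => ?_⟩
  have h1 := hk (q * m + r)
  have h2 : rot M b κ (q * m + r) = dd M b (q * m + r) +
      (wt M b z₁ + wt M b (conj z₁)) * ((W b z₁ ^ q) ^ m * W b z₁ ^ (r + 1) * (ζ - 1)).re := by
    unfold rot
    refine HasSum.tsum_eq ?_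
    have h3 := h.dd_line hb hb0 hline (q * m + r)
    have h4 := hasSum_ite_eq z₁ (wt M b z₁ * ((W b z₁ ^ q) ^ m * W b z₁ ^ (r + 1) * (ζ - 1)).re)
    have h5 := hasSum_ite_eq (conj z₁)
      (wt M b (conj z₁) * ((W b z₁ ^ q) ^ m * W b z₁ ^ (r + 1) * (ζ - 1)).re)
    have h6 := h3.add (h4.add h5)
    rw [← add_mul] at h6
    refine h6.congr_fun fun z => ?_
    have e1 : (W b z₁ ^ q) ^ m * W b z₁ ^ (r + 1) = W b z₁ ^ (q * m + r + 1) := by
      rw [← pow_mul, ← pow_add]
      congr 1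
    rw [e1]
    rcases eq_or_ne z z₁ with rfl | h7
    · rw [hκ1, if_pos rfl, if_neg hne.symm, add_zero, ← mul_add, ← Complex.add_re]
      congr 2
      ring
    · rcases eq_or_ne z (conj z₁) with rfl | h8
      · rw [hκ2, if_neg hne, if_pos rfl, zero_add, ← mul_add, W_conj]
        congr 1
        have e2 : conj (W b z₁) ^ (q * m + r + 1) * conj ζ = conj (W b z₁ ^ (q * m + r + 1) * ζ) := by
          rw [map_mul, map_pow]
        rw [e2, Complex.conj_re, ← map_pow, Complex.conj_re, ← Complex.add_re]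
        congr 1
        ring
      · rw [hκ3 z h7 h8, if_neg h7, if_neg h8, mul_one]
        ring
  rw [h2] at h1
  have e : q * (m + 2 * k) + r = q * m + r + q * (2 * k + 0) := by ring
  rw [e]
  have e2 : dd M b (q * m + r + q * (2 * k + 0)) - dd M b (q * m + r) -
      (wt M b z₁ + wt M b (conj z₁)) * ((W b z₁ ^ q) ^ m * W b z₁ ^ (r + 1) * (ζ - 1)).re =
      dd M b (q * m + r + q * (2 * k + 0)) - (dd M b (q * m + r) +
      (wt M b z₁ + wt M b (conj z₁)) * ((W b z₁ ^ q) ^ m * W b z₁ ^ (r + 1) * (ζ - 1)).re) := by ring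
  rw [e2]
  exact h1

/-- the second differences are rarely small -/
lemma Zd.line_thin (h : Zd M d) {b : ℝ} (hb : 0 < b) (hb0 : M (-(b : ℂ)) = 0)
    (hline : ∀ z, M z ≠ 0 → z.re = 0) (hexd : b ∉ Exd M) (hne : ∃ z, M z ≠ 0) {q r : ℕ} (hq : 1 ≤ q)
    {η : ℝ} (hη : 0 < η) :
    ∃ ε : ℝ, 0 < ε ∧ ∃ N₀ : ℕ, ∀ N, N₀ ≤ N → (numb {m | |dd M b (q * m + r)| ≤ ε} N : ℝ) ≤ η * N := by
  classical
  by_cases hz : ∃ z, M z ≠ 0 ∧ z.im ≠ 0
  · obtain ⟨z₁, h1, h2⟩ := hz
    have hw := h.wt_nonneg hb hline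
    have hW := W_line hb (hline z₁ h1)
    refine thin_of_mov (u := W b z₁ ^ q) (e := W b z₁ ^ (r + 1)) (c := wt M b z₁ + wt M b (conj z₁))
      (by rw [norm_pow, hW, one_pow]) (by rw [norm_pow, hW, one_pow]) ?_ (fun k hk => ?_)
      (fun ζ hζ ε hε => h.line_mov hb hb0 hline hexd hq h2 hζ hε) hη
    · have := h.wt_pos hb hline h1
      linarith [hw (conj z₁)]
    · rw [← pow_mul]
      exact not_root hexd h1 (hline z₁ h1) h2 (Nat.mul_pos hq hk)
  · push Not at hz
    have h0 : ∀ z, M z ≠ 0 → z = 0 := fun z h1 =>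
      Complex.ext (by simpa using hline z h1) (by simpa using hz z h1)
    obtain ⟨z, hz1⟩ := hne
    have hM0 : M 0 ≠ 0 := by rw [← h0 z hz1]; exact hz1
    have hw0 := h.wt_pos hb hline hM0
    refine ⟨wt M b 0 / 2, by positivity, 0, fun N _ => ?_⟩
    have h3 : {m | |dd M b (q * m + r)| ≤ wt M b 0 / 2} = (∅ : Set ℕ) := by
      ext m
      rw [Set.mem_setOf_eq]
      simp only [Set.mem_empty_iff_false, iff_false, not_le]
      have h4 := h.dd_line hb hb0 hline (q * m + r)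
      have h5 : HasSum (fun z => wt M b z * (W b z ^ (q * m + r + 1)).re)
          (wt M b 0 * (W b 0 ^ (q * m + r + 1)).re) := by
        refine hasSum_single 0 fun z hz => ?_
        have : M z = 0 := by
          by_contra hc
          exact hz (h0 z hc)
        simp [wt, this]
      rw [h4.unique h5, abs_mul, abs_of_pos hw0, W_zero hb]
      rcases Nat.even_or_odd (q * m + r + 1) with he | ho
      · rw [he.neg_one_pow, one_re, abs_one]; linarith
      · rw [ho.neg_one_pow, neg_re, one_re, abs_neg, abs_one]; linarith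
    rw [h3]
    have h4 : numb (∅ : Set ℕ) N = 0 := by simp [numb]
    rw [h4, Nat.cast_zero]
    positivity

/-- **On the line.**  One half of the second differences are nonnegative, one half are nonpositive. -/
theorem Zd.line_half (h : Zd M d) {b : ℝ} (hb : 0 < b) (hb0 : M (-(b : ℂ)) = 0)
    (hline : ∀ z, M z ≠ 0 → z.re = 0) (hexd : b ∉ Exd M) (hne : ∃ z, M z ≠ 0) {q r : ℕ} (hq : Odd q)
    {s : ℝ} (hs : s = 1 ∨ s = -1) :
    Tendsto (fun N : ℕ => (numb {m | 0 ≤ s * dd M b (q * m + r)} N : ℝ) / N) atTop (𝓝 (1 / 2)) := by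
  have hs1 : |s| = 1 := by rcases hs with rfl | rfl <;> simp
  refine half_of (g := fun m => s * dd M b (q * m + r)) (fun ε hε => ?_) (fun η hη => ?_)
    (fun ε hε => ⟨0, fun m _ => ?_⟩)
  · obtain ⟨p, hp⟩ := h.line_flip hb hb0 hline hexd (r := r) hq hε
    refine ⟨p, fun m => ?_⟩
    rw [← mul_add, abs_mul, hs1, one_mul]
    exact hp m
  · obtain ⟨ε, hε, N₀, hN₀⟩ := h.line_thin hb hb0 hline hexd hne (r := r) hq.pos hη
    refine ⟨ε, hε, N₀, fun N hN => ?_⟩
    have e : ∀ m, |s * dd M b (q * m + r)| = |dd M b (q * m + r)| := by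
      intro m
      rw [abs_mul, hs1, one_mul]
    simp only [e]
    exact hN₀ N hN
  · rw [sub_self, abs_zero]
    exact hε.le

/-- the extreme values -/
theorem Zd.line_ext (h : Zd M d) {b : ℝ} (hb : 0 < b) (hb0 : M (-(b : ℂ)) = 0)
    (hline : ∀ z, M z ≠ 0 → z.re = 0) (hexd : b ∉ Exd M) {ε : ℝ} (hε : 0 < ε) (N : ℕ) :
    (∃ n, N ≤ n ∧ 2 * li M b 1 - ε ≤ dd M b n) ∧ (∃ n, N ≤ n ∧ dd M b n ≤ -(2 * li M b 1) + ε) := by
  have key : ∀ (s : ℝ) (e : ℕ), |s| = 1 → (-1 : ℂ) * s = (-1) ^ e →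
      ∃ n, N ≤ n ∧ |dd M b n - s * (2 * li M b 1)| ≤ ε := by
    intro s e hs hse
    classical
    set κ : ℂ → ℂ := fun z => if z.re = 0 then s * conj (W b z) else 1 with hκ
    obtain ⟨k, hk1, hk⟩ := h.move hb hb0 hline hexd (q := 1) (e := e) le_rfl (κ := κ)
      (fun z => by
        by_cases hz : z.re = 0
        · rw [hκ]
          simp only [hz, if_true]
          rw [norm_mul, Complex.norm_real, Real.norm_eq_abs, hs, Complex.norm_conj, W_line hb hz, one_mul]
        · rw [hκ]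
          simp [hz])
      (fun z => by
        by_cases hz : z.re = 0
        · rw [hκ]
          simp only [Complex.conj_re, hz, if_true]
          rw [map_mul, Complex.conj_ofReal, Complex.conj_conj, W_conj, Complex.conj_conj]
        · rw [hκ]
          simp [Complex.conj_re, hz])
      (by
        rw [hκ]
        simp only [zero_re, if_true]
        rw [W_zero hb, map_neg, map_one, one_mul, ← hse, mul_comm]) hε N
    refine ⟨0 + 1 * (2 * k + e), by omega, ?_⟩
    have h1 := hk 0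
    have h2 : rot M b κ 0 = s * (2 * li M b 1) := by
      unfold rot
      refine HasSum.tsum_eq ?_
      have h3 := (h.wt_summable hb hb0).mul_left s
      refine h3.congr_fun fun z => ?_
      by_cases hz : M z = 0
      · simp [wt, hz]
      · have hre := hline z hz
        have h4 : W b z ^ (0 + 1) * κ z = (s : ℂ) := by
          rw [hκ]
          simp only [hre, if_true]
          rw [zero_add, pow_one]
          have h5 : W b z * conj (W b z) = 1 := by
            rw [Complex.mul_conj, Complex.normSq_eq_norm_sq, W_line hb hre]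
            norm_num
          calc W b z * (s * conj (W b z)) = s * (W b z * conj (W b z)) := by ring
            _ = s := by rw [h5, mul_one]
        rw [h4, Complex.ofReal_re]
        ring
    rw [h2] at h1
    exact h1
  constructor
  · obtain ⟨n, hn, h1⟩ := key 1 1 (by simp) (by simp)
    refine ⟨n, hn, ?_⟩
    rw [abs_le] at h1
    linarith [h1.1]
  · obtain ⟨n, hn, h1⟩ := key (-1) 0 (by simp) (by simp)
    refine ⟨n, hn, ?_⟩
    rw [abs_le] at h1
    linarith [h1.2]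

/-! ### off the line -/

/-- rotations -/
theorem circ_half {u c : ℂ} (hun : ‖u‖ = 1) (hc : ‖c‖ = 1)
    (hu : (∀ k : ℕ, 1 ≤ k → u ^ k ≠ 1) ∨ (u = -1 ∧ |c.re| = 1)) {q r : ℕ} (hq : Odd q) {x : ℕ → ℝ}
    (hx : ∀ ε : ℝ, 0 < ε → ∃ N₀ : ℕ, ∀ m, N₀ ≤ m → |x m - (u ^ (q * m + r) * c).re| ≤ ε) :
    Tendsto (fun N : ℕ => (numb {m | 0 ≤ x m} N : ℝ) / N) atTop (𝓝 (1 / 2)) := by
  have hq1 : 1 ≤ q := hq.pos
  refine half_of (g := fun m => (u ^ (q * m + r) * c).re) ?_ ?_ hx
  · intro ε hε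
    obtain ⟨p, hp⟩ : ∃ p : ℕ, ‖(u ^ q) ^ p + 1‖ ≤ ε := by
      rcases hu with hu | ⟨hu, -⟩
      · refine flip (by rw [norm_pow, hun, one_pow]) (fun k hk => ?_) hε
        rw [← pow_mul]
        exact hu _ (Nat.mul_pos hq1 hk)
      · refine ⟨1, ?_⟩
        rw [hu, hq.neg_one_pow]
        simp [hε.le]
    refine ⟨p, fun m => ?_⟩
    have e : (u ^ (q * (m + p) + r) * c).re + (u ^ (q * m + r) * c).re =
        (((u ^ q) ^ p + 1) * (u ^ (q * m + r) * c)).re := by
      have : u ^ (q * (m + p) + r) = (u ^ q) ^ p * u ^ (q * m + r) := by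
        rw [← pow_mul, ← pow_add]; congr 1; ring
      rw [this, ← Complex.add_re]
      congr 1
      ring
    rw [e]
    refine (Complex.abs_re_le_norm _).trans ?_
    rw [norm_mul, norm_mul, norm_pow, hun, one_pow, hc, mul_one, mul_one]
    exact hp
  · intro η hη
    have e0 : ∀ m, (u ^ (q * m + r) * c).re = ((u ^ q) ^ m * (u ^ r * c)).re := by
      intro m
      rw [pow_add, pow_mul, mul_assoc]
    rcases hu with hu | ⟨hu, hcr⟩
    · obtain ⟨ε, hε, N₀, hN₀⟩ := thin (v := u ^ q) (c := u ^ r * c) (by rw [norm_pow, hun, one_pow])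
        (by rw [norm_mul, norm_pow, hun, one_pow, hc, one_mul]) (fun k hk => by
          rw [← pow_mul]
          exact hu _ (Nat.mul_pos hq1 hk)) hη
      refine ⟨ε, hε, N₀, fun N hN => ?_⟩
      have := hN₀ N hN
      simp only [e0]
      exact this
    · refine ⟨1 / 2, by norm_num, 0, fun N _ => ?_⟩
      have h1 : {m | |(u ^ (q * m + r) * c).re| ≤ 1 / 2} = (∅ : Set ℕ) := by
        ext m
        rw [Set.mem_setOf_eq]
        simp only [Set.mem_empty_iff_false, iff_false, not_le]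
        rw [hu]
        rcases Nat.even_or_odd (q * m + r) with he | ho
        · rw [he.neg_one_pow, one_mul, hcr]; norm_num
        · rw [ho.neg_one_pow, neg_one_mul, neg_re, abs_neg, hcr]; norm_num
      rw [h1]
      have h2 : numb (∅ : Set ℕ) N = 0 := by simp [numb]
      rw [h2, Nat.cast_zero]
      positivity

/-- **Off the line.** -/
theorem Zd.off_half (h : Zd M d) {b : ℝ} (hb : 0 < b) (hreal : ∀ x : ℝ, b ≤ x → M x = 0)
    (hexc : b ∉ Exc M) (hoff : ∃ z, M z ≠ 0 ∧ z.re ≠ 0) :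
    ∃ R : ℝ, 1 < R ∧ ∀ (q r : ℕ), Odd q → ∀ (s : ℝ), s = 1 ∨ s = -1 → ∀ (δ : ℕ → ℝ),
      Tendsto (fun n => δ n / R ^ n) atTop (𝓝 0) →
      Tendsto (fun N : ℕ => (numb {m | 0 ≤ s * (dd M b (q * m + r) + δ (q * m + r))} N : ℝ) / N)
        atTop (𝓝 (1 / 2)) := by
  obtain ⟨R, μ, u, hR1, hμ, hun, hu, hasym⟩ := h.generic hb hreal hexc hoff
  have hR0 : 0 < R := by linarith
  refine ⟨R, hR1, fun q r hq s hs δ hδ => ?_⟩
  have hs1 : |s| = 1 := by rcases hs with rfl | rfl <;> simp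
  -- the constant
  set E : ℂ := (R * u - 1) ^ 2 with hE
  have hE0 : E ≠ 0 := by
    rw [hE]
    apply pow_ne_zero
    intro hc
    have h1 : (R : ℂ) * u = 1 := sub_eq_zero.1 hc
    have h2 := congrArg norm h1
    rw [norm_mul, Complex.norm_real, Real.norm_eq_abs, abs_of_pos hR0, hun, mul_one, norm_one] at h2
    linarith
  have hEn : 0 < ‖E‖ := norm_pos_iff.2 hE0
  -- the asymptotic formula of the second differences
  have hdd : ∀ η : ℝ, 0 < η → ∃ N : ℕ, ∀ n, N ≤ n → |dd M b n + R ^ n * (μ * (u ^ n * E).re)| ≤ η * R ^ n := by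
    intro η hη
    obtain ⟨N, hN⟩ := hasym (η / (R + 1) ^ 2) (by positivity)
    refine ⟨N, fun n hn => ?_⟩
    have a0 := hN n hn
    have a1 := hN (n + 1) (by omega)
    have a2 := hN (n + 2) (by omega)
    have e : dd M b n + R ^ n * (μ * (u ^ n * E).re) =
        (li M b (n + 2) + R ^ (n + 2) * (μ * (u ^ (n + 2)).re)) -
        2 * (li M b (n + 1) + R ^ (n + 1) * (μ * (u ^ (n + 1)).re)) +
        (li M b n + R ^ n * (μ * (u ^ n).re)) := by
      have e1 : u ^ n * E = ((R ^ 2 : ℝ) : ℂ) * u ^ (n + 2) - ((2 * R : ℝ) : ℂ) * u ^ (n + 1) + u ^ n := by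
        rw [hE]; push_cast; ring
      rw [e1, add_re, sub_re, Complex.re_ofReal_mul, Complex.re_ofReal_mul, dd]
      ring
    rw [e]
    have e2 : η * R ^ n = η / (R + 1) ^ 2 * R ^ (n + 2) + 2 * (η / (R + 1) ^ 2 * R ^ (n + 1)) +
        η / (R + 1) ^ 2 * R ^ n := by
      field_simp
      ring
    rw [e2]
    rw [abs_le] at a0 a1 a2 ⊢
    constructor <;> linarith [a0.1, a0.2, a1.1, a1.2, a2.1, a2.2]
  set c : ℂ := -(s : ℂ) * (E / (‖E‖ : ℝ)) with hc
  have hcn : ‖c‖ = 1 := by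
    rw [hc, norm_mul, norm_neg, Complex.norm_real, Real.norm_eq_abs, hs1, one_mul, norm_div,
      Complex.norm_real, norm_norm, div_self hEn.ne']
  refine (circ_half (u := u) (c := c) (q := q) (r := r)
    (x := fun m => s * (dd M b (q * m + r) + δ (q * m + r)) / (μ * ‖E‖ * R ^ (q * m + r))) hun hcn ?_ hq ?_).congr
      fun N => ?_
  · rcases hu with hu | hu
    · exact Or.inl hu
    · right
      refine ⟨hu, ?_⟩
      have h1 : E = (((R + 1) ^ 2 : ℝ) : ℂ) := by
        rw [hE, hu]; push_cast; ring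
      have h2 : ‖E‖ = (R + 1) ^ 2 := by
        rw [h1, Complex.norm_real, Real.norm_eq_abs, abs_of_nonneg (by positivity)]
      have h3 : E / (‖E‖ : ℝ) = 1 := by
        rw [h2, h1, div_self]
        exact_mod_cast (by positivity : ((R + 1) ^ 2 : ℝ) ≠ 0)
      rw [hc, h3, mul_one, neg_re, Complex.ofReal_re, abs_neg, hs1]
  · intro ε hε
    obtain ⟨N₁, hN₁⟩ := hdd (ε / 2 * ‖E‖) (by positivity)
    obtain ⟨N₂, hN₂⟩ := Metric.tendsto_atTop.1 hδ (ε / 2 * ‖E‖) (by positivity)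
    refine ⟨max N₁ N₂, fun m hm => ?_⟩
    have hq1 : 1 ≤ q := hq.pos
    have hmq : m ≤ q * m := Nat.le_mul_of_pos_left m hq1
    set n := q * m + r with hn
    have hn1 : N₁ ≤ n := by have := le_max_left N₁ N₂; omega
    have hn2 : N₂ ≤ n := by have := le_max_right N₁ N₂; omega
    have b1 := hN₁ n hn1
    have b2 := hN₂ n hn2
    have hRn : 0 < R ^ n := by positivity
    rw [dist_zero_right, Real.norm_eq_abs, abs_div, abs_of_pos hRn, div_lt_iff₀ hRn] at b2
    have hden : 0 < μ * ‖E‖ * R ^ n := by positivity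
    have e1 : (u ^ n * c).re = -(s * (u ^ n * E).re / ‖E‖) := by
      have : u ^ n * c = ((-s / ‖E‖ : ℝ) : ℂ) * (u ^ n * E) := by
        rw [hc]; push_cast; ring
      rw [this, Complex.re_ofReal_mul]
      ring
    have e2 : s * (dd M b n + δ n) / (μ * ‖E‖ * R ^ n) - (u ^ n * c).re =
        (s * (dd M b n + R ^ n * (μ * (u ^ n * E).re)) + s * δ n) / (μ * ‖E‖ * R ^ n) := by
      rw [e1]
      field_simp
      ring
    rw [e2, abs_div, abs_of_pos hden, div_le_iff₀ hden]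
    have b3 : |s * (dd M b n + R ^ n * (μ * (u ^ n * E).re)) + s * δ n| ≤
        ε / 2 * ‖E‖ * R ^ n + ε / 2 * ‖E‖ * R ^ n := by
      refine (abs_add_le _ _).trans ?_
      rw [abs_mul, abs_mul, hs1, one_mul, one_mul]
      exact add_le_add b1 b2.le
    refine b3.trans ?_
    have b4 : ‖E‖ * R ^ n ≤ μ * (‖E‖ * R ^ n) := le_mul_of_one_le_left (by positivity) hμ
    nlinarith
  · have e : {m : ℕ | 0 ≤ s * (dd M b (q * m + r) + δ (q * m + r)) / (μ * ‖E‖ * R ^ (q * m + r))} =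
        {m | 0 ≤ s * (dd M b (q * m + r) + δ (q * m + r))} := by
      ext m
      have h3 : 0 < μ * ‖E‖ * R ^ (q * m + r) := by positivity
      rw [Set.mem_setOf_eq, Set.mem_setOf_eq]
      rw [le_div_iff₀ h3, zero_mul]
    rw [e]

end Pool.Agent.N793.LI
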